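import Pool.Agent.Helper22.SAi.LowerC

/-!
From the normalisation `φ ~ G exp(-(2/3)(t+lam)^{3/2})` to the normalised ratio.
-/

namespace Pool.Agent.Helper22.SAi

open Filter Topology Set MeasureTheory

/-- `φ` is a solution (with some `Φ`) which is bounded on `[0,∞)` and satisfies
`φ(t) ~ G(t) exp(-(2/3)(t+lam)^{3/2})` as `t → +∞`. -/
def IsNormalised (B G : ℝ → ℝ) (lam : ℂ) (φ : ℝ → ℂ) : Prop :=
  ∃ Φ : ℝ → ℂ, IsSolution B lam φ Φ ∧ (∃ K : ℝ, ∀ t : ℝ, 0 ≤ t → ‖φ t‖ ≤ K) ∧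
    Tendsto (fun t : ℝ => φ t /
      ((G t : ℂ) * Complex.exp (-(2/3) * ((t : ℂ) + lam) ^ (3/2 : ℂ)))) atTop (𝓝 1)

theorem cpow_half_re_nonneg (z : ℂ) : 0 ≤ (z ^ (1/2 : ℂ)).re := by
  by_cases hz : z = 0
  · simp [hz]
  rw [Complex.cpow_def_of_ne_zero hz, Complex.exp_re]
  apply mul_nonneg (Real.exp_pos _).le
  have him : (Complex.log z * (1/2)).im = Complex.arg z / 2 := by
    have : (Complex.log z * (1/2)) = Complex.log z * ((1/2 : ℝ) : ℂ) := by push_cast; ring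
    rw [this, Complex.im_mul_ofReal, Complex.log_im]
    ring
  rw [him]
  apply Real.cos_nonneg_of_mem_Icc
  constructor
  · linarith [Complex.neg_pi_lt_arg z]
  · linarith [Complex.arg_le_pi z]

theorem cpow_three_half (z : ℂ) : z ^ (3/2 : ℂ) = (z ^ (1/2 : ℂ)) ^ 3 := by
  rw [← Complex.cpow_nat_mul]
  congr 1
  norm_num

theorem cpow_half_sq (z : ℂ) : (z ^ (1/2 : ℂ)) ^ 2 = z := by
  have := Complex.cpow_nat_inv_pow z (n := 2) two_ne_zero
  rw [one_div]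
  exact_mod_cast this

theorem cpow_est {t : ℝ} (ht : 0 < t) (lam : ℂ) :
    ‖((t : ℂ) + lam) ^ (3/2 : ℂ) - (Real.sqrt t : ℂ) ^ 3 - 3/2 * (lam * (Real.sqrt t : ℂ))‖
      ≤ 3/2 * (‖lam‖ ^ 2 / Real.sqrt t) := by
  set b := Real.sqrt t with hb
  have hb0 : 0 < b := Real.sqrt_pos.2 ht
  have hb2 : (b : ℂ) ^ 2 = (t : ℂ) := by
    rw [← Complex.ofReal_pow, Real.sq_sqrt ht.le]
  set a := ((t : ℂ) + lam) ^ (1/2 : ℂ) with ha
  have ha2 : a ^ 2 = (t : ℂ) + lam := cpow_half_sq _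
  have hare : 0 ≤ a.re := cpow_half_re_nonneg _
  rw [cpow_three_half, ← ha]
  have hab : b ≤ ‖a + b‖ := by
    refine le_trans ?_ (Complex.re_le_norm _)
    simp only [Complex.add_re, Complex.ofReal_re]
    linarith
  have habpos : 0 < ‖a + b‖ := lt_of_lt_of_le hb0 hab
  have habne : a + b ≠ 0 := norm_pos_iff.1 habpos
  have hlam : lam = (a - b) * (a + b) := by
    linear_combination hb2 - ha2
  have e : a ^ 3 - (b : ℂ) ^ 3 - 3/2 * (lam * (b : ℂ)) = lam ^ 2 * (a + b / 2) / (a + b) ^ 2 := by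
    rw [hlam]
    field_simp
    ring
  rw [e, norm_div, norm_mul, norm_pow, norm_pow]
  have h1 : ‖a + (b : ℂ) / 2‖ ≤ 3/2 * ‖a + b‖ := by
    have : a + (b : ℂ) / 2 = (a + b) - ((b / 2 : ℝ) : ℂ) := by push_cast; ring
    rw [this]
    refine (norm_sub_le _ _).trans ?_
    rw [Complex.norm_real, Real.norm_eq_abs, abs_of_pos (by positivity)]
    linarith
  rw [div_le_iff₀ (by positivity)]
  calc ‖lam‖ ^ 2 * ‖a + (b : ℂ) / 2‖ ≤ ‖lam‖ ^ 2 * (3/2 * ‖a + b‖) := by gcongr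
    _ = 3/2 * ‖lam‖ ^ 2 * ‖a + b‖ := by ring
    _ ≤ 3/2 * ‖lam‖ ^ 2 * (‖a + b‖ ^ 2 / b) := by
        gcongr
        rw [le_div_iff₀ hb0]
        nlinarith
    _ = 3/2 * (‖lam‖ ^ 2 / b) * ‖a + b‖ ^ 2 := by ring

theorem tendsto_phase (lam : ℂ) : Tendsto (fun t : ℝ => Complex.exp
    (-(2/3) * (((t : ℂ) + lam) ^ (3/2 : ℂ) - (Real.sqrt t : ℂ) ^ 3) + lam * (Real.sqrt t : ℂ)))
    atTop (𝓝 1) := by
  have h1 : Tendsto (fun t : ℝ => -(2/3 : ℂ) * (((t : ℂ) + lam) ^ (3/2 : ℂ) - (Real.sqrt t : ℂ) ^ 3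
      - 3/2 * (lam * (Real.sqrt t : ℂ)))) atTop (𝓝 0) := by
    rw [tendsto_zero_iff_norm_tendsto_zero]
    have h2 : Tendsto (fun t : ℝ => ‖lam‖ ^ 2 / Real.sqrt t) atTop (𝓝 0) :=
      tendsto_const_nhds.div_atTop Real.tendsto_sqrt_atTop
    refine tendsto_of_tendsto_of_tendsto_of_le_of_le' tendsto_const_nhds h2
      (Eventually.of_forall fun t => norm_nonneg _) ?_
    filter_upwards [eventually_gt_atTop 0] with t ht
    rw [norm_mul]
    have h3 := cpow_est ht lam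
    have h4 : ‖(-(2/3) : ℂ)‖ = 2/3 := by
      rw [norm_neg]
      norm_num
    rw [h4]
    linarith
  have h5 := (Complex.continuous_exp.tendsto 0).comp h1
  rw [Complex.exp_zero] at h5
  refine h5.congr fun t => ?_
  simp only [Function.comp_def]
  congr 1
  ring

/-- the reference solution -/
theorem ref_facts {B G : ℝ → ℝ} (hB : Continuous B) (hG : ∀ᶠ t in atTop, 0 < G t) {φ0 : ℝ → ℂ}
    (h0 : IsNormalised B G 0 φ0) : ∃ χ χ1 : ℝ → ℝ, RSol B χ χ1 ∧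
      (∃ T0 Cχ : ℝ, (∀ t ≥ T0, 0 < χ t) ∧ ∀ t ≥ T0, χ t ≤ Cχ) ∧
      Tendsto (fun t : ℝ => χ t / (G t * Real.exp (-(2/3) * Real.sqrt t ^ 3))) atTop (𝓝 1) := by
  obtain ⟨Φ0, hsol, ⟨K, hK⟩, hlim⟩ := h0
  have hd := hsol.dsol hB
  refine ⟨fun t => (φ0 t).re, fun t => (Φ0 t).re, ⟨?_, ?_⟩, ?_, ?_⟩
  · intro t
    exact Complex.reCLM.hasFDerivAt.comp_hasDerivAt t (hd.d1 t)
  · intro t
    have h1 := Complex.reCLM.hasFDerivAt.comp_hasDerivAt t (hd.d2 t)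
    simp only [Complex.reCLM_apply] at h1
    have e1 : (fun s => (Φ0 s).re - B s * (φ0 s).re) = (fun s => (Φ0 s - (B s : ℂ) * φ0 s).re) := by
      funext s
      rw [Complex.sub_re, Complex.re_ofReal_mul]
    rw [e1]
    refine h1.congr_deriv ?_
    simp
  all_goals
    have hlim' : Tendsto (fun t : ℝ => (φ0 t).re / (G t * Real.exp (-(2/3) * Real.sqrt t ^ 3)))
        atTop (𝓝 1) := by
      have h1 := (Complex.continuous_re.tendsto 1).comp hlim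
      rw [Complex.one_re] at h1
      refine h1.congr' ?_
      filter_upwards [eventually_gt_atTop 0] with t ht
      simp only [Function.comp_def]
      have e1 : (t : ℂ) + 0 = ((Real.sqrt t : ℝ) : ℂ) ^ 2 := by
        rw [add_zero, ← Complex.ofReal_pow, Real.sq_sqrt ht.le]
      have e2 : ((t : ℂ) + 0) ^ (3/2 : ℂ) = ((Real.sqrt t ^ 3 : ℝ) : ℂ) := by
        rw [cpow_three_half]
        have : ((t : ℂ) + 0) ^ (1/2 : ℂ) = (Real.sqrt t : ℂ) := by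
          rw [add_zero, Real.sqrt_eq_rpow, Complex.ofReal_cpow ht.le]
          norm_num
        rw [this]
        push_cast
        rfl
      rw [e2]
      have e3 : (G t : ℂ) * Complex.exp (-(2/3) * ((Real.sqrt t ^ 3 : ℝ) : ℂ))
          = ((G t * Real.exp (-(2/3) * Real.sqrt t ^ 3) : ℝ) : ℂ) := by
        push_cast
        rfl
      rw [e3, Complex.div_ofReal_re]
  · have h2 : ∀ᶠ t in atTop, (1/2 : ℝ) < (φ0 t).re / (G t * Real.exp (-(2/3) * Real.sqrt t ^ 3)) :=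
      hlim'.eventually_const_lt (by norm_num)
    obtain ⟨T0, hT0⟩ := ((h2.and hG).and (eventually_ge_atTop 0)).exists_forall_of_atTop
    refine ⟨T0, K, fun t ht => ?_, fun t ht => ?_⟩
    · obtain ⟨⟨g1, g2⟩, -⟩ := hT0 t ht
      have h3 : 0 < G t * Real.exp (-(2/3) * Real.sqrt t ^ 3) := mul_pos g2 (Real.exp_pos _)
      rw [lt_div_iff₀ h3] at g1
      linarith
    · exact (Complex.re_le_norm _).trans (hK t (hT0 t ht).2)
  · exact hlim'

theorem SF_tendsto {G : ℝ → ℝ} (hG : ∀ᶠ t in atTop, 0 < G t) {χ : ℝ → ℝ}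
    (hpos : ∀ᶠ t in atTop, 0 < χ t)
    (hχ : Tendsto (fun t : ℝ => χ t / (G t * Real.exp (-(2/3) * Real.sqrt t ^ 3))) atTop (𝓝 1))
    {lam : ℂ} {φ : ℝ → ℂ} (hlim : Tendsto (fun t : ℝ => φ t /
      ((G t : ℂ) * Complex.exp (-(2/3) * ((t : ℂ) + lam) ^ (3/2 : ℂ)))) atTop (𝓝 1)) :
    Tendsto (SF χ lam φ) atTop (𝓝 1) := by
  have h1 : Tendsto (fun t : ℝ => ((χ t / (G t * Real.exp (-(2/3) * Real.sqrt t ^ 3)) : ℝ) : ℂ))
      atTop (𝓝 1) := by
    have := (Complex.continuous_ofReal.tendsto 1).comp hχ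
    rw [Complex.ofReal_one] at this
    exact this
  have h2 := (hlim.div h1 one_ne_zero).mul (tendsto_phase lam)
  rw [div_one, mul_one] at h2
  refine h2.congr' ?_
  filter_upwards [hG, hpos] with t g1 g2
  have g1c : (G t : ℂ) ≠ 0 := by exact_mod_cast g1.ne'
  have g2c : (χ t : ℂ) ≠ 0 := by exact_mod_cast g2.ne'
  simp only [SF, Pi.div_apply]
  have e1 : Complex.exp (-(2/3) * (((t : ℂ) + lam) ^ (3/2 : ℂ) - (Real.sqrt t : ℂ) ^ 3)
      + lam * (Real.sqrt t : ℂ)) = Complex.exp (-(2/3) * ((t : ℂ) + lam) ^ (3/2 : ℂ))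
        * Complex.exp (lam * (Real.sqrt t : ℂ)) / Complex.exp (-(2/3) * (Real.sqrt t : ℂ) ^ 3) := by
    rw [← Complex.exp_add, ← Complex.exp_sub]
    congr 1
    ring
  rw [e1]
  have n1 := Complex.exp_ne_zero (-(2/3) * ((t : ℂ) + lam) ^ (3/2 : ℂ))
  have n2 := Complex.exp_ne_zero (-(2/3) * (Real.sqrt t : ℂ) ^ 3)
  push_cast
  field_simp

/-- two-sided bounds -/
theorem bounds {B G : ℝ → ℝ} {C δ : ℝ} (hB : PathReg B C δ) (hG : ∀ᶠ t in atTop, 0 < G t)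
    {φ0 : ℝ → ℂ} (h0 : IsNormalised B G 0 φ0) (t0 : ℝ) :
    ∃ K r0 : ℝ, 0 < K ∧ 1 ≤ r0 ∧
      (∀ (lam : ℂ) (φ : ℝ → ℂ), r0 ≤ ‖lam‖ → IsNormalised B G lam φ →
        ‖φ t0‖ ≤ Real.exp (K * (‖lam‖ * Real.sqrt ‖lam‖))) ∧
      (∀ (r : ℝ) (φ : ℝ → ℂ), r0 ≤ r → IsNormalised B G (Complex.I * r) φ →
        Real.exp (1 / 134217728 * (r * Real.sqrt r)) ≤ ‖φ t0‖) := by
  obtain ⟨χ, χ1, hs, ⟨T0, Cχ, hpos, hbd⟩, hχ⟩ := ref_facts hB.cont hG h0
  obtain ⟨T, hTt0, hbase⟩ := base_of_pathReg hB hs hpos hbd (max T0 t0)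
  have hpos' : ∀ᶠ t in atTop, 0 < χ t := by
    filter_upwards [eventually_ge_atTop T0] with t ht using hpos t ht
  have ht0T : t0 ≤ T := (le_max_right _ _).trans hTt0
  obtain ⟨K, hK0, hK⟩ := upper hbase t0 ht0T
  obtain ⟨C2, hC2⟩ := lower hbase t0 ht0T
  -- choose r0
  set D := |C2| + 1 with hD
  have hD0 : 0 < D := by positivity
  set r0 := max (max 3 T) ((134217728 * D) ^ 2) with hr0
  have h3r0 : 3 ≤ r0 := (le_max_left _ _).trans (le_max_left _ _)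
  refine ⟨K, r0, hK0, by linarith, fun lam φ hlam hφ => ?_, fun r φ hr hφ => ?_⟩
  · obtain ⟨Φ, hsol, -, hlim⟩ := hφ
    exact hK lam φ Φ (by linarith) (hsol.dsol hB.cont) (SF_tendsto hG hpos' hχ hlim)
  · obtain ⟨Φ, hsol, -, hlim⟩ := hφ
    have h1 := hC2 r φ Φ (h3r0.trans hr) (((le_max_right _ _).trans (le_max_left _ _)).trans hr)
      (hsol.dsol hB.cont) (SF_tendsto hG hpos' hχ hlim)
    refine le_trans ?_ h1
    apply Real.exp_le_exp.2
    have hrs : 134217728 * D ≤ Real.sqrt r := Real.le_sqrt_of_sq_le ((le_max_right _ _).trans hr)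
    have hrpos : 0 < r := by linarith
    have h2 : C2 ≤ D := by
      have := le_abs_self C2
      linarith
    have h3 : 134217728 * D * r ≤ r * Real.sqrt r := by nlinarith
    nlinarith

end Pool.Agent.Helper22.SAi
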