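import Pool.Agent.Helper22.SAi.Chain

/-!
Brownian paths are almost surely regular.
-/

namespace Pool.Agent.Helper22.SAi

open Filter Topology Set MeasureTheory ProbabilityTheory

section

variable {Ω : Type*} [MeasurableSpace Ω] {P : Measure Ω} {σ2 : ℝ} {B : ℝ → Ω → ℝ}

/-- left/right points of the dyadic cells -/
noncomputable def pt (N i j : ℕ) (y : ℝ) : ℝ := ((N:ℝ) ^ 2 + (i:ℝ) / N) + y * (1 / N) / 2 ^ j

/-- bad event for a single cell -/
def badA (B : ℝ → Ω → ℝ) (N i j l : ℕ) : Set Ω :=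
  {ω | ((N : ℝ) * 2 ^ j) ^ (-(1/4) : ℝ) < |B (pt N i j ((l:ℝ) + 1)) ω - B (pt N i j l) ω|}

/-- bad event at scale `N` -/
def badE (B : ℝ → Ω → ℝ) (N : ℕ) : Set Ω :=
  ⋃ i ∈ Finset.range (5 * N ^ 2), ⋃ j : ℕ, ⋃ l ∈ Finset.range (2 ^ j), badA B N i j l

theorem badA_le (h : IsTwoSidedBM P σ2 B) (hσ : 0 ≤ σ2) {N : ℕ} (hN : 1 ≤ N) (i j l : ℕ) :
    P (badA B N i j l) ≤ ENNReal.ofReal (c16 * σ2 ^ 8 / ((N : ℝ) * 2 ^ j) ^ 4) := by
  have hN1 : (1:ℝ) ≤ N := by exact_mod_cast hN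
  have hN0 : (0:ℝ) < N := by linarith
  have hthr : 0 < ((N : ℝ) * 2 ^ j) ^ (-(1/4) : ℝ) := by positivity
  refine (tail_bound h hσ _ _ _ hthr).trans (le_of_eq ?_)
  congr 1
  have e1 : |pt N i j ((l:ℝ) + 1) - pt N i j l| = ((N : ℝ) * 2 ^ j)⁻¹ := by
    have : pt N i j ((l:ℝ) + 1) - pt N i j l = ((N : ℝ) * 2 ^ j)⁻¹ := by
      simp only [pt]
      field_simp
      ring
    rw [this, abs_of_pos (by positivity)]
  have e2 : (((N : ℝ) * 2 ^ j) ^ (-(1/4) : ℝ)) ^ 16 = (((N : ℝ) * 2 ^ j) ^ 4)⁻¹ := by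
    rw [← Real.rpow_natCast (((N : ℝ) * 2 ^ j) ^ (-(1/4) : ℝ)), ← Real.rpow_mul (by positivity),
      ← Real.rpow_natCast ((N : ℝ) * 2 ^ j) 4, ← Real.rpow_neg (by positivity)]
    congr 1
    norm_num
  rw [e1, e2]
  have hpos : 0 < (N : ℝ) * 2 ^ j := by positivity
  field_simp

theorem badE_le (h : IsTwoSidedBM P σ2 B) (hσ : 0 ≤ σ2) (N : ℕ) :
    P (badE B N) ≤ ENNReal.ofReal (5 * (c16 * σ2 ^ 8) * (8 / 7) * (1 / (N:ℝ) ^ 2)) := by
  rcases Nat.eq_zero_or_pos N with rfl | hN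
  · simp [badE]
  have hN1 : (1:ℝ) ≤ N := by exact_mod_cast hN
  have hN0 : (0:ℝ) < N := by linarith
  set c := c16 * σ2 ^ 8 with hc
  have hc0 : 0 ≤ c := mul_nonneg c16_nonneg (by positivity)
  -- sum over j
  have hj : ∀ i, P (⋃ j : ℕ, ⋃ l ∈ Finset.range (2 ^ j), badA B N i j l)
      ≤ ENNReal.ofReal (c / (N:ℝ) ^ 4 * (8 / 7)) := by
    intro i
    have hsum : HasSum (fun j : ℕ => c / (N:ℝ) ^ 4 * (1/8 : ℝ) ^ j) (c / (N:ℝ) ^ 4 * (8 / 7)) := by
      have := (hasSum_geometric_of_lt_one (r := (1/8 : ℝ)) (by norm_num) (by norm_num)).mul_left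
        (c / (N:ℝ) ^ 4)
      have e : (1 - 1/8 : ℝ)⁻¹ = 8 / 7 := by norm_num
      rw [e] at this
      exact this
    calc P (⋃ j : ℕ, ⋃ l ∈ Finset.range (2 ^ j), badA B N i j l)
        ≤ ∑' j : ℕ, P (⋃ l ∈ Finset.range (2 ^ j), badA B N i j l) := measure_iUnion_le _
      _ ≤ ∑' j : ℕ, ENNReal.ofReal (c / (N:ℝ) ^ 4 * (1/8 : ℝ) ^ j) := by
          apply ENNReal.tsum_le_tsum
          intro j
          calc P (⋃ l ∈ Finset.range (2 ^ j), badA B N i j l)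
              ≤ ∑ l ∈ Finset.range (2 ^ j), P (badA B N i j l) := measure_biUnion_finset_le _ _
            _ ≤ ∑ l ∈ Finset.range (2 ^ j), ENNReal.ofReal (c / ((N : ℝ) * 2 ^ j) ^ 4) :=
                Finset.sum_le_sum fun l _ => badA_le h hσ hN i j l
            _ = ENNReal.ofReal (c / (N:ℝ) ^ 4 * (1/8 : ℝ) ^ j) := by
                rw [Finset.sum_const, Finset.card_range, nsmul_eq_mul,
                  ← ENNReal.ofReal_natCast, ← ENNReal.ofReal_mul (by positivity)]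
                congr 1
                push_cast
                rw [mul_pow, ← pow_mul, mul_comm j 4, pow_mul]
                have e8 : ((1/8 : ℝ)) ^ j = 2 ^ j / (2 ^ 4) ^ j := by
                  rw [← div_pow]; norm_num
                rw [e8]
                field_simp
      _ = ENNReal.ofReal (c / (N:ℝ) ^ 4 * (8 / 7)) := by
          rw [← hsum.tsum_eq, ENNReal.ofReal_tsum_of_nonneg (fun j => by positivity) hsum.summable]
  calc P (badE B N) ≤ ∑ i ∈ Finset.range (5 * N ^ 2),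
        P (⋃ j : ℕ, ⋃ l ∈ Finset.range (2 ^ j), badA B N i j l) := measure_biUnion_finset_le _ _
    _ ≤ ∑ i ∈ Finset.range (5 * N ^ 2), ENNReal.ofReal (c / (N:ℝ) ^ 4 * (8 / 7)) :=
        Finset.sum_le_sum fun i _ => hj i
    _ = ENNReal.ofReal (5 * c * (8 / 7) * (1 / (N:ℝ) ^ 2)) := by
        rw [Finset.sum_const, Finset.card_range, nsmul_eq_mul,
          ← ENNReal.ofReal_natCast, ← ENNReal.ofReal_mul (by positivity)]
        congr 1
        push_cast
        field_simp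

/-- Almost every path of a two-sided Brownian motion is regular. -/
theorem pathReg_ae (h : IsTwoSidedBM P σ2 B) (hσ : 0 ≤ σ2) :
    ∀ᵐ ω ∂P, ∃ C, PathReg (fun t => B t ω) C (1/8) := by
  have hsum : (∑' N, P (badE B N)) ≠ ⊤ := by
    have h1 : Summable fun N : ℕ => 5 * (c16 * σ2 ^ 8) * (8 / 7) * (1 / (N:ℝ) ^ 2) :=
      (Real.summable_one_div_nat_pow.2 (by norm_num)).mul_left _
    exact ne_top_of_le_ne_top h1.tsum_ofReal_ne_top
      (ENNReal.tsum_le_tsum fun N => badE_le h hσ N)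
  filter_upwards [ae_eventually_notMem hsum, h.cont] with ω h1 h2
  obtain ⟨N1, hN1⟩ := h1.exists_forall_of_atTop
  refine pathReg_of_good h2 (N0 := max N1 1) (le_max_right _ _) fun N hN => ?_
  have h3 := hN1 N ((le_max_left _ _).trans hN)
  intro i hi j l hl
  by_contra hcon
  push Not at hcon
  apply h3
  simp only [badE, mem_iUnion, Finset.mem_range]
  exact ⟨i, hi, j, l, hl, hcon⟩

end

end Pool.Agent.Helper22.SAi
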