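import Pool.Agent.Helper22.SAi.Smooth

/-!
Two-sided Brownian motion and tail bounds of its increments.
-/

namespace Pool.Agent.Helper22.SAi

open Filter Topology Set MeasureTheory ProbabilityTheory

/-- `B` is a two-sided Brownian motion with `E[B(t)^2] = σ2 * |t|`: a centred Gaussian process
indexed by `ℝ` with covariance `σ2 (|s| + |t| - |s-t|)/2`, almost surely continuous paths and
`B(0) = 0`. -/
structure IsTwoSidedBM {Ω : Type*} [MeasurableSpace Ω] (P : Measure Ω) (σ2 : ℝ)
    (B : ℝ → Ω → ℝ) : Prop where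
  gaussian : IsGaussianProcess B P
  mean : ∀ t, ∫ ω, B t ω ∂P = 0
  cov : ∀ s t, covariance (B s) (B t) P = σ2 * ((|s| + |t| - |s - t|) / 2)
  cont : ∀ᵐ ω ∂P, Continuous (fun t => B t ω)
  zero : ∀ᵐ ω ∂P, B 0 ω = 0

/-- the sixteenth absolute moment of the standard Gaussian -/
noncomputable def c16 : ℝ := ∫ y, ‖y‖ ^ 16 ∂(gaussianReal 0 1)

theorem c16_nonneg : 0 ≤ c16 := integral_nonneg fun _ => by positivity

theorem gauss_tail (v x : ℝ) (hv : 0 ≤ v) (hx : 0 < x) :
    (gaussianReal 0 v.toNNReal) {y | x < |y|} ≤ ENNReal.ofReal (c16 * v ^ 8 / x ^ 16) := by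
  have hmap : gaussianReal 0 v.toNNReal = (gaussianReal 0 1).map (Real.sqrt v * ·) := by
    rw [gaussianReal_map_const_mul]
    congr 1
    · simp
    · ext
      simp [Real.sq_sqrt hv, hv]
  have hmeas : MeasurableSet {y : ℝ | x < |y|} := measurableSet_lt measurable_const continuous_abs.measurable
  rw [hmap, Measure.map_apply (measurable_const_mul _) hmeas]
  rcases hv.eq_or_lt with h0 | hvpos
  · have : (fun y => Real.sqrt v * y) ⁻¹' {y : ℝ | x < |y|} = ∅ := by
      ext y
      simp [← h0]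
      exact hx.le
    rw [this]
    simp
  have hint : Integrable (fun y : ℝ => ‖y‖ ^ 16) (gaussianReal 0 1) :=
    (memLp_id_gaussianReal (μ := 0) (v := 1) 16).integrable_norm_pow (by norm_num)
  have hmk := mul_meas_ge_le_integral_of_nonneg (μ := gaussianReal 0 1)
    (f := fun y : ℝ => ‖y‖ ^ 16) (Eventually.of_forall fun y => by positivity) hint (x ^ 16 / v ^ 8)
  have hsub : (fun y => Real.sqrt v * y) ⁻¹' {y : ℝ | x < |y|} ⊆ {y | x ^ 16 / v ^ 8 ≤ ‖y‖ ^ 16} := by
    intro y hy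
    simp only [mem_preimage, mem_ofPred_eq] at hy ⊢
    rw [abs_mul, abs_of_nonneg (Real.sqrt_nonneg _)] at hy
    rw [div_le_iff₀ (by positivity), Real.norm_eq_abs]
    have h1 : x ^ 16 ≤ (Real.sqrt v * |y|) ^ 16 := pow_le_pow_left₀ hx.le hy.le 16
    have h2 : (Real.sqrt v * |y|) ^ 16 = |y| ^ 16 * v ^ 8 := by
      rw [mul_pow]
      have : Real.sqrt v ^ 16 = v ^ 8 := by
        calc Real.sqrt v ^ 16 = (Real.sqrt v ^ 2) ^ 8 := by ring
          _ = v ^ 8 := by rw [Real.sq_sqrt hv]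
      rw [this]; ring
    rwa [h2] at h1
  refine (measure_mono hsub).trans ?_
  rw [← ofReal_measureReal (measure_ne_top _ _)]
  apply ENNReal.ofReal_le_ofReal
  rw [le_div_iff₀ (by positivity)]
  have h3 : x ^ 16 / v ^ 8 * (gaussianReal 0 1).real {y | x ^ 16 / v ^ 8 ≤ ‖y‖ ^ 16} ≤ c16 := hmk
  rw [div_mul_eq_mul_div, div_le_iff₀ (by positivity)] at h3
  linarith

theorem tail_bound {Ω : Type*} [MeasurableSpace Ω] {P : Measure Ω} {σ2 : ℝ} {B : ℝ → Ω → ℝ}
    (h : IsTwoSidedBM P σ2 B) (hσ : 0 ≤ σ2) (s t x : ℝ) (hx : 0 < x) :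
    P {ω | x < |B s ω - B t ω|} ≤ ENNReal.ofReal (c16 * (σ2 * |s - t|) ^ 8 / x ^ 16) := by
  have hP : IsProbabilityMeasure P := h.gaussian.isProbabilityMeasure
  have hG : HasGaussianLaw (B s - B t) P := h.gaussian.hasGaussianLaw_sub
  have hs := h.gaussian.hasGaussianLaw_eval s
  have ht := h.gaussian.hasGaussianLaw_eval t
  have hlaw := hG.map_eq_gaussianReal
  have hmean : ∫ ω, (B s - B t) ω ∂P = 0 := by
    have : ∫ ω, (B s - B t) ω ∂P = (∫ ω, B s ω ∂P) - ∫ ω, B t ω ∂P :=
      integral_sub hs.integrable ht.integrable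
    rw [this, h.mean, h.mean, sub_zero]
  have hvar : variance (B s - B t) P = σ2 * |s - t| := by
    rw [variance_sub hs.memLp_two ht.memLp_two, ← covariance_self hs.aemeasurable,
      ← covariance_self ht.aemeasurable, h.cov, h.cov, h.cov]
    simp only [sub_self, abs_zero]
    ring
  rw [hmean, hvar] at hlaw
  have hmeas : MeasurableSet {y : ℝ | x < |y|} :=
    measurableSet_lt measurable_const continuous_abs.measurable
  have h1 : P {ω | x < |B s ω - B t ω|} = P.map (B s - B t) {y : ℝ | x < |y|} := by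
    rw [Measure.map_apply_of_aemeasurable hG.aemeasurable hmeas]
    rfl
  rw [h1, hlaw]
  exact gauss_tail _ x (by positivity) hx

end Pool.Agent.Helper22.SAi
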