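import Pool.Agent.Helper22.SAi.Smooth

/-!
The logarithmic derivative of a positive bounded solution at `lam = 0` is `√t + O(t^(-δ))`.
-/

namespace Pool.Agent.Helper22.SAi

open Filter Topology Set MeasureTheory

/-- A real solution at `lam = 0`. -/
structure RSol (B : ℝ → ℝ) (χ χ1 : ℝ → ℝ) : Prop where
  d1 : ∀ t : ℝ, HasDerivAt χ (χ1 t) t
  d2 : ∀ t : ℝ, HasDerivAt (fun s => χ1 s - B s * χ s) (t * χ t - B t * χ1 t) t

theorem rpow_neg_ge {t δ : ℝ} (ht : 1 ≤ t) (hδ : δ ≤ 1) : t⁻¹ ≤ t ^ (-δ) := by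
  rw [← Real.rpow_neg_one]
  exact Real.rpow_le_rpow_of_exponent_le ht (by linarith)

theorem rpow_neg_le_one {t δ : ℝ} (ht : 1 ≤ t) (hδ : 0 ≤ δ) : t ^ (-δ) ≤ 1 :=
  Real.rpow_le_one_of_one_le_of_nonpos ht (by linarith)

/-- blow-up lemma: `D' ≥ D^2` whenever `D ≥ 0` is impossible with `D t₁ > 0` for a globally
defined `D`. -/
theorem no_blowup {D D' : ℝ → ℝ} {T : ℝ} (hD : ∀ t ≥ T, HasDerivAt D (D' t) t)
    (h : ∀ t ≥ T, 0 ≤ D t → D t ^ 2 ≤ D' t) : ∀ t ≥ T, D t ≤ 0 := by
  intro t1 ht1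
  by_contra hpos
  push Not at hpos
  set d := D t1 with hd
  have hge : ∀ t ≥ t1, d / 2 ≤ D t := by
    intro t ht
    have h1 := image_le_of_deriv_right_lt_deriv_boundary (f := fun t => - D t)
      (f' := fun t => - D' t) (a := t1) (b := t)
      (B := fun _ => - (d / 2)) (B' := fun _ => 0)
      (fun s hs => ((hD s (ht1.trans hs.1)).neg).continuousAt.continuousWithinAt)
      (fun s hs => ((hD s (ht1.trans hs.1)).neg).hasDerivWithinAt)
      (by simp only [neg_le_neg_iff]; linarith)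
      (fun s => hasDerivAt_const _ _)
      (fun s hs hEq => by
        have hEq' : D s = d / 2 := by simpa using hEq
        have := h s (ht1.trans hs.1) (by rw [hEq']; linarith)
        rw [hEq'] at this
        have h2 : 0 < (d / 2) ^ 2 := by positivity
        simp only [Left.neg_neg_iff]
        linarith)
    have := h1 (right_mem_Icc.2 ht)
    simp only [neg_le_neg_iff] at this
    exact this
  have hDpos : ∀ t ≥ t1, 0 < D t := fun t ht => lt_of_lt_of_le (by linarith) (hge t ht)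
  have hu : ∀ t ≥ t1, HasDerivAt (fun s => (D s)⁻¹ + s) (- D' t / D t ^ 2 + 1) t := by
    intro t ht
    exact ((hD t (ht1.trans ht)).inv (hDpos t ht).ne').add (hasDerivAt_id t)
  have hanti := anti_of_deriv hu (fun t ht => by
    have h1 := h t (ht1.trans ht) (hDpos t ht).le
    have h2 := hDpos t ht
    have h3 : 1 ≤ D' t / D t ^ 2 := by
      rw [le_div_iff₀ (by positivity)]; linarith
    rw [neg_div]; linarith) t1 (t1 + d⁻¹ + 1) le_rfl (by linarith [inv_pos.2 hpos])
  have h5 := hDpos (t1 + d⁻¹ + 1) (by linarith [inv_pos.2 hpos])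
  have h6 : 0 < (D (t1 + d⁻¹ + 1))⁻¹ := inv_pos.2 h5
  simp only [← hd] at hanti
  linarith

/-- exponential growth lemma -/
theorem exp_growth {y y' : ℝ → ℝ} {T : ℝ} (hy : ∀ t ≥ T, HasDerivAt y (y' t) t)
    (h : ∀ t ≥ T, 0 ≤ y t → y t ≤ y' t) {t1 : ℝ} (ht1 : T ≤ t1) (hpos : 0 < y t1) :
    ∀ t ≥ t1, y t1 * Real.exp (t - t1) ≤ y t := by
  set d := y t1 with hd
  have hge : ∀ t ≥ t1, d / 2 ≤ y t := by
    intro t ht
    have h1 := image_le_of_deriv_right_lt_deriv_boundary (f := fun t => - y t)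
      (f' := fun t => - y' t) (a := t1) (b := t)
      (B := fun _ => - (d / 2)) (B' := fun _ => 0)
      (fun s hs => ((hy s (ht1.trans hs.1)).neg).continuousAt.continuousWithinAt)
      (fun s hs => ((hy s (ht1.trans hs.1)).neg).hasDerivWithinAt)
      (by simp only [neg_le_neg_iff]; linarith)
      (fun s => hasDerivAt_const _ _)
      (fun s hs hEq => by
        have hEq' : y s = d / 2 := by simpa using hEq
        have := h s (ht1.trans hs.1) (by rw [hEq']; linarith)
        rw [hEq'] at this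
        simp only [Left.neg_neg_iff]
        linarith)
    have := h1 (right_mem_Icc.2 ht)
    simp only [neg_le_neg_iff] at this
    exact this
  have hu : ∀ t ≥ t1, HasDerivAt (fun s => y s * Real.exp (-(s - t1)))
      ((y' t - y t) * Real.exp (-(t - t1))) t := by
    intro t ht
    have e1 : HasDerivAt (fun s => Real.exp (-(s - t1))) (Real.exp (-(t - t1)) * (-1)) t :=
      (((hasDerivAt_id t).sub_const t1).neg).exp
    refine ((hy t (ht1.trans ht)).mul e1).congr_deriv ?_
    ring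
  intro t ht
  have hm := mono_of_deriv hu (fun t ht => by
    have h1 := h t (ht1.trans ht) (by linarith [hge t ht])
    exact mul_nonneg (by linarith) (Real.exp_pos _).le) t1 t le_rfl ht
  simp only [sub_self, neg_zero, Real.exp_zero, mul_one] at hm
  have e2 : Real.exp (t - t1) * Real.exp (-(t - t1)) = 1 := by
    rw [← Real.exp_add]; simp
  calc y t1 * Real.exp (t - t1) ≤ (y t * Real.exp (-(t - t1))) * Real.exp (t - t1) :=
        mul_le_mul_of_nonneg_right hm (Real.exp_pos _).le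
    _ = y t * (Real.exp (t - t1) * Real.exp (-(t - t1))) := by ring
    _ = y t := by rw [e2, mul_one]

theorem barrier {B : ℝ → ℝ} {C δ : ℝ} (hB : PathReg B C δ) {χ χ1 : ℝ → ℝ} (hs : RSol B χ χ1)
    {T0 Cχ : ℝ} (hT0 : 1 ≤ T0) (hpos : ∀ t ≥ T0, 0 < χ t) (hbd : ∀ t ≥ T0, χ t ≤ Cχ) :
    ∃ T1 ≥ T0, ∀ t ≥ T1, |-(χ1 t / χ t) - Real.sqrt t| ≤ (3 * C + 1) * t ^ (-δ) := by
  obtain ⟨Bh, Bh', hBh⟩ := hB.smooth
  have hC := hB.Cnn
  have hδ := hB.dpos
  have hδ2 := hB.dle
  set M := 2 * C + 1 with hM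
  set P : ℝ → ℝ := fun s => -((χ1 s - B s * χ s) / χ s) with hP
  have hPd : ∀ t ≥ T0, HasDerivAt P ((P t - B t) ^ 2 - t) t := by
    intro t ht
    have hx := hpos t ht
    refine (((hs.d2 t).div (hs.d1 t) hx.ne').neg).congr_deriv ?_
    simp only [hP]
    field_simp
    ring
  have hPp : ∀ t ≥ T0, P t - B t = -(χ1 t / χ t) := by
    intro t ht
    have hx := hpos t ht
    simp only [hP]
    field_simp
    ring
  -- derivative of the power
  have hpow : ∀ t : ℝ, 1 ≤ t → HasDerivAt (fun s : ℝ => s ^ (-δ)) (-(δ * t ^ (-δ - 1))) t := by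
    intro t ht
    have := Real.hasDerivAt_rpow_const (x := t) (p := -δ) (Or.inl (by linarith))
    refine this.congr_deriv ?_
    ring
  have hpow2 : ∀ t : ℝ, 1 ≤ t → 0 ≤ δ * t ^ (-δ - 1) := fun t ht =>
    mul_nonneg hδ.le (Real.rpow_nonneg (by linarith) _)
  have hsq : ∀ t : ℝ, 1 ≤ t → HasDerivAt Real.sqrt (1 / (2 * Real.sqrt t)) t :=
    fun t ht => Real.hasDerivAt_sqrt (by linarith)
  -- upper barrier
  have hup : ∀ t ≥ T0, P t - Real.sqrt t - Bh t - M * t ^ (-δ) ≤ 0 := by
    apply no_blowup (D := fun t => P t - Real.sqrt t - Bh t - M * t ^ (-δ))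
      (D' := fun t => ((P t - B t) ^ 2 - t) - 1 / (2 * Real.sqrt t) - Bh' t
        - M * (-(δ * t ^ (-δ - 1))))
    · intro t ht
      have ht1 : 1 ≤ t := hT0.trans ht
      exact (((hPd t ht).sub (hsq t ht1)).sub (hBh t ht1).1).sub ((hpow t ht1).const_mul M)
    · intro t ht hD
      have ht1 : 1 ≤ t := hT0.trans ht
      have ht0 : 0 < t := by linarith
      obtain ⟨-, hb, hb'⟩ := hBh t ht1
      have hs1 : 1 ≤ Real.sqrt t := Real.one_le_sqrt.2 ht1
      have hs0 : 0 < Real.sqrt t := by linarith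
      have hs2 : Real.sqrt t ^ 2 = t := Real.sq_sqrt ht0.le
      set s := Real.sqrt t with hsdef
      set u := t ^ (-δ) with hu
      have hu1 : t⁻¹ ≤ u := rpow_neg_ge ht1 (by linarith)
      have hu0 : 0 < u := lt_of_lt_of_le (inv_pos.2 ht0) hu1
      set D := P t - s - Bh t - M * u with hDdef
      set x := M * u - (B t - Bh t) with hx
      have hxl : (C + 1) * u ≤ x := by
        have := (abs_le.1 hb).2
        rw [hx, hM]; nlinarith
      have hx0 : 0 ≤ x := le_trans (by positivity) hxl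
      have hp : P t - B t = s + D + x := by rw [hDdef, hx]; ring
      have h1 := (abs_le.1 hb').2
      have h2 : 1 / (2 * s) ≤ 2 * (s * u) := by
        rw [div_le_iff₀ (by positivity)]
        have : s ^ 2 * u ≥ 1 := by
          rw [hs2]
          calc t * u ≥ t * t⁻¹ := mul_le_mul_of_nonneg_left hu1 ht0.le
            _ = 1 := mul_inv_cancel₀ ht0.ne'
        nlinarith
      have h3 : 0 ≤ M * (δ * t ^ (-δ - 1)) := mul_nonneg (by rw [hM]; linarith) (hpow2 t ht1)
      have hsu : 0 ≤ s * u := by positivity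
      have h4 : s * ((C + 1) * u) ≤ s * x := mul_le_mul_of_nonneg_left hxl hs0.le
      have h5 : 0 ≤ s * D := mul_nonneg hs0.le hD
      have h6 : 0 ≤ D * x := mul_nonneg hD hx0
      rw [hp]
      have h7 : (s + D + x) ^ 2 - t = D ^ 2 + x ^ 2 + 2 * (D * x) + 2 * (s * D) + 2 * (s * x) := by
        rw [← hs2]; ring
      rw [h7]
      nlinarith [sq_nonneg x]
  -- lower barrier
  set K := 2 * (C + 1) * (3 * C + 1) + 2 with hK
  have hK2 : 2 ≤ K := by rw [hK]; nlinarith
  set T1 := max T0 (K ^ 2) with hT1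
  have hsK : ∀ t ≥ T1, K ≤ Real.sqrt t := by
    intro t ht
    exact Real.le_sqrt_of_sq_le ((le_max_right _ _).trans ht)
  set Ph : ℝ → ℝ := fun t => Real.sqrt t - M * t ^ (-δ) + Bh t with hPh
  set Ph' : ℝ → ℝ := fun t => 1 / (2 * Real.sqrt t) - M * (-(δ * t ^ (-δ - 1))) + Bh' t with hPh'
  have hPhd : ∀ t ≥ T1, HasDerivAt Ph (Ph' t) t := by
    intro t ht
    have ht1 : 1 ≤ t := hT0.trans ((le_max_left _ _).trans ht)
    exact ((hsq t ht1).sub ((hpow t ht1).const_mul M)).add (hBh t ht1).1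
  set y : ℝ → ℝ := fun t => (χ1 t - B t * χ t) + Ph t * χ t with hy
  have hyd : ∀ t ≥ T1, HasDerivAt y
      ((Ph t - B t) * y t + (t - (Ph t - B t) ^ 2 + Ph' t) * χ t) t := by
    intro t ht
    refine ((hs.d2 t).add ((hPhd t ht).mul (hs.d1 t))).congr_deriv ?_
    simp only [hy]
    ring
  have hfacts : ∀ t ≥ T1, 1 ≤ Ph t - B t ∧ Ph t - B t ≤ Real.sqrt t ∧
      0 ≤ t - (Ph t - B t) ^ 2 + Ph' t := by
    intro t ht
    have htT0 : T0 ≤ t := (le_max_left _ _).trans ht
    have ht1 : 1 ≤ t := hT0.trans htT0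
    have ht0 : 0 < t := by linarith
    have hsK' := hsK t ht
    obtain ⟨-, hb, hb'⟩ := hBh t ht1
    have hs0 : 0 < Real.sqrt t := by linarith
    have hs2 : Real.sqrt t ^ 2 = t := Real.sq_sqrt ht0.le
    have h3 : 0 ≤ M * (δ * t ^ (-δ - 1)) := mul_nonneg (by rw [hM]; linarith) (hpow2 t ht1)
    have hPht : Ph t = Real.sqrt t - M * t ^ (-δ) + Bh t := rfl
    have hPh't : Ph' t = 1 / (2 * Real.sqrt t) - M * (-(δ * t ^ (-δ - 1))) + Bh' t := rfl
    set s := Real.sqrt t with hsdef
    set u := t ^ (-δ) with hu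
    have hu1 : t⁻¹ ≤ u := rpow_neg_ge ht1 (by linarith)
    have hu0 : 0 < u := lt_of_lt_of_le (inv_pos.2 ht0) hu1
    have hule : u ≤ 1 := rpow_neg_le_one ht1 hδ.le
    set x := M * u + (B t - Bh t) with hx
    have hxl : (C + 1) * u ≤ x := by
      have := (abs_le.1 hb).1
      rw [hx, hM]; nlinarith
    have hxu : x ≤ (3 * C + 1) * u := by
      have := (abs_le.1 hb).2
      rw [hx, hM]; nlinarith
    have hxu1 : x ≤ 3 * C + 1 := hxu.trans (by nlinarith)
    have hx0 : 0 ≤ x := le_trans (by positivity) hxl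
    have hp : Ph t - B t = s - x := by rw [hPht, hx]; ring
    have hK3 : 3 * C + 1 + 1 ≤ K := by rw [hK]; nlinarith
    refine ⟨by rw [hp]; linarith, by rw [hp]; linarith, ?_⟩
    rw [hp, hPh't]
    have h1 := (abs_le.1 hb').1
    have h2 : 0 < 1 / (2 * s) := by positivity
    have h4 : t - (s - x) ^ 2 = x * (2 * s - x) := by rw [← hs2]; ring
    rw [h4]
    have h5 : (C + 1) * u * (2 * s - (3 * C + 1)) ≤ x * (2 * s - x) := by
      apply mul_le_mul hxl (by linarith) (by linarith) hx0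
    have h6 : 2 * C * (s * u) ≤ (C + 1) * u * (2 * s - (3 * C + 1)) := by
      have h7 : (C + 1) * (3 * C + 1) ≤ 2 * s := by
        have : (C + 1) * (3 * C + 1) ≤ K := by rw [hK]; nlinarith
        linarith
      nlinarith
    linarith
  have hlow : ∀ t ≥ T1, y t ≤ 0 := by
    intro t1 ht1
    by_contra hcon
    push Not at hcon
    have hgr := exp_growth (T := T1) hyd (fun t ht hyt => by
      obtain ⟨f1, f2, f3⟩ := hfacts t ht
      have : 0 ≤ (t - (Ph t - B t) ^ 2 + Ph' t) * χ t :=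
        mul_nonneg f3 (hpos t ((le_max_left _ _).trans ht)).le
      nlinarith) ht1 hcon
    -- the derivative of χ tends to infinity
    have hCχ : 0 < Cχ := lt_of_lt_of_le (hpos t1 ((le_max_left _ _).trans ht1))
      (hbd t1 ((le_max_left _ _).trans ht1))
    have hev : ∀ᶠ t in atTop, Cχ * t + 1 ≤ y t1 * Real.exp (t - t1) := by
      have h1 : Tendsto (fun t : ℝ => Real.exp t / t ^ (1:ℕ)) atTop atTop :=
        Real.tendsto_exp_div_pow_atTop 1
      have h2 := h1.eventually_ge_atTop ((Cχ + 1) * Real.exp t1 / y t1)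
      filter_upwards [h2, eventually_ge_atTop 1] with t h2 ht
      rw [pow_one, div_le_div_iff₀ hcon (by linarith)] at h2
      rw [Real.exp_sub]
      have h3 : (Cχ + 1) * t ≤ y t1 * (Real.exp t / Real.exp t1) := by
        rw [← mul_div_assoc, le_div_iff₀ (Real.exp_pos _)]
        nlinarith
      nlinarith
    obtain ⟨t2, ht2⟩ := (hev.and (eventually_ge_atTop t1)).exists_forall_of_atTop
    set t3 := max t2 t1 with ht3
    have hder : ∀ t ≥ t3, 1 ≤ χ1 t := by
      intro t ht
      have ht2' : t2 ≤ t := (le_max_left _ _).trans ht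
      obtain ⟨g1, g2⟩ := ht2 t ht2'
      obtain ⟨f1, f2, f3⟩ := hfacts t (ht1.trans g2)
      have g3 := hgr t g2
      have g4 : χ1 t = y t - (Ph t - B t) * χ t := by simp only [hy]; ring
      have ht0 : T0 ≤ t := (le_max_left _ _).trans (ht1.trans g2)
      have g5 : (Ph t - B t) * χ t ≤ t * Cχ := by
        apply mul_le_mul _ (hbd t ht0) (hpos t ht0).le (by linarith)
        refine f2.trans ?_
        have h1t : 1 ≤ t := hT0.trans ht0
        rw [Real.sqrt_le_left (by linarith)]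
        nlinarith
      rw [g4]
      linarith
    have hmon := mono_of_deriv (f := fun t => χ t - t) (f' := fun t => χ1 t - 1) (T := t3)
      (fun t _ => (hs.d1 t).sub (hasDerivAt_id t)) (fun t ht => by linarith [hder t ht])
      t3 (t3 + Cχ + 1) le_rfl (by linarith)
    have ht30 : T0 ≤ t3 := ((le_max_left _ _).trans ht1).trans (le_max_right _ _)
    have h8 := hbd (t3 + Cχ + 1) (by linarith)
    have h9 := hpos t3 ht30
    linarith
  refine ⟨T1, le_max_left _ _, fun t ht => ?_⟩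
  have htT0 : T0 ≤ t := (le_max_left _ _).trans ht
  have ht1 : 1 ≤ t := hT0.trans htT0
  have ht0 : 0 < t := by linarith
  have hx := hpos t htT0
  obtain ⟨-, hb, hb'⟩ := hBh t ht1
  have hu0 : 0 ≤ t ^ (-δ) := Real.rpow_nonneg ht0.le _
  rw [← hPp t htT0, abs_le]
  constructor
  · have h1 := hlow t ht
    have h2 : y t = (Ph t - P t) * χ t := by
      simp only [hy, hP]
      field_simp
      ring
    rw [h2] at h1
    have h3 : Ph t - P t ≤ 0 := by
      by_contra hcon
      push Not at hcon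
      have := mul_pos hcon hx
      linarith
    have h4 : Ph t = Real.sqrt t - M * t ^ (-δ) + Bh t := rfl
    rw [h4] at h3
    have h5 := (abs_le.1 hb).2
    rw [hM] at h3
    nlinarith
  · have h1 := hup t htT0
    have h5 := (abs_le.1 hb).1
    rw [hM] at h1
    nlinarith

end Pool.Agent.Helper22.SAi
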