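import Mathlib

/-!
General comparison lemmas for differential inequalities on half lines.
-/

namespace Pool.Agent.Helper22.SAi

open Filter Topology Set

section

variable {E : Type*} [NormedAddCommGroup E] [NormedSpace ℝ E]

/-- increment bound -/
theorem norm_sub_le_of_deriv {f f' : ℝ → E} {b b' : ℝ → ℝ} {x y : ℝ} (hxy : x ≤ y)
    (hf : ∀ t ∈ Icc x y, HasDerivAt f (f' t) t) (hb : ∀ t ∈ Icc x y, HasDerivAt b (b' t) t)
    (hle : ∀ t ∈ Icc x y, ‖f' t‖ ≤ - b' t) : ‖f y - f x‖ ≤ b x - b y := by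
  have h := image_norm_le_of_norm_deriv_right_le_deriv_boundary' (f := fun t => f t - f x)
    (f' := f') (a := x) (b := y) (B := fun t => b x - b t) (B' := fun t => - b' t)
    (fun t ht => ((hf t ht).sub_const _).continuousAt.continuousWithinAt)
    (fun t ht => ((hf t (Ico_subset_Icc_self ht)).sub_const _).hasDerivWithinAt)
    (by simp)
    (fun t ht => ((hb t ht).const_sub _).continuousAt.continuousWithinAt)
    (fun t ht => ((hb t (Ico_subset_Icc_self ht)).const_sub _).hasDerivWithinAt)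
    (fun t ht => hle t (Ico_subset_Icc_self ht))
  simpa using h (right_mem_Icc.2 hxy)

/-- comparison at infinity -/
theorem cmpInf {f f' : ℝ → E} {b b' : ℝ → ℝ}
    {T : ℝ} {l : E} {bl : ℝ}
    (hf : ∀ t ≥ T, HasDerivAt f (f' t) t) (hb : ∀ t ≥ T, HasDerivAt b (b' t) t)
    (hle : ∀ t ≥ T, ‖f' t‖ ≤ - b' t) (hfl : Tendsto f atTop (𝓝 l))
    (hbl : Tendsto b atTop (𝓝 bl)) :
    ∀ t ≥ T, ‖f t - l‖ ≤ b t - bl := by
  intro t ht
  have h1 : ∀ᶠ N in atTop, ‖f N - f t‖ ≤ b t - b N := by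
    filter_upwards [eventually_ge_atTop t] with N hN
    exact norm_sub_le_of_deriv hN (fun s hs => hf s (ht.trans hs.1)) (fun s hs => hb s (ht.trans hs.1))
      (fun s hs => hle s (ht.trans hs.1))
  have h2 : Tendsto (fun N => ‖f N - f t‖) atTop (𝓝 ‖l - f t‖) := (hfl.sub_const _).norm
  have h3 : Tendsto (fun N => b t - b N) atTop (𝓝 (b t - bl)) := hbl.const_sub _
  rw [norm_sub_rev]
  exact le_of_tendsto_of_tendsto h2 h3 h1

/-- backward Gronwall inequality -/
theorem gronwall_back {f f' : ℝ → E} {K a b : ℝ}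
    (hf : ∀ t ∈ Icc a b, HasDerivAt f (f' t) t)
    (hle : ∀ t ∈ Icc a b, ‖f' t‖ ≤ K * ‖f t‖) :
    ∀ t ∈ Icc a b, ‖f t‖ ≤ ‖f b‖ * Real.exp (K * (b - t)) := by
  intro t ht
  have hmem : ∀ s ∈ Icc 0 (b - a), b - s ∈ Icc a b := by
    intro s hs
    constructor
    · linarith [hs.2]
    · linarith [hs.1]
  have hd : ∀ s ∈ Icc 0 (b - a), HasDerivAt (fun s => f (b - s)) (- f' (b - s)) s := by
    intro s hs
    have h1 : HasDerivAt (fun s : ℝ => b - s) (-1) s := by
      simpa using (hasDerivAt_id s).const_sub b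
    have h2 := HasDerivAt.scomp s (hf (b - s) (hmem s hs)) h1
    simpa [Function.comp_def] using h2
  have h := norm_le_gronwallBound_of_norm_deriv_right_le (f := fun s => f (b - s))
    (f' := fun s => - f' (b - s)) (δ := ‖f b‖) (K := K) (ε := 0) (a := 0) (b := b - a)
    (fun s hs => (hd s hs).continuousAt.continuousWithinAt)
    (fun s hs => (hd s (Ico_subset_Icc_self hs)).hasDerivWithinAt)
    (by simp)
    (fun s hs => by
      rw [norm_neg, add_zero]
      exact hle _ (hmem s (Ico_subset_Icc_self hs)))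
    (b - t) ⟨by linarith [ht.2], by linarith [ht.1]⟩
  rw [gronwallBound_ε0] at h
  simpa using h

/-- forward Gronwall inequality -/
theorem gronwall_fwd {f f' : ℝ → E} {K a b : ℝ}
    (hf : ∀ t ∈ Icc a b, HasDerivAt f (f' t) t)
    (hle : ∀ t ∈ Icc a b, ‖f' t‖ ≤ K * ‖f t‖) :
    ∀ t ∈ Icc a b, ‖f t‖ ≤ ‖f a‖ * Real.exp (K * (t - a)) := by
  intro t ht
  have h := norm_le_gronwallBound_of_norm_deriv_right_le (f := f)
    (f' := f') (δ := ‖f a‖) (K := K) (ε := 0) (a := a) (b := b)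
    (fun s hs => (hf s hs).continuousAt.continuousWithinAt)
    (fun s hs => (hf s (Ico_subset_Icc_self hs)).hasDerivWithinAt)
    le_rfl
    (fun s hs => by
      rw [add_zero]
      exact hle _ (Ico_subset_Icc_self hs)) t ht
  rwa [gronwallBound_ε0] at h

end

/-- escape lemma: as long as `f ≤ κ` the derivative is `< -ρ`; then `f` decreases at rate `ρ`. -/
theorem escape {f f' : ℝ → ℝ} {κ ρ a b : ℝ} (hab : a ≤ b) (hρ : 0 ≤ ρ)
    (hf : ∀ t ∈ Icc a b, HasDerivAt f (f' t) t) (ha : f a ≤ κ)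
    (h : ∀ t ∈ Icc a b, f t ≤ κ → f' t < -ρ) : f b ≤ f a - ρ * (b - a) := by
  have h1 := image_le_of_deriv_right_lt_deriv_boundary (f := f) (f' := f') (a := a) (b := b)
    (B := fun t => f a - ρ * (t - a)) (B' := fun _ => -ρ)
    (fun s hs => (hf s hs).continuousAt.continuousWithinAt)
    (fun s hs => (hf s (Ico_subset_Icc_self hs)).hasDerivWithinAt)
    (by simp)
    (fun t => by
      have := (((hasDerivAt_id t).sub_const a).const_mul ρ).const_sub (f a)
      simpa using this)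
    (fun t ht hft => by
      apply h t (Ico_subset_Icc_self ht)
      rw [hft]
      have : 0 ≤ ρ * (t - a) := mul_nonneg hρ (by linarith [ht.1])
      linarith)
  simpa using h1 (right_mem_Icc.2 hab)

/-- monotonicity from a nonnegative derivative on a half line -/
theorem mono_of_deriv {f f' : ℝ → ℝ} {T : ℝ} (hf : ∀ t ≥ T, HasDerivAt f (f' t) t)
    (h : ∀ t ≥ T, 0 ≤ f' t) : ∀ x y, T ≤ x → x ≤ y → f x ≤ f y := by
  intro x y hx hxy
  have h1 := image_le_of_deriv_right_le_deriv_boundary (f := fun t => - f t) (f' := fun t => - f' t)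
    (a := x) (b := y) (B := fun _ => - f x) (B' := fun _ => 0)
    (fun s hs => ((hf s (hx.trans hs.1)).neg).continuousAt.continuousWithinAt)
    (fun s hs => ((hf s (hx.trans hs.1)).neg).hasDerivWithinAt)
    le_rfl continuousOn_const (fun s _ => hasDerivWithinAt_const _ _ _)
    (fun s hs => by simpa using h s (hx.trans hs.1))
  have := h1 (right_mem_Icc.2 hxy)
  simp only [neg_le_neg_iff] at this
  exact this

theorem anti_of_deriv {f f' : ℝ → ℝ} {T : ℝ} (hf : ∀ t ≥ T, HasDerivAt f (f' t) t)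
    (h : ∀ t ≥ T, f' t ≤ 0) : ∀ x y, T ≤ x → x ≤ y → f y ≤ f x := by
  intro x y hx hxy
  have := mono_of_deriv (f := fun t => - f t) (f' := fun t => - f' t) (T := T)
    (fun t ht => (hf t ht).neg) (fun t ht => by simpa using h t ht) x y hx hxy
  simpa using this

theorem mono_of_deriv_Icc {f f' : ℝ → ℝ} {a b : ℝ} (hf : ∀ t ∈ Icc a b, HasDerivAt f (f' t) t)
    (h : ∀ t ∈ Icc a b, 0 ≤ f' t) : ∀ x y, a ≤ x → x ≤ y → y ≤ b → f x ≤ f y := by
  intro x y hx hxy hy
  have h1 := image_le_of_deriv_right_le_deriv_boundary (f := fun t => - f t) (f' := fun t => - f' t)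
    (a := x) (b := y) (B := fun _ => - f x) (B' := fun _ => 0)
    (fun s hs => ((hf s ⟨hx.trans hs.1, hs.2.trans hy⟩).neg).continuousAt.continuousWithinAt)
    (fun s hs => ((hf s ⟨hx.trans hs.1, hs.2.le.trans hy⟩).neg).hasDerivWithinAt)
    le_rfl continuousOn_const (fun s _ => hasDerivWithinAt_const _ _ _)
    (fun s hs => by simpa using h s ⟨hx.trans hs.1, hs.2.le.trans hy⟩)
  have := h1 (right_mem_Icc.2 hxy)
  simp only [neg_le_neg_iff] at this
  exact this

end Pool.Agent.Helper22.SAi
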