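import Pool.Agent.Helper22.SAi.BM

/-!
Chaining: dyadic increments control the oscillation; Borel-Cantelli.
-/

namespace Pool.Agent.Helper22.SAi

open Filter Topology Set MeasureTheory ProbabilityTheory

theorem chain_dyadic {f : ℝ → ℝ} {g h x ρ : ℝ} (hρ0 : 0 ≤ ρ) (hx : 0 ≤ x)
    (H : ∀ j l : ℕ, l < 2 ^ j →
      |f (g + ((l : ℝ) + 1) * h / 2 ^ j) - f (g + (l : ℝ) * h / 2 ^ j)| ≤ x * ρ ^ j) :
    ∀ n l : ℕ, l ≤ 2 ^ n →
      |f (g + (l : ℝ) * h / 2 ^ n) - f g| ≤ x * ∑ j ∈ Finset.range (n + 1), ρ ^ j := by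
  intro n
  induction n with
  | zero =>
    intro l hl
    simp only [pow_zero] at hl
    simp only [zero_add, Finset.range_one, Finset.sum_singleton, pow_zero, mul_one, div_one]
    rcases Nat.le_one_iff_eq_zero_or_eq_one.1 hl with rfl | rfl
    · simp [hx]
    · have := H 0 0 (by norm_num)
      simpa using this
  | succ n ih =>
    intro l hl
    rw [Finset.sum_range_succ, mul_add]
    rcases Nat.even_or_odd' l with ⟨k, rfl | rfl⟩
    · have h1 := ih k (by rw [pow_succ] at hl; omega)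
      have e : g + ((2 * k : ℕ) : ℝ) * h / 2 ^ (n + 1) = g + (k : ℝ) * h / 2 ^ n := by
        rw [pow_succ]; push_cast; field_simp
      rw [e]
      have : 0 ≤ x * ρ ^ (n + 1) := by positivity
      linarith
    · have hk : k < 2 ^ n := by rw [pow_succ] at hl; omega
      have h1 := ih k hk.le
      have h2 := H (n + 1) (2 * k) (by rw [pow_succ]; omega)
      have e : g + ((2 * k : ℕ) : ℝ) * h / 2 ^ (n + 1) = g + (k : ℝ) * h / 2 ^ n := by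
        rw [pow_succ]; push_cast; field_simp
      rw [e] at h2
      have e2 : ((2 * k : ℕ) : ℝ) + 1 = ((2 * k + 1 : ℕ) : ℝ) := by push_cast; ring
      rw [e2] at h2
      calc |f (g + ((2 * k + 1 : ℕ) : ℝ) * h / 2 ^ (n + 1)) - f g|
          = |(f (g + (k : ℝ) * h / 2 ^ n) - f g) +
            (f (g + ((2 * k + 1 : ℕ) : ℝ) * h / 2 ^ (n + 1)) - f (g + (k : ℝ) * h / 2 ^ n))| := by
            congr 1; ring
        _ ≤ _ := (abs_add_le _ _).trans (add_le_add h1 h2)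

theorem chain {f : ℝ → ℝ} (hf : Continuous f) {g h x ρ : ℝ} (hh : 0 < h) (hρ0 : 0 ≤ ρ)
    (hρ1 : ρ < 1) (hx : 0 ≤ x)
    (H : ∀ j l : ℕ, l < 2 ^ j →
      |f (g + ((l : ℝ) + 1) * h / 2 ^ j) - f (g + (l : ℝ) * h / 2 ^ j)| ≤ x * ρ ^ j) :
    ∀ s ∈ Icc g (g + h), |f s - f g| ≤ x * (1 - ρ)⁻¹ := by
  intro s hs
  set y := (s - g) / h with hy
  have hy0 : 0 ≤ y := div_nonneg (by linarith [hs.1]) hh.le
  have hy1 : y ≤ 1 := by
    rw [hy, div_le_one hh]; linarith [hs.2]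
  have hsy : s = g + y * h := by
    rw [hy]; field_simp; ring
  have h1 : Tendsto (fun n : ℕ => ((⌊y * (2:ℝ) ^ n⌋₊ : ℕ) : ℝ) / (2:ℝ) ^ n) atTop (𝓝 y) :=
    (tendsto_nat_floor_mul_div_atTop hy0).comp (tendsto_pow_atTop_atTop_of_one_lt (by norm_num))
  have h2 : Tendsto (fun n : ℕ => g + ((⌊y * (2:ℝ) ^ n⌋₊ : ℕ) : ℝ) * h / (2:ℝ) ^ n) atTop (𝓝 s) := by
    rw [hsy]
    have := (h1.mul_const h).const_add g
    refine this.congr fun n => ?_
    ring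
  have h3 := ((hf.tendsto s).comp h2).sub_const (f g) |>.abs
  refine le_of_tendsto h3 (Eventually.of_forall fun n => ?_)
  simp only [Function.comp_def]
  refine (chain_dyadic hρ0 hx H n _ ?_).trans ?_
  · have : ⌊y * (2:ℝ) ^ n⌋₊ ≤ ⌊((2 ^ n : ℕ) : ℝ)⌋₊ := by
      apply Nat.floor_le_floor
      push_cast
      have : (0:ℝ) ≤ 2 ^ n := by positivity
      nlinarith
    rwa [Nat.floor_natCast] at this
  · apply mul_le_mul_of_nonneg_left _ hx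
    rw [← tsum_geometric_of_lt_one hρ0 hρ1]
    exact (summable_geometric_of_lt_one hρ0 hρ1).sum_le_tsum _ (fun i _ => by positivity)

/-- the ratio `2^(-1/4)` -/
noncomputable def rho : ℝ := (2:ℝ) ^ (-(1/4) : ℝ)

theorem rho_pos : 0 < rho := by unfold rho; positivity

theorem rho_lt_one : rho < 1 := by
  unfold rho
  exact Real.rpow_lt_one_of_one_lt_of_neg (by norm_num) (by norm_num)

/-- good behaviour at scale `N` -/
def Good (f : ℝ → ℝ) (N : ℕ) : Prop := ∀ i < 5 * N ^ 2, ∀ j l : ℕ, l < 2 ^ j →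
  |f (((N:ℝ) ^ 2 + (i:ℝ) / N) + ((l : ℝ) + 1) * (1 / N) / 2 ^ j)
    - f (((N:ℝ) ^ 2 + (i:ℝ) / N) + (l : ℝ) * (1 / N) / 2 ^ j)| ≤ ((N : ℝ) * 2 ^ j) ^ (-(1/4) : ℝ)

theorem thr_eq {N : ℕ} (hN : 1 ≤ N) (j : ℕ) : ((N : ℝ) * 2 ^ j) ^ (-(1/4) : ℝ)
    = (N : ℝ) ^ (-(1/4) : ℝ) * rho ^ j := by
  have hN0 : (0:ℝ) ≤ N := by positivity
  rw [Real.mul_rpow hN0 (by positivity)]
  congr 1
  unfold rho
  rw [← Real.rpow_natCast, ← Real.rpow_natCast, ← Real.rpow_mul (by norm_num),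
    ← Real.rpow_mul (by norm_num)]
  congr 1
  ring

theorem Good.osc {f : ℝ → ℝ} (hf : Continuous f) {N : ℕ} (hN : 1 ≤ N) (hG : Good f N) {t s : ℝ}
    (ht1 : (N:ℝ) ^ 2 ≤ t) (ht2 : t < ((N:ℝ) + 1) ^ 2) (hs : s ∈ Icc t (t + (Real.sqrt t)⁻¹)) :
    |f s - f t| ≤ 3 * ((N : ℝ) ^ (-(1/4) : ℝ) * (1 - rho)⁻¹) := by
  have hN1 : (1:ℝ) ≤ N := by exact_mod_cast hN
  have hN0 : (0:ℝ) < N := by linarith
  set x := (N : ℝ) ^ (-(1/4) : ℝ) with hx
  have hx0 : 0 ≤ x := by positivity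
  set K := x * (1 - rho)⁻¹ with hK
  have hK0 : 0 ≤ K := mul_nonneg hx0 (inv_nonneg.2 (by linarith [rho_lt_one]))
  -- oscillation on each grid interval
  have hcell : ∀ i < 5 * N ^ 2, ∀ u ∈ Icc ((N:ℝ) ^ 2 + (i:ℝ) / N) ((N:ℝ) ^ 2 + (i:ℝ) / N + 1 / N),
      |f u - f ((N:ℝ) ^ 2 + (i:ℝ) / N)| ≤ K := by
    intro i hi u hu
    exact chain hf (by positivity) rho_pos.le rho_lt_one hx0
      (fun j l hl => (hG i hi j l hl).trans (le_of_eq (thr_eq hN j))) u hu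
  set i := ⌊(t - (N:ℝ) ^ 2) * N⌋₊ with hi
  have hb0 : 0 ≤ (t - (N:ℝ) ^ 2) * N := mul_nonneg (by linarith) hN0.le
  have hi1 : (i : ℝ) ≤ (t - (N:ℝ) ^ 2) * N := Nat.floor_le hb0
  have hi2 : (t - (N:ℝ) ^ 2) * N < i + 1 := Nat.lt_floor_add_one _
  have hi3 : (i : ℝ) < (2 * N + 1) * N := by
    refine lt_of_le_of_lt hi1 ?_
    apply mul_lt_mul_of_pos_right _ hN0
    nlinarith
  have hi4 : i + 1 < 5 * N ^ 2 := by
    have : (i : ℝ) + 1 < 5 * (N:ℝ) ^ 2 := by nlinarith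
    exact_mod_cast this
  set g := (N:ℝ) ^ 2 + (i:ℝ) / N with hg
  have hgt : g ≤ t := by
    rw [hg]
    have : (i:ℝ) / N ≤ t - (N:ℝ) ^ 2 := by rw [div_le_iff₀ hN0]; exact hi1
    linarith
  have htg : t ≤ g + 1 / N := by
    rw [hg]
    have : t - (N:ℝ) ^ 2 ≤ ((i:ℝ) + 1) / N := by rw [le_div_iff₀ hN0]; exact hi2.le
    have e : ((i:ℝ) + 1) / N = (i:ℝ) / N + 1 / N := by ring
    linarith
  have hsg : s ≤ g + 1 / N + 1 / N := by
    have h1 : (Real.sqrt t)⁻¹ ≤ 1 / N := by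
      rw [one_div]
      apply inv_anti₀ hN0
      exact Real.le_sqrt_of_sq_le ht1
    linarith [hs.2]
  have hft := hcell i (by omega) t ⟨hgt, htg⟩
  have hfs : |f s - f g| ≤ 2 * K := by
    by_cases hcase : s ≤ g + 1 / N
    · have := hcell i (by omega) s ⟨hgt.trans hs.1, hcase⟩
      linarith
    · push Not at hcase
      have e : (N:ℝ) ^ 2 + ((i + 1 : ℕ):ℝ) / N = g + 1 / N := by rw [hg]; push_cast; ring
      have h1 := hcell (i + 1) hi4 s (by rw [e]; exact ⟨hcase.le, hsg⟩)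
      rw [e] at h1
      have hpos1 : 0 < 1 / (N:ℝ) := by positivity
      have h2 := hcell i (by omega) (g + 1 / N) ⟨by linarith, le_rfl⟩
      calc |f s - f g| = |(f s - f (g + 1 / N)) + (f (g + 1 / N) - f g)| := by congr 1; ring
        _ ≤ K + K := (abs_add_le _ _).trans (add_le_add h1 h2)
        _ = 2 * K := by ring
  calc |f s - f t| = |(f s - f g) - (f t - f g)| := by congr 1; ring
    _ ≤ 2 * K + K := (abs_sub _ _).trans (add_le_add hfs hft)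
    _ = 3 * K := by ring

theorem pathReg_of_good {f : ℝ → ℝ} (hf : Continuous f) {N0 : ℕ} (hN0 : 1 ≤ N0)
    (hG : ∀ N ≥ N0, Good f N) : ∃ C, PathReg f C (1/8) := by
  obtain ⟨b0, hb0⟩ := (isCompact_Icc (a := (1:ℝ)) (b := (N0:ℝ) ^ 2 + 1)).exists_bound_of_continuousOn
    hf.continuousOn
  set b := |b0| with hb
  have hbn : 0 ≤ b := abs_nonneg _
  have hN01 : (1:ℝ) ≤ N0 := by exact_mod_cast hN0
  have hrho : 0 ≤ (1 - rho)⁻¹ := inv_nonneg.2 (by linarith [rho_lt_one])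
  set C1 := 2 * b * ((N0:ℝ) ^ 2) ^ (1/8 : ℝ) with hC1
  set C2 := 3 * ((2:ℝ) ^ (1/4 : ℝ) * (1 - rho)⁻¹) with hC2
  have hC1n : 0 ≤ C1 := by positivity
  have hC2n : 0 ≤ C2 := by positivity
  refine ⟨C1 + C2, hf, by norm_num, by norm_num, by positivity, ?_⟩
  intro t ht s hs
  have ht0 : 0 < t := by linarith
  have htp : 0 < t ^ (-(1/8) : ℝ) := by positivity
  have hsq1 : 1 ≤ Real.sqrt t := Real.one_le_sqrt.2 ht
  by_cases hcase : t < (N0:ℝ) ^ 2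
  · have hs2 : s ≤ (N0:ℝ) ^ 2 + 1 := by
      have h1 : (Real.sqrt t)⁻¹ ≤ 1 := inv_le_one_of_one_le₀ hsq1
      linarith [hs.2]
    have h1 := hb0 t ⟨ht, by linarith⟩
    have h2 := hb0 s ⟨ht.trans hs.1, hs2⟩
    rw [Real.norm_eq_abs] at h1 h2
    have h3 : |f s - f t| ≤ 2 * b := by
      have := le_abs_self b0
      exact (abs_sub _ _).trans (by linarith)
    have h4 : 1 ≤ ((N0:ℝ) ^ 2) ^ (1/8 : ℝ) * t ^ (-(1/8) : ℝ) := by
      rw [Real.rpow_neg ht0.le, ← div_eq_mul_inv, one_le_div (by positivity)]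
      exact Real.rpow_le_rpow ht0.le hcase.le (by norm_num)
    calc |f s - f t| ≤ 2 * b * 1 := by linarith
      _ ≤ 2 * b * (((N0:ℝ) ^ 2) ^ (1/8 : ℝ) * t ^ (-(1/8) : ℝ)) := by gcongr
      _ = C1 * t ^ (-(1/8) : ℝ) := by rw [hC1]; ring
      _ ≤ (C1 + C2) * t ^ (-(1/8) : ℝ) := by gcongr; linarith
  · push Not at hcase
    set N := ⌊Real.sqrt t⌋₊ with hN
    have hNle : (N:ℝ) ≤ Real.sqrt t := Nat.floor_le (Real.sqrt_nonneg _)
    have hNlt : Real.sqrt t < N + 1 := Nat.lt_floor_add_one _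
    have hst : Real.sqrt t ^ 2 = t := Real.sq_sqrt ht0.le
    have hNN0 : N0 ≤ N := by
      apply Nat.le_floor
      exact Real.le_sqrt_of_sq_le hcase
    have hN1 : (1:ℝ) ≤ N := hN01.trans (by exact_mod_cast hNN0)
    have h1 := (hG N hNN0).osc hf (hN0.trans hNN0) (t := t) (s := s)
      (by nlinarith [Real.sqrt_nonneg t])
      (by nlinarith [Real.sqrt_nonneg t]) hs
    have h2 : (N : ℝ) ^ (-(1/4) : ℝ) ≤ (2:ℝ) ^ (1/4 : ℝ) * t ^ (-(1/8) : ℝ) := by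
      have h3 : Real.sqrt t / 2 ≤ N := by linarith
      have h4 : (N : ℝ) ^ (-(1/4) : ℝ) ≤ (Real.sqrt t / 2) ^ (-(1/4) : ℝ) :=
        Real.rpow_le_rpow_of_nonpos (by positivity) h3 (by norm_num)
      refine h4.trans (le_of_eq ?_)
      rw [Real.div_rpow (Real.sqrt_nonneg _) (by norm_num), Real.sqrt_eq_rpow,
        ← Real.rpow_mul ht0.le, Real.rpow_neg (by norm_num : (0:ℝ) ≤ 2) (1/4), div_inv_eq_mul]
      rw [mul_comm]
      congr 1
      congr 1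
      norm_num
    calc |f s - f t| ≤ 3 * ((N : ℝ) ^ (-(1/4) : ℝ) * (1 - rho)⁻¹) := h1
      _ ≤ 3 * (((2:ℝ) ^ (1/4 : ℝ) * t ^ (-(1/8) : ℝ)) * (1 - rho)⁻¹) := by gcongr
      _ = C2 * t ^ (-(1/8) : ℝ) := by rw [hC2]; ring
      _ ≤ (C1 + C2) * t ^ (-(1/8) : ℝ) := by gcongr; linarith

end Pool.Agent.Helper22.SAi
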