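import Pool.Agent.Helper22.SAi.Basic

/-!
The stochastic Airy equation, pathwise.
-/

namespace Pool.Agent.Helper22.SAi

open Filter Topology Set MeasureTheory

/-- The kernel `U_lam(t,u) = (t^2-u^2)/2 + B(t) - B(u) + lam (t-u)`. -/
noncomputable def kernelU (B : ℝ → ℝ) (lam : ℂ) (t u : ℝ) : ℂ :=
  (((t ^ 2 - u ^ 2) / 2 + B t - B u : ℝ) : ℂ) + lam * ((t - u : ℝ) : ℂ)

/-- A pair `(φ, Φ)` (with `Φ` continuous) is a solution of the stochastic Airy equation with
driving path `B` and spectral parameter `lam`. -/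
def IsSolution (B : ℝ → ℝ) (lam : ℂ) (φ Φ : ℝ → ℂ) : Prop :=
  Continuous Φ ∧ ∃ (T : ℝ) (c₁ c₂ : ℂ), ∀ t : ℝ,
    Φ t = c₂ + (∫ u in T..t, kernelU B lam t u * Φ u) + c₁ * kernelU B lam t T ∧
    φ t = c₁ + ∫ u in T..t, Φ u

/-- The differential form of the equation. -/
structure DSol (B : ℝ → ℝ) (lam : ℂ) (φ Φ : ℝ → ℂ) : Prop where
  d1 : ∀ t : ℝ, HasDerivAt φ (Φ t) t
  d2 : ∀ t : ℝ, HasDerivAt (fun s => Φ s - (B s : ℂ) * φ s)
    (((t : ℂ) + lam) * φ t - (B t : ℂ) * Φ t) t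

theorem IsSolution.dsol {B : ℝ → ℝ} (hB : Continuous B) {lam : ℂ} {φ Φ : ℝ → ℂ}
    (h : IsSolution B lam φ Φ) : DSol B lam φ Φ := by
  obtain ⟨hc, T, c₁, c₂, hsol⟩ := h
  have hφ : φ = fun t => c₁ + ∫ u in T..t, Φ u := by
    funext t; exact (hsol t).2
  have hd1 : ∀ t, HasDerivAt φ (Φ t) t := by
    intro t
    rw [hφ]
    exact (intervalIntegral.integral_hasDerivAt_right (hc.intervalIntegrable _ _)
      (hc.stronglyMeasurableAtFilter _ _) hc.continuousAt).const_add _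
  refine ⟨hd1, ?_⟩
  set q : ℝ → ℂ := fun u => (((u ^ 2) / 2 + B u : ℝ) : ℂ) + lam * (u : ℂ) with hq
  have hqc : Continuous q := by
    rw [hq]; fun_prop
  have hker : ∀ t u, kernelU B lam t u = q t - q u := by
    intro t u
    simp only [kernelU, hq]
    push_cast
    ring
  have hΦ : ∀ t : ℝ, Φ t - (B t : ℂ) * φ t = c₂ - c₁ * q T + (((t:ℂ) ^ 2) / 2 + lam * (t : ℂ)) * φ t
      - ∫ u in T..t, q u * Φ u := by
    intro t
    have e1 : (∫ u in T..t, kernelU B lam t u * Φ u)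
        = q t * (∫ u in T..t, Φ u) - ∫ u in T..t, q u * Φ u := by
      have : ∀ u, kernelU B lam t u * Φ u = q t * Φ u - q u * Φ u := by
        intro u; rw [hker]; ring
      simp_rw [this]
      rw [intervalIntegral.integral_sub, intervalIntegral.integral_const_mul]
      · exact ((hc.const_mul (q t))).intervalIntegrable _ _
      · exact ((hqc.mul hc)).intervalIntegrable _ _
    have e2 := (hsol t).1
    have e3 := (hsol t).2
    have e4 : (∫ u in T..t, Φ u) = φ t - c₁ := by rw [e3]; ring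
    rw [e1, e4, hker] at e2
    rw [e2]
    have : q t = (((t ^ 2) / 2 + B t : ℝ) : ℂ) + lam * (t : ℂ) := rfl
    rw [this]
    push_cast
    ring
  intro t
  have hfun : (fun s => Φ s - (B s : ℂ) * φ s) = fun t : ℝ => c₂ - c₁ * q T
      + (((t:ℂ) ^ 2) / 2 + lam * (t : ℂ)) * φ t - ∫ u in T..t, q u * Φ u := by
    funext t; exact hΦ t
  rw [hfun]
  have hqΦ : Continuous fun u => q u * Φ u := hqc.mul hc
  have d3 : HasDerivAt (fun t => ∫ u in T..t, q u * Φ u) (q t * Φ t) t :=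
    intervalIntegral.integral_hasDerivAt_right (hqΦ.intervalIntegrable _ _)
      (hqΦ.stronglyMeasurableAtFilter _ _) hqΦ.continuousAt
  have d4 : HasDerivAt (fun t : ℝ => (((t:ℂ) ^ 2) / 2 + lam * (t : ℂ))) ((t : ℂ) + lam) t := by
    have h1 : HasDerivAt (fun t : ℝ => (t : ℂ)) 1 t := Complex.ofRealCLM.hasDerivAt
    have h2 := ((h1.pow 2).div_const 2).add (h1.const_mul lam)
    refine h2.congr_deriv ?_
    simp
    try ring
  have d5 := ((d4.mul (hd1 t)).const_add (c₂ - c₁ * q T)).sub d3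
  refine d5.congr_deriv ?_
  have : q t = (((t ^ 2) / 2 + B t : ℝ) : ℂ) + lam * (t : ℂ) := rfl
  rw [this]
  push_cast
  ring

end Pool.Agent.Helper22.SAi
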