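import Pool.Agent.Helper22.SAi.Horizon

/-!
Holomorphy in the spectral parameter of any family normalised at `+∞`.
-/

namespace Pool.Agent.Helper22.SAi

open Filter Topology Set MeasureTheory

section

variable {B χ χ1 : ℝ → ℝ} {M δ T : ℝ} {lam : ℂ} {φ Φ φ' Φ' : ℝ → ℂ}

theorem DSol.sub (h : DSol B lam φ Φ) (h' : DSol B lam φ' Φ') :
    DSol B lam (fun t => φ t - φ' t) (fun t => Φ t - Φ' t) := by
  refine ⟨fun t => (h.d1 t).sub (h'.d1 t), fun t => ?_⟩
  have h1 := (h.d2 t).sub (h'.d2 t)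
  have e : (fun s => (Φ s - Φ' s) - (B s : ℂ) * (φ s - φ' s))
      = (fun s => Φ s - (B s : ℂ) * φ s) - (fun s => Φ' s - (B s : ℂ) * φ' s) := by
    funext s
    simp only [Pi.sub_apply]
    ring
  rw [e]
  refine h1.congr_deriv ?_
  ring

theorem SF_sub (t : ℝ) : SF χ lam (fun t => φ t - φ' t) t = SF χ lam φ t - SF χ lam φ' t := by
  simp only [SF]
  ring

theorem fW_sub (t : ℝ) : fW χ χ1 lam (fun t => φ t - φ' t) (fun t => Φ t - Φ' t) t
    = fW χ χ1 lam φ Φ t - fW χ χ1 lam φ' Φ' t := by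
  simp only [fW, Wr]
  ring

/-- data at time `n` with `S = 1`, `S' = 0` -/
theorem exists_approx (hb : Base B χ χ1 M δ T) (lam : ℂ) {n : ℝ} (hn : T ≤ n) :
    ∃ φ Φ : ℝ → ℂ, DSol B lam φ Φ ∧
      φ n = (χ n : ℂ) * Complex.exp (-(lam * (Real.sqrt n : ℂ))) ∧
      Φ n = ((χ1 n : ℂ) - (χ n : ℂ) * (lam / (2 * (Real.sqrt n : ℂ))))
        * Complex.exp (-(lam * (Real.sqrt n : ℂ))) ∧
      SF χ lam φ n = 1 ∧ fW χ χ1 lam φ Φ n = 0 := by
  obtain ⟨φ, Φ, hd, h1, h2⟩ := exists_DSol hb.cont lam n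
    ((χ n : ℂ) * Complex.exp (-(lam * (Real.sqrt n : ℂ))))
    (((χ1 n : ℂ) - (χ n : ℂ) * (lam / (2 * (Real.sqrt n : ℂ))))
        * Complex.exp (-(lam * (Real.sqrt n : ℂ))))
  have hx := hb.pos n hn
  have hxc : (χ n : ℂ) ≠ 0 := by exact_mod_cast hx.ne'
  refine ⟨φ, Φ, hd, h1, h2, ?_, ?_⟩
  · simp only [SF]
    rw [h1, mul_div_cancel_left₀ _ hxc, ← Complex.exp_add]
    simp
  · simp only [fW, Wr]
    rw [h1, h2]
    ring

/-- from `S`, `f` back to `φ`, `Φ` -/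
theorem back_bound (hb : Base B χ χ1 M δ T) {t : ℝ} (ht : T ≤ t) :
    ‖φ t‖ + ‖Φ t‖ ≤ Real.exp (‖lam‖ * Real.sqrt t) * ‖fW χ χ1 lam φ Φ t‖ / χ t
      + (1 + ‖lam‖ + |χ1 t| / χ t) * (χ t * (Real.exp (‖lam‖ * Real.sqrt t) * ‖SF χ lam φ t‖)) := by
  have hT1 := hb.T1
  have ht0 : 0 < t := by linarith
  have hs0 : 0 < Real.sqrt t := Real.sqrt_pos.2 ht0
  have hs1 : 1 ≤ Real.sqrt t := Real.one_le_sqrt.2 (by linarith)
  have hx := hb.pos t ht
  have hxc : (χ t : ℂ) ≠ 0 := by exact_mod_cast hx.ne'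
  have hsc : (Real.sqrt t : ℂ) ≠ 0 := by exact_mod_cast hs0.ne'
  set L := ‖lam‖ with hL
  have hre : |lam.re * Real.sqrt t| ≤ L * Real.sqrt t := by
    rw [abs_mul, abs_of_pos hs0]
    exact mul_le_mul_of_nonneg_right (Complex.abs_re_le_norm _) hs0.le
  have hre' : (lam * (Real.sqrt t : ℂ)).re = lam.re * Real.sqrt t := by simp
  have hφ : ‖φ t‖ ≤ χ t * (Real.exp (L * Real.sqrt t) * ‖SF χ lam φ t‖) := by
    have e : φ t = (χ t : ℂ) * (Complex.exp (-(lam * (Real.sqrt t : ℂ))) * SF χ lam φ t) := by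
      simp only [SF]
      rw [mul_comm (φ t / (χ t : ℂ)), ← mul_assoc (Complex.exp _) (Complex.exp _),
        ← Complex.exp_add]
      simp only [neg_add_cancel, Complex.exp_zero, one_mul]
      field_simp
    have e2 : ‖φ t‖ = χ t * (Real.exp (-(lam.re * Real.sqrt t)) * ‖SF χ lam φ t‖) := by
      conv_lhs => rw [e]
      rw [norm_mul, norm_mul, Complex.norm_exp, Complex.neg_re, hre', Complex.norm_real,
        Real.norm_eq_abs, abs_of_pos hx]
    rw [e2]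
    gcongr
    linarith [(abs_le.1 hre).1]
  have hΦ : ‖Φ t‖ ≤ Real.exp (L * Real.sqrt t) * ‖fW χ χ1 lam φ Φ t‖ / χ t
      + (L + |χ1 t| / χ t) * ‖φ t‖ := by
    have e : Φ t = Complex.exp (lam * (Real.sqrt t : ℂ)) * fW χ χ1 lam φ Φ t / (χ t : ℂ)
        - lam / (2 * (Real.sqrt t : ℂ)) * φ t + ((χ1 t / χ t : ℝ) : ℂ) * φ t := by
      simp only [fW, Wr]
      rw [← mul_assoc, ← Complex.exp_add]
      simp only [add_neg_cancel, Complex.exp_zero, one_mul]
      push_cast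
      field_simp
      ring
    have h1 : ‖Complex.exp (lam * (Real.sqrt t : ℂ)) * fW χ χ1 lam φ Φ t / (χ t : ℂ)‖
        ≤ Real.exp (L * Real.sqrt t) * ‖fW χ χ1 lam φ Φ t‖ / χ t := by
      rw [norm_div, norm_mul, Complex.norm_exp, hre', Complex.norm_real, Real.norm_eq_abs,
        abs_of_pos hx]
      gcongr
      exact Complex.re_le_norm lam
    have h2 : ‖lam / (2 * (Real.sqrt t : ℂ)) * φ t‖ ≤ L * ‖φ t‖ := by
      rw [norm_mul]
      apply mul_le_mul_of_nonneg_right _ (norm_nonneg _)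
      rw [norm_div, norm_mul, Complex.norm_real, Real.norm_eq_abs, abs_of_pos hs0]
      simp only [Complex.norm_ofNat]
      rw [div_le_iff₀ (by positivity)]
      nlinarith [norm_nonneg lam]
    have h3 : ‖((χ1 t / χ t : ℝ) : ℂ) * φ t‖ ≤ |χ1 t| / χ t * ‖φ t‖ := by
      rw [norm_mul, Complex.norm_real, Real.norm_eq_abs, abs_div, abs_of_pos hx]
    conv_lhs => rw [e]
    refine (norm_add_le _ _).trans ?_
    have h4 := norm_sub_le (Complex.exp (lam * (Real.sqrt t : ℂ)) * fW χ χ1 lam φ Φ t / (χ t : ℂ))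
      (lam / (2 * (Real.sqrt t : ℂ)) * φ t)
    nlinarith
  have hc : 0 ≤ 1 + L + |χ1 t| / χ t := by positivity
  have h5 := mul_le_mul_of_nonneg_left hφ hc
  nlinarith

theorem eM_mono {L L' M δ t : ℝ} (hL : 0 ≤ L) (hLL : L ≤ L') (hM : 0 ≤ M) (hδ : 0 < δ)
    (ht : 0 < t) : eM L M δ t ≤ eM L' M δ t := by
  have h1 := Real.rpow_nonneg ht.le (-(1/2) : ℝ)
  have h2 := Real.rpow_nonneg ht.le (-δ : ℝ)
  simp only [eM]
  gcongr

theorem kM_mono {L L' M δ t : ℝ} (hL : 0 ≤ L) (hLL : L ≤ L') (hM : 0 ≤ M)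
    (ht : 0 < t) : kM L M δ t ≤ kM L' M δ t := by
  have h1 := Real.rpow_nonneg ht.le (-(3/2) : ℝ)
  have h2 := Real.rpow_nonneg ht.le (-δ - 1 : ℝ)
  simp only [kM]
  gcongr

theorem tendsto_kM {L M δ : ℝ} (hδ : 0 < δ) : Tendsto (kM L M δ) atTop (𝓝 0) := by
  have h1 := (tendsto_rpow_neg_atTop (y := 3/2) (by norm_num)).const_mul (L ^ 2 / 4)
  have h2 := (tendsto_rpow_neg_atTop (y := δ + 1) (by linarith)).const_mul (L * (M + 1))
  have := h1.add h2
  simp only [mul_zero, add_zero] at this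
  refine this.congr fun t => ?_
  simp only [kM]
  congr 3
  ring

/-- the error at scale `n` -/
noncomputable def epsM (L M δ : ℝ) (n : ℝ) : ℝ :=
  (Real.exp (eM L M δ n) - 1) + kM L M δ n * Real.exp (eM L M δ n)

theorem tendsto_epsM {L M δ : ℝ} (hδ : 0 < δ) : Tendsto (epsM L M δ) atTop (𝓝 0) := by
  have h1 := (Real.continuous_exp.tendsto 0).comp (tendsto_eM (L := L) (M := M) hδ)
  rw [Real.exp_zero] at h1
  have h2 := (h1.sub_const 1).add ((tendsto_kM (L := L) (M := M) hδ).mul h1)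
  have h3 : Tendsto (fun x => Real.exp (eM L M δ x) - 1 + kM L M δ x * Real.exp (eM L M δ x))
      atTop (𝓝 0) := by
    simpa [Function.comp_def] using h2
  exact h3

/-- closeness of the approximation at time `T'`, for a solution with `S → 1`. -/
theorem approx_close (hb : Base B χ χ1 M δ T) {Λ T' n : ℝ} (hlam : ‖lam‖ ≤ Λ)
    (hT : T ≤ T') (hL2 : 2 * Λ ≤ T') (hn : T' ≤ n) (hd : DSol B lam φ Φ) (hd' : DSol B lam φ' Φ')
    (h1 : ‖SF χ lam φ n - SF χ lam φ' n‖ ≤ Real.exp (eM ‖lam‖ M δ n) - 1)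
    (h2 : ‖fW χ χ1 lam φ Φ n - fW χ χ1 lam φ' Φ' n‖ ≤ GW χ lam n *
      (kM ‖lam‖ M δ n * Real.exp (eM ‖lam‖ M δ n))) :
    ‖SF χ lam φ T' - SF χ lam φ' T'‖ ≤ epsM Λ M δ n * Real.exp (eM Λ M δ T') ∧
    ‖fW χ χ1 lam φ Φ T' - fW χ χ1 lam φ' Φ' T'‖ ≤ GW χ lam T' *
      (epsM Λ M δ n * (1 + kM Λ M δ T' * Real.exp (eM Λ M δ T'))) := by
  have hT1 := hb.T1
  have hδ := hb.dpos
  have hM := hb.Mnn
  have hL0 := norm_nonneg lam
  have hn0 : 0 < n := by linarith
  have hT'0 : 0 < T' := by linarith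
  have hexp : ∀ s, 0 < s → Real.exp (eM ‖lam‖ M δ s) ≤ Real.exp (eM Λ M δ s) := fun s hs =>
    Real.exp_le_exp.2 (eM_mono hL0 hlam hM hδ hs)
  have hk0 : ∀ s, 0 < s → 0 ≤ kM ‖lam‖ M δ s := fun s hs => kM_nonneg hL0 hM hs
  have hkΛ : ∀ s, 0 < s → kM ‖lam‖ M δ s ≤ kM Λ M δ s := fun s hs => kM_mono hL0 hlam hM hs
  have hkE : ∀ s, 0 < s → kM ‖lam‖ M δ s * Real.exp (eM ‖lam‖ M δ s)
      ≤ kM Λ M δ s * Real.exp (eM Λ M δ s) := fun s hs =>
    mul_le_mul (hkΛ s hs) (hexp s hs) (Real.exp_pos _).le ((hk0 s hs).trans (hkΛ s hs))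
  have hG := (GW_pos (lam := lam) hb (hT.trans hn)).le
  have hG' := (GW_pos (lam := lam) hb hT).le
  have hkΛn : 0 ≤ kM Λ M δ n * Real.exp (eM Λ M δ n) :=
    mul_nonneg ((hk0 n hn0).trans (hkΛ n hn0)) (Real.exp_pos _).le
  have hΛ0 : 0 ≤ Λ := hL0.trans hlam
  have hE1 : 1 ≤ Real.exp (eM Λ M δ n) := Real.one_le_exp (eM_nonneg hΛ0 hM hδ hn0)
  obtain ⟨r1, r2, -⟩ := S_horizon hb (hd.sub hd') hT (by linarith) hn
    (a0 := Real.exp (eM Λ M δ n) - 1) (b0 := kM Λ M δ n * Real.exp (eM Λ M δ n)) hkΛn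
    (by
      rw [SF_sub]
      linarith [hexp n hn0])
    (by
      rw [fW_sub]
      refine h2.trans ?_
      rw [mul_comm]
      exact mul_le_mul_of_nonneg_right (hkE n hn0) hG) T' (left_mem_Icc.2 hn)
  rw [SF_sub] at r1
  rw [fW_sub] at r2
  have heps : 0 ≤ epsM Λ M δ n := by
    simp only [epsM]; linarith
  constructor
  · refine r1.trans ?_
    exact mul_le_mul_of_nonneg_left (hexp T' hT'0) heps
  · refine r2.trans ?_
    apply mul_le_mul_of_nonneg_left _ hG'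
    have h3 : kM Λ M δ n * Real.exp (eM Λ M δ n) ≤ epsM Λ M δ n := by
      simp only [epsM]; linarith
    have h4 : epsM Λ M δ n * (kM ‖lam‖ M δ T' * Real.exp (eM ‖lam‖ M δ T'))
        ≤ epsM Λ M δ n * (kM Λ M δ T' * Real.exp (eM Λ M δ T')) :=
      mul_le_mul_of_nonneg_left (hkE T' hT'0) heps
    have h5 : (Real.exp (eM Λ M δ n) - 1 + kM Λ M δ n * Real.exp (eM Λ M δ n))
        = epsM Λ M δ n := rfl
    rw [h5]
    linarith

theorem entire_of_normalised (hb : Base B χ χ1 M δ T) {φ Φ : ℂ → ℝ → ℂ}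
    (hd : ∀ lam, DSol B lam (φ lam) (Φ lam))
    (hl : ∀ lam, Tendsto (SF χ lam (φ lam)) atTop (𝓝 1)) (t0 : ℝ) :
    Differentiable ℂ fun lam => φ lam t0 := by
  have hT1 := hb.T1
  have hδ := hb.dpos
  have hM := hb.Mnn
  -- the approximants
  have hex : ∀ (n : ℕ) (lam : ℂ), ∃ p : (ℝ → ℂ) × (ℝ → ℂ), T ≤ (n : ℝ) →
      DSol B lam p.1 p.2 ∧
      p.1 n = (χ n : ℂ) * Complex.exp (-(lam * (Real.sqrt n : ℂ))) ∧
      p.2 n = ((χ1 n : ℂ) - (χ n : ℂ) * (lam / (2 * (Real.sqrt n : ℂ))))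
        * Complex.exp (-(lam * (Real.sqrt n : ℂ))) ∧
      SF χ lam p.1 n = 1 ∧ fW χ χ1 lam p.1 p.2 n = 0 := by
    intro n lam
    by_cases hn : T ≤ (n : ℝ)
    · obtain ⟨φ, Φ, h⟩ := exists_approx hb lam hn
      exact ⟨(φ, Φ), fun _ => h⟩
    · exact ⟨(0, 0), fun h => absurd h hn⟩
  choose p hp using hex
  -- each approximant is entire
  have hent : ∀ n : ℕ, T ≤ (n : ℝ) → t0 ≤ (n : ℝ) → Differentiable ℂ fun lam => (p n lam).1 t0 := by
    intro n hn hn0
    refine flow_differentiable hb.cont hn0 (φ := fun lam => (p n lam).1)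
      (Φ := fun lam => (p n lam).2) (fun lam => (hp n lam hn).1) ?_ ?_
    · have e : (fun lam => (p n lam).1 (n : ℝ)) = fun lam : ℂ =>
          (χ n : ℂ) * Complex.exp (-(lam * (Real.sqrt n : ℂ))) := by
        funext lam; exact (hp n lam hn).2.1
      rw [e]
      fun_prop
    · have e : (fun lam => (p n lam).2 (n : ℝ)) = fun lam : ℂ =>
          ((χ1 n : ℂ) - (χ n : ℂ) * (lam / (2 * (Real.sqrt n : ℂ))))
            * Complex.exp (-(lam * (Real.sqrt n : ℂ))) := by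
        funext lam; exact (hp n lam hn).2.2.1
      rw [e]
      fun_prop
  -- local uniform convergence
  have hball : ∀ Λ : ℝ, 0 < Λ → DifferentiableOn ℂ (fun lam => φ lam t0) (Metric.ball 0 Λ) := by
    intro Λ hΛ
    set T' := max T (max (2 * Λ) t0) with hT'
    have hTT' : T ≤ T' := le_max_left _ _
    have hL2 : 2 * Λ ≤ T' := (le_max_left _ _).trans (le_max_right _ _)
    have ht0T' : t0 ≤ T' := (le_max_right _ _).trans (le_max_right _ _)
    have hT'0 : 0 < T' := by linarith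
    have hx := hb.pos T' hTT'
    obtain ⟨K, hK0, hK⟩ := transfer hb.cont t0 T' ht0T'
    set Ce := Real.exp (Λ * Real.sqrt T') with hCe
    set C1 := Ce * (χ T' ^ 2 * Real.exp (2 * Λ * T') * (1 + kM Λ M δ T' * Real.exp (eM Λ M δ T')))
      / χ T' with hC1
    set C2 := (1 + Λ + |χ1 T'| / χ T') * (χ T' * (Ce * Real.exp (eM Λ M δ T'))) with hC2
    have hkT : 0 ≤ kM Λ M δ T' := kM_nonneg hΛ.le hM hT'0
    have hC1n : 0 ≤ C1 := by positivity
    have hC2n : 0 ≤ C2 := by positivity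
    have hclose : ∀ n : ℕ, T' ≤ (n : ℝ) → ∀ lam ∈ Metric.ball (0 : ℂ) Λ,
        ‖φ lam t0 - (p n lam).1 t0‖ ≤ Real.exp (K * (1 + Λ)) * ((C1 + C2) * epsM Λ M δ n) := by
      intro n hn lam hlam
      have hlamΛ : ‖lam‖ ≤ Λ := by
        rw [mem_ball_zero_iff] at hlam; exact hlam.le
      obtain ⟨q1, -, -, q4, q5⟩ := hp n lam (hTT'.trans hn)
      obtain ⟨s1, s2, s3⟩ := S_main hb (hd lam) (hl lam) hTT' (by linarith) (n : ℝ) hn
      obtain ⟨r1, r2⟩ := approx_close hb hlamΛ hTT' hL2 hn (hd lam) q1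
        (by rw [q4]; exact s3) (by rw [q5, sub_zero]; exact s2)
      have hsub := (hd lam).sub q1
      have hbb := back_bound (lam := lam) (φ := fun t => φ lam t - (p n lam).1 t)
        (Φ := fun t => Φ lam t - (p n lam).2 t) hb hTT'
      rw [SF_sub, fW_sub] at hbb
      have htr := hK lam _ _ hsub
      have hGle := GW_le (χ := χ) (lam := lam) (t := T') (by linarith)
      have heps : 0 ≤ epsM Λ M δ n := by
        have hn0 : (0:ℝ) < n := by linarith
        have h5 := kM_nonneg (δ := δ) hΛ.le hM hn0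
        have h6 : 1 ≤ Real.exp (eM Λ M δ n) := Real.one_le_exp (eM_nonneg hΛ.le hM hδ hn0)
        have h7 : 0 ≤ kM Λ M δ n * Real.exp (eM Λ M δ n) := mul_nonneg h5 (by linarith)
        simp only [epsM]
        linarith
      have hexpL : Real.exp (‖lam‖ * Real.sqrt T') ≤ Ce := by
        rw [hCe]; gcongr
      have hG2 : GW χ lam T' ≤ χ T' ^ 2 * Real.exp (2 * Λ * T') := by
        refine hGle.trans ?_
        gcongr
      have b1 : Real.exp (‖lam‖ * Real.sqrt T') *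
          ‖fW χ χ1 lam (φ lam) (Φ lam) T' - fW χ χ1 lam (p n lam).1 (p n lam).2 T'‖ / χ T'
          ≤ C1 * epsM Λ M δ n := by
        rw [hC1, div_mul_eq_mul_div]
        apply div_le_div_of_nonneg_right _ hx.le
        calc _ ≤ Ce * (GW χ lam T' * (epsM Λ M δ n * (1 + kM Λ M δ T' * Real.exp (eM Λ M δ T')))) :=
              mul_le_mul hexpL r2 (norm_nonneg _) (Real.exp_pos _).le
          _ ≤ Ce * ((χ T' ^ 2 * Real.exp (2 * Λ * T')) *
              (epsM Λ M δ n * (1 + kM Λ M δ T' * Real.exp (eM Λ M δ T')))) := by gcongr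
          _ = _ := by ring
      have b2 : (1 + ‖lam‖ + |χ1 T'| / χ T') * (χ T' * (Real.exp (‖lam‖ * Real.sqrt T') *
          ‖SF χ lam (φ lam) T' - SF χ lam (p n lam).1 T'‖)) ≤ C2 * epsM Λ M δ n := by
        calc _ ≤ (1 + Λ + |χ1 T'| / χ T') * (χ T' * (Ce * (epsM Λ M δ n * Real.exp (eM Λ M δ T')))) := by
              gcongr
          _ = _ := by rw [hC2]; ring
      have hfin : ‖φ lam T' - (p n lam).1 T'‖ + ‖Φ lam T' - (p n lam).2 T'‖
          ≤ (C1 + C2) * epsM Λ M δ n := by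
        refine hbb.trans ?_
        linarith
      have hnn := norm_nonneg (Φ lam t0 - (p n lam).2 t0)
      calc ‖φ lam t0 - (p n lam).1 t0‖
          ≤ ‖φ lam t0 - (p n lam).1 t0‖ + ‖Φ lam t0 - (p n lam).2 t0‖ := by linarith
        _ ≤ Real.exp (K * (1 + ‖lam‖)) * (‖φ lam T' - (p n lam).1 T'‖
            + ‖Φ lam T' - (p n lam).2 T'‖) := htr
        _ ≤ Real.exp (K * (1 + Λ)) * ((C1 + C2) * epsM Λ M δ n) := by
            gcongr
    have hunif : TendstoUniformlyOn (fun (n : ℕ) (lam : ℂ) => (p n lam).1 t0)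
        (fun lam => φ lam t0) atTop (Metric.ball 0 Λ) := by
      rw [Metric.tendstoUniformlyOn_iff]
      intro ε hε
      have h1 : Tendsto (fun n : ℕ => Real.exp (K * (1 + Λ)) * ((C1 + C2) * epsM Λ M δ n)) atTop
          (𝓝 0) := by
        have := (((tendsto_epsM (L := Λ) (M := M) hδ).comp tendsto_natCast_atTop_atTop).const_mul
          (C1 + C2)).const_mul (Real.exp (K * (1 + Λ)))
        simpa [Function.comp_def] using this
      have h2 : ∀ᶠ n : ℕ in atTop, T' ≤ (n : ℝ) :=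
        tendsto_natCast_atTop_atTop.eventually_ge_atTop T'
      filter_upwards [h1.eventually_lt_const hε, h2] with n h3 h4 lam hlam
      rw [dist_eq_norm]
      exact (hclose n h4 lam hlam).trans_lt h3
    refine hunif.tendstoLocallyUniformlyOn.differentiableOn ?_ Metric.isOpen_ball
    have h2 : ∀ᶠ n : ℕ in atTop, max T t0 ≤ (n : ℝ) :=
      tendsto_natCast_atTop_atTop.eventually_ge_atTop _
    filter_upwards [h2] with n hn
    exact (hent n ((le_max_left _ _).trans hn) ((le_max_right _ _).trans hn)).differentiableOn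
  intro lam
  have h1 := hball (‖lam‖ + 1) (by positivity)
  exact h1.differentiableAt (Metric.isOpen_ball.mem_nhds (by
    rw [mem_ball_zero_iff]; linarith))

end

end Pool.Agent.Helper22.SAi
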