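import Pool.Agent.Helper22.SAi.Asym
import Pool.Agent.Helper22.SAi.BC

/-!
The growth order.
-/

namespace Pool.Agent.Helper22.SAi

open Filter Topology Set MeasureTheory

/-- The maximum modulus `M_f(r) = max_{|z| = r} |f z|` (as a supremum). -/
noncomputable def maxMod (f : ℂ → ℂ) (r : ℝ) : ℝ :=
  sSup ((fun z => ‖f z‖) '' Metric.sphere (0 : ℂ) r)

/-- The order `limsup_{r → ∞} log log M_f(r) / log r`, as an extended real number. -/
noncomputable def growthOrder (f : ℂ → ℂ) : EReal :=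
  Filter.limsup (fun r : ℝ => ((Real.log (Real.log (maxMod f r)) / Real.log r : ℝ) : EReal))
    Filter.atTop

theorem tendsto_loglog {f : ℂ → ℂ} {K c r0 : ℝ} (hc : 0 < c) (hK : 0 < K)
    (hup : ∀ z : ℂ, r0 ≤ ‖z‖ → ‖f z‖ ≤ Real.exp (K * (‖z‖ * Real.sqrt ‖z‖)))
    (hlow : ∀ r : ℝ, r0 ≤ r → Real.exp (c * (r * Real.sqrt r)) ≤ ‖f (Complex.I * r)‖) :
    Tendsto (fun r : ℝ => Real.log (Real.log (maxMod f r)) / Real.log r) atTop (𝓝 (3/2)) := by
  have hM : ∀ r : ℝ, max r0 1 ≤ r → Real.exp (c * (r * Real.sqrt r)) ≤ maxMod f r ∧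
      maxMod f r ≤ Real.exp (K * (r * Real.sqrt r)) := by
    intro r hr
    have hr0 : r0 ≤ r := (le_max_left _ _).trans hr
    have hr1 : 1 ≤ r := (le_max_right _ _).trans hr
    have hbd : ∀ x ∈ (fun z => ‖f z‖) '' Metric.sphere (0 : ℂ) r,
        x ≤ Real.exp (K * (r * Real.sqrt r)) := by
      rintro _ ⟨z, hz, rfl⟩
      have hz' : ‖z‖ = r := by simpa using hz
      have := hup z (by rw [hz']; exact hr0)
      rwa [hz'] at this
    have hIr : Complex.I * (r : ℂ) ∈ Metric.sphere (0 : ℂ) r := by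
      rw [mem_sphere_zero_iff_norm, norm_mul, Complex.norm_I, one_mul, Complex.norm_real,
        Real.norm_eq_abs, abs_of_pos (by linarith)]
    constructor
    · exact (hlow r hr0).trans (le_csSup ⟨_, hbd⟩ ⟨_, hIr, rfl⟩)
    · exact csSup_le ⟨_, _, hIr, rfl⟩ hbd
  have hz : Tendsto (fun r : ℝ => (|Real.log c| + |Real.log K|) / Real.log r) atTop (𝓝 0) :=
    tendsto_const_nhds.div_atTop Real.tendsto_log_atTop
  have hbig : Tendsto (fun r : ℝ => c * (r * Real.sqrt r)) atTop atTop :=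
    (tendsto_id.atTop_mul_atTop₀ Real.tendsto_sqrt_atTop).const_mul_atTop hc
  rw [tendsto_iff_norm_sub_tendsto_zero]
  refine tendsto_of_tendsto_of_tendsto_of_le_of_le' tendsto_const_nhds hz
    (Eventually.of_forall fun r => norm_nonneg _) ?_
  filter_upwards [eventually_ge_atTop (max r0 1), hbig.eventually_gt_atTop 1,
    eventually_gt_atTop 1] with r hr hgt hr1
  obtain ⟨h1, h2⟩ := hM r hr
  have hr0 : 0 < r := by linarith
  have hlr : 0 < Real.log r := Real.log_pos hr1
  have hMpos : 0 < maxMod f r := lt_of_lt_of_le (Real.exp_pos _) h1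
  have h3 : c * (r * Real.sqrt r) ≤ Real.log (maxMod f r) := by
    rw [Real.le_log_iff_exp_le hMpos]; exact h1
  have h4 : Real.log (maxMod f r) ≤ K * (r * Real.sqrt r) := by
    rw [Real.log_le_iff_le_exp hMpos]; exact h2
  have hX : 0 < r * Real.sqrt r := mul_pos hr0 (Real.sqrt_pos.2 hr0)
  have hlX : Real.log (r * Real.sqrt r) = 3/2 * Real.log r := by
    rw [Real.log_mul hr0.ne' (Real.sqrt_pos.2 hr0).ne', Real.log_sqrt hr0.le]
    ring
  have h5 : Real.log c + 3/2 * Real.log r ≤ Real.log (Real.log (maxMod f r)) := by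
    rw [← hlX, ← Real.log_mul hc.ne' hX.ne']
    exact Real.log_le_log (by positivity) h3
  have h6 : Real.log (Real.log (maxMod f r)) ≤ Real.log K + 3/2 * Real.log r := by
    rw [← hlX, ← Real.log_mul hK.ne' hX.ne']
    exact Real.log_le_log (lt_of_lt_of_le (by positivity) h3) h4
  rw [Real.norm_eq_abs, abs_le]
  have e : Real.log (Real.log (maxMod f r)) / Real.log r - 3/2
      = (Real.log (Real.log (maxMod f r)) - 3/2 * Real.log r) / Real.log r := by
    field_simp
  rw [e, ← neg_div, div_le_div_iff_of_pos_right hlr, div_le_div_iff_of_pos_right hlr]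
  have h7 := neg_abs_le (Real.log c)
  have h8 := le_abs_self (Real.log K)
  have h9 := abs_nonneg (Real.log c)
  have h10 := abs_nonneg (Real.log K)
  constructor <;> linarith

theorem growthOrder_of_bounds {f : ℂ → ℂ} {K c r0 : ℝ} (hc : 0 < c) (hK : 0 < K)
    (hup : ∀ z : ℂ, r0 ≤ ‖z‖ → ‖f z‖ ≤ Real.exp (K * (‖z‖ * Real.sqrt ‖z‖)))
    (hlow : ∀ r : ℝ, r0 ≤ r → Real.exp (c * (r * Real.sqrt r)) ≤ ‖f (Complex.I * r)‖) :
    growthOrder f = ((3/2 : ℝ) : EReal) := by
  have h := tendsto_loglog hc hK hup hlow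
  exact ((continuous_coe_real_ereal.tendsto (3/2)).comp h).limsup_eq

/-- Deterministic form: for a regular path, the order of any normalised family is `3/2`. -/
theorem order_path {B G : ℝ → ℝ} {C δ : ℝ} (hB : PathReg B C δ) (hG : ∀ᶠ t in atTop, 0 < G t)
    {φ : ℂ → ℝ → ℂ} (hφ : ∀ lam, IsNormalised B G lam (φ lam)) (t : ℝ) :
    growthOrder (fun lam => φ lam t) = ((3/2 : ℝ) : EReal) := by
  obtain ⟨K, r0, hK, hr0, hup, hlow⟩ := bounds hB hG (hφ 0) t
  exact growthOrder_of_bounds (c := 1 / 134217728) (by norm_num) hK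
    (fun z hz => hup z (φ z) hz (hφ z)) (fun r hr => hlow r (φ _) hr (hφ _))

end Pool.Agent.Helper22.SAi
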