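import Pool.Agent.Helper22.SAi.RefExist
import Pool.Agent.Helper22.SAi.Order

/-!
Existence of normalised solutions for every value of the spectral parameter.
-/

namespace Pool.Agent.Helper22.SAi

open Filter Topology Set MeasureTheory

/-- forward transfer on a compact interval -/
theorem transfer_fwd {B : ℝ → ℝ} (hB : Continuous B) (a b : ℝ) (hab : a ≤ b) (lam : ℂ) :
    ∃ K : ℝ, 0 ≤ K ∧ ∀ (φ Φ : ℝ → ℂ), DSol B lam φ Φ →
      ‖φ b‖ ≤ K * (‖φ a‖ + ‖Φ a‖) := by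
  obtain ⟨β0, hβ0⟩ := (isCompact_Icc (a := a) (b := b)).exists_bound_of_continuousOn hB.continuousOn
  set β := |β0| with hβ
  have hβn : 0 ≤ β := abs_nonneg _
  have hBβ : ∀ t ∈ Icc a b, ‖(B t : ℂ)‖ ≤ β := by
    intro t ht
    rw [Complex.norm_real]
    exact (hβ0 t ht).trans (le_abs_self _)
  set τ := max |a| |b| with hτ
  have hτn : 0 ≤ τ := (abs_nonneg a).trans (le_max_left _ _)
  have htτ : ∀ t ∈ Icc a b, ‖(t : ℂ)‖ ≤ τ := by
    intro t ht
    rw [Complex.norm_real, Real.norm_eq_abs]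
    exact abs_le_max_abs_abs ht.1 ht.2
  set K1 := (1 + β) + (τ + ‖lam‖) + β * (1 + β) with hK1
  refine ⟨(1 + β) * Real.exp (K1 * (b - a)), by positivity, fun φ Φ hd => ?_⟩
  have hL0 := norm_nonneg lam
  set f : ℝ → ℂ × ℂ := fun t => (φ t, Φ t - (B t : ℂ) * φ t) with hf
  set f' : ℝ → ℂ × ℂ := fun t => (Φ t, ((t : ℂ) + lam) * φ t - (B t : ℂ) * Φ t) with hf'
  have hfd : ∀ t ∈ Icc a b, HasDerivAt f (f' t) t := fun t _ => (hd.d1 t).prodMk (hd.d2 t)
  have hΦ : ∀ t ∈ Icc a b, ‖Φ t‖ ≤ (1 + β) * ‖f t‖ := by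
    intro t ht
    have e : Φ t = (Φ t - (B t : ℂ) * φ t) + (B t : ℂ) * φ t := by ring
    rw [e]
    have h1 : ‖(Φ t - (B t : ℂ) * φ t)‖ ≤ ‖f t‖ := norm_snd_le (f t)
    have h2 : ‖φ t‖ ≤ ‖f t‖ := norm_fst_le (f t)
    have h3 := hBβ t ht
    calc ‖(Φ t - (B t : ℂ) * φ t) + (B t : ℂ) * φ t‖ ≤ ‖(Φ t - (B t : ℂ) * φ t)‖
        + ‖(B t : ℂ)‖ * ‖φ t‖ := by
          refine (norm_add_le _ _).trans ?_
          rw [norm_mul]
      _ ≤ ‖f t‖ + β * ‖f t‖ := by gcongr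
      _ = (1 + β) * ‖f t‖ := by ring
  have hle : ∀ t ∈ Icc a b, ‖f' t‖ ≤ K1 * ‖f t‖ := by
    intro t ht
    have h1 := hΦ t ht
    have h2 : ‖φ t‖ ≤ ‖f t‖ := norm_fst_le (f t)
    have h3 := hBβ t ht
    have h4 := htτ t ht
    have hfn : 0 ≤ ‖f t‖ := norm_nonneg _
    rw [Prod.norm_def]
    apply max_le
    · refine h1.trans ?_
      apply mul_le_mul_of_nonneg_right _ hfn
      rw [hK1]
      have : 0 ≤ β * (1 + β) := by positivity
      linarith
    · calc ‖((t : ℂ) + lam) * φ t - (B t : ℂ) * Φ t‖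
          ≤ ‖((t : ℂ) + lam)‖ * ‖φ t‖ + ‖(B t : ℂ)‖ * ‖Φ t‖ := by
            refine (norm_sub_le _ _).trans ?_
            rw [norm_mul, norm_mul]
        _ ≤ (τ + ‖lam‖) * ‖f t‖ + β * ((1 + β) * ‖f t‖) := by
            gcongr
            exact (norm_add_le _ _).trans (by linarith)
        _ ≤ K1 * ‖f t‖ := by
            rw [hK1]
            nlinarith [mul_nonneg hβn hfn]
  have hg := gronwall_fwd hfd hle b ⟨hab, le_rfl⟩
  have h1 : ‖f a‖ ≤ (1 + β) * (‖φ a‖ + ‖Φ a‖) := by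
    have h3 := hBβ a ⟨le_rfl, hab⟩
    have hφn := norm_nonneg (φ a)
    have hΦn := norm_nonneg (Φ a)
    rw [Prod.norm_def]
    apply max_le
    · change ‖φ a‖ ≤ _
      nlinarith
    · change ‖Φ a - (B a : ℂ) * φ a‖ ≤ _
      refine (norm_sub_le _ _).trans ?_
      rw [norm_mul]
      nlinarith [mul_le_mul_of_nonneg_right h3 hφn]
  have h4 : ‖φ b‖ ≤ ‖f b‖ := norm_fst_le (f b)
  calc ‖φ b‖ ≤ ‖f b‖ := h4
    _ ≤ ‖f a‖ * Real.exp (K1 * (b - a)) := hg
    _ ≤ ((1 + β) * (‖φ a‖ + ‖Φ a‖)) * Real.exp (K1 * (b - a)) := by gcongr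
    _ = _ := by ring

section

variable {B χ χ1 : ℝ → ℝ} {M δ T : ℝ}

theorem exists_normalised (hb : Base B χ χ1 M δ T) (lam : ℂ) :
    ∃ φ Φ : ℝ → ℂ, DSol B lam φ Φ ∧ Tendsto (SF χ lam φ) atTop (𝓝 1) := by
  have hT1 := hb.T1
  have hδ := hb.dpos
  have hM := hb.Mnn
  set L := ‖lam‖ with hL
  have hL0 : 0 ≤ L := norm_nonneg _
  set T' := max T (2 * L) with hT'
  have hTT' : T ≤ T' := le_max_left _ _
  have hL2 : 2 * ‖lam‖ ≤ T' := le_max_right _ _
  have hT'0 : 0 < T' := by linarith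
  have hx := hb.pos T' hTT'
  obtain ⟨N0, hN0⟩ := exists_nat_ge T'
  have hn : ∀ k : ℕ, T' ≤ ((k + N0 : ℕ) : ℝ) := fun k => by
    push_cast
    have : (0:ℝ) ≤ k := by positivity
    linarith
  have hex : ∀ k : ℕ, ∃ p : (ℝ → ℂ) × (ℝ → ℂ), DSol B lam p.1 p.2 ∧
      SF χ lam p.1 ((k + N0 : ℕ) : ℝ) = 1 ∧ fW χ χ1 lam p.1 p.2 ((k + N0 : ℕ) : ℝ) = 0 := by
    intro k
    obtain ⟨φ, Φ, h1, -, -, h2, h3⟩ := exists_approx hb lam (hTT'.trans (hn k))
    exact ⟨(φ, Φ), h1, h2, h3⟩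
  choose p hp1 hp2 hp3 using hex
  have hhor : ∀ k : ℕ, ∀ t ∈ Icc T' ((k + N0 : ℕ) : ℝ),
      ‖SF χ lam (p k).1 t‖ ≤ Real.exp (eM L M δ t) ∧
      ‖fW χ χ1 lam (p k).1 (p k).2 t‖ ≤ GW χ lam t * (kM L M δ t * Real.exp (eM L M δ t)) ∧
      ‖1 - SF χ lam (p k).1 t‖ ≤ Real.exp (eM L M δ t) - 1 := by
    intro k t ht
    obtain ⟨r1, r2, r3⟩ := S_horizon hb (hp1 k) hTT' hL2 (hn k) (a0 := 1) (b0 := 0) le_rfl
      (by rw [hp2 k]; simp) (by rw [hp3 k]; simp) t ht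
    rw [hp2 k] at r3
    have h1 : 1 ≤ Real.exp (eM L M δ ((k + N0 : ℕ) : ℝ)) :=
      Real.one_le_exp (eM_nonneg hL0 hM hδ (hT'0.trans_le (hn k)))
    rw [← hL] at r1 r2 r3
    refine ⟨by linarith, ?_, by linarith⟩
    refine r2.trans (le_of_eq ?_)
    ring
  -- bounded data at T'
  set x : ℕ → ℂ × ℂ := fun k => ((p k).1 T', (p k).2 T') with hxdef
  obtain ⟨R, hR⟩ : ∃ R, ∀ k, x k ∈ Metric.closedBall (0 : ℂ × ℂ) R := by
    refine ⟨Real.exp (L * Real.sqrt T') * (GW χ lam T' * (kM L M δ T' * Real.exp (eM L M δ T')))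
      / χ T' + (1 + L + |χ1 T'| / χ T') * (χ T' * (Real.exp (L * Real.sqrt T')
        * Real.exp (eM L M δ T'))), fun k => ?_⟩
    obtain ⟨r1, r2, -⟩ := hhor k T' (left_mem_Icc.2 (hn k))
    have hbb := back_bound (lam := lam) (φ := (p k).1) (Φ := (p k).2) hb hTT'
    rw [mem_closedBall_zero_iff]
    have h1 : ‖x k‖ ≤ ‖(p k).1 T'‖ + ‖(p k).2 T'‖ := by
      rw [Prod.norm_def]
      have := norm_nonneg ((p k).1 T')
      have := norm_nonneg ((p k).2 T')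
      apply max_le
      · change ‖(p k).1 T'‖ ≤ _
        linarith
      · change ‖(p k).2 T'‖ ≤ _
        linarith
    refine h1.trans (hbb.trans ?_)
    rw [← hL]
    gcongr
  obtain ⟨a, -, ψ, hψ, hlim⟩ := tendsto_subseq_of_bounded Metric.isBounded_closedBall hR
  obtain ⟨φ, Φ, hd, h1, h2⟩ := exists_DSol hb.cont lam T' a.1 a.2
  refine ⟨φ, Φ, hd, ?_⟩
  -- pointwise convergence
  have hconv : ∀ t ≥ T', Tendsto (fun k => (p (ψ k)).1 t) atTop (𝓝 (φ t)) := by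
    intro t ht
    obtain ⟨K, hK0, hK⟩ := transfer_fwd hb.cont T' t ht lam
    rw [tendsto_iff_norm_sub_tendsto_zero]
    have h3 : Tendsto (fun k => K * (‖(p (ψ k)).1 T' - φ T'‖ + ‖(p (ψ k)).2 T' - Φ T'‖)) atTop
        (𝓝 0) := by
      have h4 : Tendsto (fun k => (p (ψ k)).1 T') atTop (𝓝 a.1) :=
        (continuous_fst.tendsto a).comp hlim
      have h5 : Tendsto (fun k => (p (ψ k)).2 T') atTop (𝓝 a.2) :=
        (continuous_snd.tendsto a).comp hlim
      rw [h1, h2]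
      have h6 := ((tendsto_iff_norm_sub_tendsto_zero.1 h4).add
        (tendsto_iff_norm_sub_tendsto_zero.1 h5)).const_mul K
      simpa using h6
    refine tendsto_of_tendsto_of_tendsto_of_le_of_le tendsto_const_nhds h3
      (fun _ => norm_nonneg _) fun k => ?_
    exact hK _ _ ((hp1 (ψ k)).sub hd)
  have hfin : ∀ t ≥ T', ‖1 - SF χ lam φ t‖ ≤ Real.exp (eM L M δ t) - 1 := by
    intro t ht
    have h3 : Tendsto (fun k => ‖1 - SF χ lam (p (ψ k)).1 t‖) atTop (𝓝 ‖1 - SF χ lam φ t‖) := by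
      have h4 : Tendsto (fun k => SF χ lam (p (ψ k)).1 t) atTop (𝓝 (SF χ lam φ t)) := by
        simp only [SF]
        exact ((hconv t ht).div_const _).mul_const _
      exact (h4.const_sub 1).norm
    refine le_of_tendsto h3 ?_
    have h5 : ∀ᶠ k : ℕ in atTop, t ≤ (k : ℝ) := tendsto_natCast_atTop_atTop.eventually_ge_atTop t
    filter_upwards [h5] with k hk
    refine (hhor (ψ k) t ⟨ht, ?_⟩).2.2
    have h6 : (k : ℝ) ≤ (ψ k : ℝ) := by exact_mod_cast hψ.le_apply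
    push_cast
    have : (0:ℝ) ≤ N0 := by positivity
    linarith
  rw [tendsto_iff_norm_sub_tendsto_zero]
  have h7 : Tendsto (fun t => Real.exp (eM L M δ t) - 1) atTop (𝓝 0) := by
    have h1 := (Real.continuous_exp.tendsto 0).comp (tendsto_eM (L := L) (M := M) hδ)
    rw [Real.exp_zero] at h1
    have h2 := h1.sub_const 1
    simpa [Function.comp_def] using h2
  refine tendsto_of_tendsto_of_tendsto_of_le_of_le' tendsto_const_nhds h7
    (Eventually.of_forall fun _ => norm_nonneg _) ?_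
  filter_upwards [eventually_ge_atTop T'] with t ht
  rw [norm_sub_rev]
  exact hfin t ht

theorem isNormalised_of_SF (hb : Base B χ χ1 M δ T) {lam : ℂ} {φ Φ : ℝ → ℂ}
    (hd : DSol B lam φ Φ) (hl : Tendsto (SF χ lam φ) atTop (𝓝 1)) :
    IsNormalised B (fun t => χ t * Real.exp (2/3 * Real.sqrt t ^ 3)) lam φ := by
  have hT1 := hb.T1
  refine ⟨Φ, hd.isSolution hb.cont, ?_, ?_⟩
  · -- boundedness
    have h1 : ∀ᶠ t in atTop, ‖φ t‖ ≤ 1 := by
      have h2 := (hb.g_decay (2 * ‖lam‖)).const_mul 4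
      rw [mul_zero] at h2
      filter_upwards [h2.eventually_lt_const one_pos, ratio_bound hl, eventually_ge_atTop T]
        with t h3 h4 ht
      have hx := hb.pos t ht
      have hxc : (χ t : ℂ) ≠ 0 := by exact_mod_cast hx.ne'
      have e : ‖φ t‖ = χ t * ‖φ t / (χ t : ℂ)‖ := by
        rw [norm_div, Complex.norm_real, Real.norm_eq_abs, abs_of_pos hx]
        field_simp
      have h5 : ‖φ t‖ ≤ χ t * (2 * Real.exp (‖lam‖ * t)) := by
        rw [e]
        exact mul_le_mul_of_nonneg_left h4 hx.le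
      have h6 : (χ t * (2 * Real.exp (‖lam‖ * t))) ^ 2 < 1 := by
        have : (χ t * (2 * Real.exp (‖lam‖ * t))) ^ 2
            = 4 * (χ t ^ 2 * Real.exp (2 * ‖lam‖ * t)) := by
          have h7 : Real.exp (2 * ‖lam‖ * t) = Real.exp (‖lam‖ * t) * Real.exp (‖lam‖ * t) := by
            rw [← Real.exp_add]; congr 1; ring
          rw [h7]; ring
        rw [this]; exact h3
      have h8 : χ t * (2 * Real.exp (‖lam‖ * t)) < 1 := by
        have h9 : 0 ≤ χ t * (2 * Real.exp (‖lam‖ * t)) := by positivity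
        nlinarith
      linarith
    obtain ⟨N, hN⟩ := h1.exists_forall_of_atTop
    obtain ⟨K, hK⟩ := (isCompact_Icc (a := (0:ℝ)) (b := N)).exists_bound_of_continuousOn
      hd.continuous_phi.continuousOn
    refine ⟨max K 1, fun t ht => ?_⟩
    by_cases h : t ≤ N
    · exact (hK t ⟨ht, h⟩).trans (le_max_left _ _)
    · exact (hN t (by linarith)).trans (le_max_right _ _)
  · have h2 := hl.div (tendsto_phase lam) one_ne_zero
    rw [div_one] at h2
    refine h2.congr' ?_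
    filter_upwards [eventually_ge_atTop T] with t ht
    have hx := hb.pos t ht
    have hxc : (χ t : ℂ) ≠ 0 := by exact_mod_cast hx.ne'
    simp only [SF, Pi.div_apply]
    have e1 : Complex.exp (-(2/3) * (((t : ℂ) + lam) ^ (3/2 : ℂ) - (Real.sqrt t : ℂ) ^ 3)
        + lam * (Real.sqrt t : ℂ)) = Complex.exp (-(2/3) * ((t : ℂ) + lam) ^ (3/2 : ℂ))
          * Complex.exp (lam * (Real.sqrt t : ℂ)) * Complex.exp (2/3 * (Real.sqrt t : ℂ) ^ 3) := by
      rw [← Complex.exp_add, ← Complex.exp_add]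
      congr 1
      ring
    rw [e1]
    have n1 := Complex.exp_ne_zero (-(2/3) * ((t : ℂ) + lam) ^ (3/2 : ℂ))
    have n2 := Complex.exp_ne_zero (2/3 * (Real.sqrt t : ℂ) ^ 3)
    have n3 := Complex.exp_ne_zero (lam * (Real.sqrt t : ℂ))
    push_cast
    field_simp

end

/-- For a regular path normalised families exist. -/
theorem exists_family {B : ℝ → ℝ} {C δ : ℝ} (hB : PathReg B C δ) :
    ∃ G : ℝ → ℝ, (∀ᶠ t in atTop, 0 < G t) ∧ ∃ φ : ℂ → ℝ → ℂ, ∀ lam, IsNormalised B G lam (φ lam) := by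
  obtain ⟨χ, χ1, hs, T0, Cχ, hpos, hbd⟩ := exists_ref hB
  obtain ⟨T, hT, hb⟩ := base_of_pathReg hB hs hpos hbd T0
  refine ⟨fun t => χ t * Real.exp (2/3 * Real.sqrt t ^ 3), ?_, ?_⟩
  · filter_upwards [eventually_ge_atTop T] with t ht
    exact mul_pos (hb.pos t ht) (Real.exp_pos _)
  · choose φ Φ h using exists_normalised hb
    exact ⟨φ, fun lam => isNormalised_of_SF hb (h lam).1 (h lam).2⟩

/-- Deterministic form, holomorphy included. -/
theorem entire_order_path {B G : ℝ → ℝ} {C δ : ℝ} (hB : PathReg B C δ)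
    (hG : ∀ᶠ t in atTop, 0 < G t) {φ : ℂ → ℝ → ℂ} (hφ : ∀ lam, IsNormalised B G lam (φ lam))
    (t : ℝ) : Differentiable ℂ (fun lam => φ lam t) ∧
      growthOrder (fun lam => φ lam t) = ((3/2 : ℝ) : EReal) := by
  refine ⟨?_, order_path hB hG hφ t⟩
  obtain ⟨χ, χ1, hs, ⟨T0, Cχ, hpos, hbd⟩, hχ⟩ := ref_facts hB.cont hG (hφ 0)
  obtain ⟨T, -, hbase⟩ := base_of_pathReg hB hs hpos hbd T0
  have hpos' : ∀ᶠ t in atTop, 0 < χ t := by
    filter_upwards [eventually_ge_atTop T0] with t ht using hpos t ht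
  choose Φ hsol hbdd hlim using hφ
  exact entire_of_normalised hbase (Φ := Φ) (fun lam => (hsol lam).dsol hB.cont)
    (fun lam => SF_tendsto hG hpos' hχ (hlim lam)) t

end Pool.Agent.Helper22.SAi
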