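import Pool.Agent.Helper22.SAi.LinODE

/-!
Solutions with prescribed data, and their holomorphic dependence on the spectral parameter.
-/

namespace Pool.Agent.Helper22.SAi

open Filter Topology Set MeasureTheory

section

variable {E : Type*} [NormedAddCommGroup E] [NormedSpace ℂ E]

/-- backward Gronwall inequality with a constant forcing term -/
theorem gronwall_back_eps {F : Type*} [NormedAddCommGroup F] [NormedSpace ℝ F]
    {f f' : ℝ → F} {K ε a b : ℝ} (hab : a ≤ b)
    (hf : ∀ t ∈ Icc a b, HasDerivAt f (f' t) t)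
    (hle : ∀ t ∈ Icc a b, ‖f' t‖ ≤ K * ‖f t‖ + ε) :
    ‖f a‖ ≤ gronwallBound ‖f b‖ K ε (b - a) := by
  have hmem : ∀ s ∈ Icc 0 (b - a), b - s ∈ Icc a b := by
    intro s hs
    constructor
    · linarith [hs.2]
    · linarith [hs.1]
  have hd : ∀ s ∈ Icc 0 (b - a), HasDerivAt (fun s => f (b - s)) (- f' (b - s)) s := by
    intro s hs
    have h1 : HasDerivAt (fun s : ℝ => b - s) (-1) s := by
      simpa using (hasDerivAt_id s).const_sub b
    have h2 := HasDerivAt.scomp s (hf (b - s) (hmem s hs)) h1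
    simpa [Function.comp_def] using h2
  have h := norm_le_gronwallBound_of_norm_deriv_right_le (f := fun s => f (b - s))
    (f' := fun s => - f' (b - s)) (δ := ‖f b‖) (K := K) (ε := ε) (a := 0) (b := b - a)
    (fun s hs => (hd s hs).continuousAt.continuousWithinAt)
    (fun s hs => (hd s (Ico_subset_Icc_self hs)).hasDerivWithinAt)
    (by simp)
    (fun s hs => by
      rw [norm_neg]
      exact hle _ (hmem s (Ico_subset_Icc_self hs)))
    (b - a) ⟨by linarith, le_rfl⟩
  simpa using h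

variable [CompleteSpace E]

theorem param_deriv {A : ℝ → E →L[ℂ] E} (hA : Continuous A) (N : E →L[ℂ] E) {T t0 : ℝ}
    (hT : t0 ≤ T) {y : ℂ → ℝ → E}
    (hy : ∀ lam t, HasDerivAt (y lam) (A t (y lam t) + lam • N (y lam t)) t)
    (hd : Differentiable ℂ (fun lam => y lam T)) : Differentiable ℂ (fun lam => y lam t0) := by
  intro l0
  set d' := deriv (fun lam => y lam T) l0 with hd'
  have hdd : HasDerivAt (fun lam => y lam T) d' l0 := (hd l0).hasDerivAt
  -- the extended system
  let A2 : ℝ → (E × E) →L[ℂ] (E × E) := fun t =>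
    (((A t + l0 • N).comp (ContinuousLinearMap.fst ℂ E E))).prod
      ((A t + l0 • N).comp (ContinuousLinearMap.snd ℂ E E) + N.comp (ContinuousLinearMap.fst ℂ E E))
  let A2R : ℝ → (E × E) →L[ℝ] (E × E) := fun t => (A2 t).restrictScalars ℝ
  have hA2 : Continuous A2R := by
    have h1 : Continuous fun t => (A t + l0 • N) := hA.add continuous_const
    have h2 : Continuous A2 :=
      (ContinuousLinearMap.prodₗᵢ (𝕜 := ℂ) (E := E × E) (F := E) (G := E) ℂ).continuous.comp
        ((h1.clm_comp continuous_const).prodMk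
          ((h1.clm_comp continuous_const).add continuous_const))
    exact (ContinuousLinearMap.restrictScalarsL ℂ (E × E) (E × E) ℝ ℝ).continuous.comp h2
  obtain ⟨YZ, hYZT, hYZ⟩ := linear_ode_exists hA2 T (y l0 T, d')
  set Y : ℝ → E := fun t => (YZ t).1 with hY
  set Z : ℝ → E := fun t => (YZ t).2 with hZ
  have hYd : ∀ t, HasDerivAt Y (A t (Y t) + l0 • N (Y t)) t := by
    intro t
    exact (ContinuousLinearMap.fst ℝ E E).hasFDerivAt.comp_hasDerivAt t (hYZ t)
  have hZd : ∀ t, HasDerivAt Z (A t (Z t) + l0 • N (Z t) + N (Y t)) t := by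
    intro t
    exact (ContinuousLinearMap.snd ℝ E E).hasFDerivAt.comp_hasDerivAt t (hYZ t)
  have hYT : Y T = y l0 T := by simp [hY, hYZT]
  have hZT : Z T = d' := by simp [hZ, hYZT]
  -- constants
  obtain ⟨K0, hK0⟩ := (isCompact_Icc (a := t0) (b := T)).exists_bound_of_continuousOn
    hA.continuousOn
  set K1 := |K0| + ‖l0‖ * ‖N‖ with hK1
  have hK1n : 0 ≤ K1 := by positivity
  have hop : ∀ t ∈ Icc t0 T, ∀ v : E, ‖A t v + l0 • N v‖ ≤ K1 * ‖v‖ := by
    intro t ht v
    calc ‖A t v + l0 • N v‖ ≤ ‖A t‖ * ‖v‖ + ‖l0‖ * (‖N‖ * ‖v‖) := by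
          refine (norm_add_le _ _).trans ?_
          rw [norm_smul]
          gcongr
          · exact (A t).le_opNorm v
          · exact N.le_opNorm v
      _ ≤ |K0| * ‖v‖ + ‖l0‖ * (‖N‖ * ‖v‖) := by
          gcongr
          exact (hK0 t ht).trans (le_abs_self _)
      _ = K1 * ‖v‖ := by rw [hK1]; ring
  -- uniqueness: Y = y l0 on [t0, T]
  have hYeq : ∀ t ∈ Icc t0 T, Y t = y l0 t := by
    intro t ht
    have h1 := gronwall_back (f := fun t => Y t - y l0 t)
      (f' := fun t => (A t (Y t) + l0 • N (Y t)) - (A t (y l0 t) + l0 • N (y l0 t)))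
      (K := K1) (a := t0) (b := T)
      (fun s _ => (hYd s).sub (hy l0 s))
      (fun s hs => by
        have e : (A s (Y s) + l0 • N (Y s)) - (A s (y l0 s) + l0 • N (y l0 s))
            = A s (Y s - y l0 s) + l0 • N (Y s - y l0 s) := by
          rw [map_sub, map_sub, smul_sub]; abel
        rw [e]
        exact hop s hs _) t ht
    rw [hYT, sub_self, norm_zero, zero_mul] at h1
    exact sub_eq_zero.1 (norm_le_zero_iff.1 h1)
  have hZc : Continuous Z := continuous_iff_continuousAt.2 fun t => (hZd t).continuousAt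
  obtain ⟨Zm, hZm⟩ := (isCompact_Icc (a := t0) (b := T)).exists_bound_of_continuousOn
    hZc.continuousOn
  set K := K1 + ‖N‖ + 1 with hK
  have hKpos : 0 < K := by positivity
  -- the error
  have herr : ∀ lam : ℂ, lam ≠ l0 → ‖lam - l0‖ ≤ 1 →
      ‖(lam - l0)⁻¹ • (y lam t0 - y l0 t0) - Z t0‖
        ≤ gronwallBound ‖(lam - l0)⁻¹ • (y lam T - y l0 T) - Z T‖ K
          (‖lam - l0‖ * (‖N‖ * |Zm|)) (T - t0) := by
    intro lam hne hle1
    have hne' : lam - l0 ≠ 0 := sub_ne_zero.2 hne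
    refine gronwall_back_eps (f := fun t => (lam - l0)⁻¹ • (y lam t - y l0 t) - Z t)
      (f' := fun t => (lam - l0)⁻¹ • ((A t (y lam t) + lam • N (y lam t))
        - (A t (y l0 t) + l0 • N (y l0 t))) - (A t (Z t) + l0 • N (Z t) + N (Y t))) hT
      (fun t _ => (((hy lam t).sub (hy l0 t)).const_smul _).sub (hZd t)) ?_
    intro t ht
    set e := (lam - l0)⁻¹ • (y lam t - y l0 t) - Z t with he
    have hyl : y lam t = y l0 t + (lam - l0) • (e + Z t) := by
      rw [he, sub_add_cancel, smul_smul, mul_inv_cancel₀ hne', one_smul]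
      abel
    have e1 : (lam - l0)⁻¹ • ((A t (y lam t) + lam • N (y lam t))
        - (A t (y l0 t) + l0 • N (y l0 t))) - (A t (Z t) + l0 • N (Z t) + N (Y t))
        = (A t e + l0 • N e) + (lam - l0) • N (e + Z t) := by
      rw [hYeq t ht, hyl]
      simp only [map_add, map_smul, smul_add, smul_sub]
      have h2 : lam • N (y l0 t) = l0 • N (y l0 t) + (lam - l0) • N (y l0 t) := by
        rw [← add_smul]; congr 1; ring
      have h3 : ∀ v : E, (lam - l0)⁻¹ • (lam - l0) • v = v := fun v => by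
        rw [smul_smul, inv_mul_cancel₀ hne', one_smul]
      have h4 : ∀ v : E, (lam - l0)⁻¹ • lam • (lam - l0) • v = lam • v := fun v => by
        rw [smul_smul, smul_smul]; congr 1; field_simp
      rw [h2]
      simp only [smul_add, h3, h4]
      have h5 : ∀ v : E, lam • v = l0 • v + (lam - l0) • v := fun v => by
        rw [← add_smul]; congr 1; ring
      rw [h5 (N e), h5 (N (Z t))]
      abel
    change ‖(lam - l0)⁻¹ • ((A t (y lam t) + lam • N (y lam t))
        - (A t (y l0 t) + l0 • N (y l0 t))) - (A t (Z t) + l0 • N (Z t) + N (Y t))‖ ≤ _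
    rw [e1]
    have hZt : ‖Z t‖ ≤ |Zm| := (hZm t ht).trans (le_abs_self _)
    calc ‖(A t e + l0 • N e) + (lam - l0) • N (e + Z t)‖
        ≤ K1 * ‖e‖ + ‖lam - l0‖ * (‖N‖ * (‖e‖ + |Zm|)) := by
          refine (norm_add_le _ _).trans ?_
          rw [norm_smul]
          gcongr
          · exact hop t ht e
          · refine (N.le_opNorm _).trans ?_
            gcongr
            exact (norm_add_le _ _).trans (by linarith)
      _ ≤ K * ‖e‖ + ‖lam - l0‖ * (‖N‖ * |Zm|) := by
          have h6 : ‖lam - l0‖ * (‖N‖ * ‖e‖) ≤ 1 * (‖N‖ * ‖e‖) := by gcongr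
          have h7 := norm_nonneg e
          rw [hK]
          nlinarith
  -- convergence
  refine (HasDerivAt.differentiableAt (f' := Z t0) ?_)
  rw [hasDerivAt_iff_tendsto_slope]
  have hslopeT : Tendsto (fun lam => (lam - l0)⁻¹ • (y lam T - y l0 T)) (𝓝[≠] l0) (𝓝 (Z T)) := by
    rw [hZT]
    exact hasDerivAt_iff_tendsto_slope.1 hdd
  rw [tendsto_iff_norm_sub_tendsto_zero]
  have h8 : Tendsto (fun lam => ‖(lam - l0)⁻¹ • (y lam T - y l0 T) - Z T‖) (𝓝[≠] l0) (𝓝 0) :=
    tendsto_iff_norm_sub_tendsto_zero.1 hslopeT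
  have h9 : Tendsto (fun lam : ℂ => ‖lam - l0‖ * (‖N‖ * |Zm|)) (𝓝[≠] l0) (𝓝 0) := by
    have : Tendsto (fun lam : ℂ => ‖lam - l0‖ * (‖N‖ * |Zm|)) (𝓝 l0) (𝓝 (‖l0 - l0‖ * (‖N‖ * |Zm|))) := by
      apply Continuous.tendsto
      fun_prop
    rw [sub_self, norm_zero, zero_mul] at this
    exact this.mono_left nhdsWithin_le_nhds
  have h10 : Tendsto (fun lam => gronwallBound ‖(lam - l0)⁻¹ • (y lam T - y l0 T) - Z T‖ K
          (‖lam - l0‖ * (‖N‖ * |Zm|)) (T - t0)) (𝓝[≠] l0) (𝓝 0) := by
    simp only [gronwallBound_of_K_ne_0 hKpos.ne']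
    have h11 := (h8.mul_const (Real.exp (K * (T - t0)))).add
      ((h9.div_const K).mul_const (Real.exp (K * (T - t0)) - 1))
    simpa using h11
  refine tendsto_of_tendsto_of_tendsto_of_le_of_le' tendsto_const_nhds h10
    (Eventually.of_forall fun _ => norm_nonneg _) ?_
  have hball : ∀ᶠ lam in 𝓝[≠] l0, ‖lam - l0‖ ≤ 1 := by
    have : ∀ᶠ lam in 𝓝 l0, ‖lam - l0‖ < 1 := by
      have h12 : Tendsto (fun lam : ℂ => ‖lam - l0‖) (𝓝 l0) (𝓝 ‖l0 - l0‖) := by
        apply Continuous.tendsto; fun_prop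
      rw [sub_self, norm_zero] at h12
      exact h12.eventually_lt_const one_pos
    exact (this.filter_mono nhdsWithin_le_nhds).mono fun _ h => h.le
  filter_upwards [hball, self_mem_nhdsWithin] with lam h13 h14
  exact herr lam h14 h13

end

end Pool.Agent.Helper22.SAi
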