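import Pool.Agent.Helper22.SAi.Flow

/-!
Existence of solutions with given data; holomorphic dependence.
-/

namespace Pool.Agent.Helper22.SAi

open Filter Topology Set MeasureTheory

section

variable {B : ℝ → ℝ} {lam : ℂ} {φ Φ : ℝ → ℂ}

/-- the coefficient matrix at `lam = 0` -/
noncomputable def AA (B : ℝ → ℝ) (t : ℝ) : (ℂ × ℂ) →L[ℂ] (ℂ × ℂ) :=
  (ContinuousLinearMap.snd ℂ ℂ ℂ + (B t : ℂ) • ContinuousLinearMap.fst ℂ ℂ ℂ).prod
    ((t : ℂ) • ContinuousLinearMap.fst ℂ ℂ ℂ - (B t : ℂ) • ContinuousLinearMap.snd ℂ ℂ ℂ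
      - ((B t : ℂ) ^ 2) • ContinuousLinearMap.fst ℂ ℂ ℂ)

/-- the derivative of the coefficient matrix in `lam` -/
noncomputable def NN : (ℂ × ℂ) →L[ℂ] (ℂ × ℂ) :=
  (0 : (ℂ × ℂ) →L[ℂ] ℂ).prod (ContinuousLinearMap.fst ℂ ℂ ℂ)

theorem AA_continuous (hB : Continuous B) : Continuous (AA B) := by
  have hBc : Continuous fun t => (B t : ℂ) := Complex.continuous_ofReal.comp hB
  have htc : Continuous fun t : ℝ => (t : ℂ) := Complex.continuous_ofReal
  have h1 : Continuous fun t : ℝ => (ContinuousLinearMap.snd ℂ ℂ ℂ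
      + (B t : ℂ) • ContinuousLinearMap.fst ℂ ℂ ℂ) :=
    continuous_const.add (hBc.smul continuous_const)
  have h2 : Continuous fun t : ℝ => ((t : ℂ) • ContinuousLinearMap.fst ℂ ℂ ℂ
      - (B t : ℂ) • ContinuousLinearMap.snd ℂ ℂ ℂ
      - ((B t : ℂ) ^ 2) • ContinuousLinearMap.fst ℂ ℂ ℂ) :=
    ((htc.smul continuous_const).sub (hBc.smul continuous_const)).sub
      ((hBc.pow 2).smul continuous_const)
  exact (ContinuousLinearMap.prodₗᵢ (𝕜 := ℂ) (E := ℂ × ℂ) (F := ℂ) (G := ℂ) ℂ).continuous.comp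
    (h1.prodMk h2)

theorem AA_apply (t : ℝ) (v : ℂ × ℂ) : AA B t v + lam • NN v
    = (v.2 + (B t : ℂ) * v.1, ((t : ℂ) + lam) * v.1 - (B t : ℂ) * (v.2 + (B t : ℂ) * v.1)) := by
  ext
  · simp [AA, NN]
  · simp [AA, NN]
    ring

theorem exists_DSol (hB : Continuous B) (lam : ℂ) (T : ℝ) (a b : ℂ) :
    ∃ φ Φ : ℝ → ℂ, DSol B lam φ Φ ∧ φ T = a ∧ Φ T = b := by
  have hc : Continuous fun t => (AA B t + lam • NN).restrictScalars ℝ :=
    (ContinuousLinearMap.restrictScalarsL ℂ (ℂ × ℂ) (ℂ × ℂ) ℝ ℝ).continuous.comp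
      ((AA_continuous hB).add continuous_const)
  obtain ⟨y, hyT, hy⟩ := linear_ode_exists hc T (a, b - (B T : ℂ) * a)
  have hy' : ∀ t, HasDerivAt y ((y t).2 + (B t : ℂ) * (y t).1,
      ((t : ℂ) + lam) * (y t).1 - (B t : ℂ) * ((y t).2 + (B t : ℂ) * (y t).1)) t := by
    intro t
    have := hy t
    have e : (AA B t + lam • NN).restrictScalars ℝ (y t) = AA B t (y t) + lam • NN (y t) := rfl
    rw [e, AA_apply] at this
    exact this
  refine ⟨fun t => (y t).1, fun t => (y t).2 + (B t : ℂ) * (y t).1, ⟨?_, ?_⟩, ?_, ?_⟩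
  · intro t
    exact (ContinuousLinearMap.fst ℝ ℂ ℂ).hasFDerivAt.comp_hasDerivAt t (hy' t)
  · intro t
    have h1 := (ContinuousLinearMap.snd ℝ ℂ ℂ).hasFDerivAt.comp_hasDerivAt t (hy' t)
    have e : (fun s => (y s).2 + (B s : ℂ) * (y s).1 - (B s : ℂ) * (y s).1)
        = fun s => (y s).2 := by
      funext s; ring
    rw [e]
    exact h1
  · simp [hyT]
  · simp [hyT]

theorem DSol.continuous_phi (hd : DSol B lam φ Φ) : Continuous φ :=
  continuous_iff_continuousAt.2 fun t => (hd.d1 t).continuousAt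

theorem DSol.continuous_Phi (hB : Continuous B) (hd : DSol B lam φ Φ) : Continuous Φ := by
  have h1 : Continuous fun s => Φ s - (B s : ℂ) * φ s :=
    continuous_iff_continuousAt.2 fun t => (hd.d2 t).continuousAt
  have h2 : Continuous fun s => (B s : ℂ) * φ s :=
    (Complex.continuous_ofReal.comp hB).mul hd.continuous_phi
  have h3 := h1.add h2
  refine h3.congr fun s => ?_
  simp only [Pi.add_apply]
  ring

theorem DSol.isSolution (hB : Continuous B) (hd : DSol B lam φ Φ) : IsSolution B lam φ Φ := by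
  have hΦ := hd.continuous_Phi hB
  have hBc : Continuous fun t => (B t : ℂ) := Complex.continuous_ofReal.comp hB
  refine ⟨hΦ, 0, φ 0, Φ 0, fun t => ?_⟩
  have hI1 : (∫ u in (0:ℝ)..t, Φ u) = φ t - φ 0 :=
    intervalIntegral.integral_eq_sub_of_hasDerivAt (fun s _ => hd.d1 s)
      (hΦ.intervalIntegrable _ _)
  set q : ℝ → ℂ := fun u => ((u : ℂ) ^ 2) / 2 + lam * (u : ℂ) with hq
  have hqc : Continuous q := by
    rw [hq]
    have := Complex.continuous_ofReal
    fun_prop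
  have hqd : ∀ s : ℝ, HasDerivAt q ((s : ℂ) + lam) s := by
    intro s
    have h1 : HasDerivAt (fun t : ℝ => (t : ℂ)) 1 s := Complex.ofRealCLM.hasDerivAt
    have h2 := ((h1.pow 2).div_const 2).add (h1.const_mul lam)
    refine h2.congr_deriv ?_
    simp
    try ring
  have hqB : Continuous fun u => (q u + (B u : ℂ)) * Φ u := (hqc.add hBc).mul hΦ
  have hI2 : (∫ u in (0:ℝ)..t, (q u + (B u : ℂ)) * Φ u)
      = (q t * φ t - (Φ t - (B t : ℂ) * φ t)) - (q 0 * φ 0 - (Φ 0 - (B 0 : ℂ) * φ 0)) :=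
    intervalIntegral.integral_eq_sub_of_hasDerivAt
      (f := fun u => q u * φ u - (Φ u - (B u : ℂ) * φ u))
      (fun s _ => by
        refine (((hqd s).mul (hd.d1 s)).sub (hd.d2 s)).congr_deriv ?_
        ring) (hqB.intervalIntegrable _ _)
  have hker : ∀ t u, kernelU B lam t u = (q t + (B t : ℂ)) - (q u + (B u : ℂ)) := by
    intro t u
    simp only [kernelU, hq]
    push_cast
    ring
  have hI3 : (∫ u in (0:ℝ)..t, kernelU B lam t u * Φ u)
      = (q t + (B t : ℂ)) * (φ t - φ 0)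
        - ((q t * φ t - (Φ t - (B t : ℂ) * φ t)) - (q 0 * φ 0 - (Φ 0 - (B 0 : ℂ) * φ 0))) := by
    have e : ∀ u, kernelU B lam t u * Φ u
        = (q t + (B t : ℂ)) * Φ u - (q u + (B u : ℂ)) * Φ u := by
      intro u; rw [hker]; ring
    simp_rw [e]
    rw [intervalIntegral.integral_sub ((hΦ.const_mul _).intervalIntegrable _ _)
      (hqB.intervalIntegrable _ _), intervalIntegral.integral_const_mul, hI1, hI2]
  refine ⟨?_, ?_⟩
  · rw [hI3, hker]
    ring
  · rw [hI1]; ring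

theorem flow_differentiable (hB : Continuous B) {T t0 : ℝ} (hT : t0 ≤ T) {φ Φ : ℂ → ℝ → ℂ}
    (hd : ∀ lam, DSol B lam (φ lam) (Φ lam)) (h1 : Differentiable ℂ fun lam => φ lam T)
    (h2 : Differentiable ℂ fun lam => Φ lam T) : Differentiable ℂ fun lam => φ lam t0 := by
  have h := param_deriv (AA_continuous hB) NN hT
    (y := fun lam t => (φ lam t, Φ lam t - (B t : ℂ) * φ lam t))
    (fun lam t => by
      rw [AA_apply]
      refine ((hd lam).d1 t |>.prodMk ((hd lam).d2 t)).congr_deriv ?_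
      ext
      · simp
      · simp)
    (h1.prodMk (h2.sub (h1.const_mul _)))
  exact h.fst

end

end Pool.Agent.Helper22.SAi
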