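import Pool.Agent.Helper22.SAi.Upper
import Pool.Agent.Helper22.SAi.SolExist

/-!
Finite horizon estimates.
-/

namespace Pool.Agent.Helper22.SAi

open Filter Topology Set MeasureTheory

section

variable {B χ χ1 : ℝ → ℝ} {M δ T : ℝ} {lam : ℂ} {φ Φ : ℝ → ℂ}

theorem drift (hb : Base B χ χ1 M δ T) {T' : ℝ} (hT : T ≤ T') (hL2 : 2 * ‖lam‖ ≤ T') {t : ℝ}
    (ht : T' ≤ t) : Real.sqrt t ≤ 2 * (-(χ1 t / χ t)) + lam.re / Real.sqrt t := by
  have hT1 := hb.T1
  have ht0 : 0 < t := by linarith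
  have hs0 : 0 < Real.sqrt t := Real.sqrt_pos.2 ht0
  have hp := hb.plow t (hT.trans ht)
  have h1 : -(‖lam‖ / Real.sqrt t) ≤ lam.re / Real.sqrt t := by
    rw [← neg_div]
    apply div_le_div_of_nonneg_right _ hs0.le
    exact (abs_le.1 (Complex.abs_re_le_norm lam)).1
  have h2 : ‖lam‖ / Real.sqrt t ≤ Real.sqrt t / 2 := by
    rw [div_le_iff₀ hs0]
    have : Real.sqrt t * Real.sqrt t = t := Real.mul_self_sqrt ht0.le
    nlinarith
  linarith

theorem GW_pos (hb : Base B χ χ1 M δ T) {t : ℝ} (ht : T ≤ t) : 0 < GW χ lam t := by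
  have := hb.pos t ht
  simp only [GW]; positivity

theorem S_horizon (hb : Base B χ χ1 M δ T) (hd : DSol B lam φ Φ) {T' n : ℝ} (hT : T ≤ T')
    (hL2 : 2 * ‖lam‖ ≤ T') (hn : T' ≤ n) {a0 b0 : ℝ} (hb0 : 0 ≤ b0)
    (hSn : ‖SF χ lam φ n‖ ≤ a0) (hfn : ‖fW χ χ1 lam φ Φ n‖ ≤ b0 * GW χ lam n) :
    ∀ t ∈ Icc T' n, ‖SF χ lam φ t‖ ≤ (a0 + b0) * Real.exp (eM ‖lam‖ M δ t) ∧
      ‖fW χ χ1 lam φ Φ t‖ ≤ GW χ lam t *
        (b0 + (a0 + b0) * (kM ‖lam‖ M δ t * Real.exp (eM ‖lam‖ M δ t))) ∧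
      ‖SF χ lam φ n - SF χ lam φ t‖ ≤ b0 + (a0 + b0) *
        (Real.exp (eM ‖lam‖ M δ t) - Real.exp (eM ‖lam‖ M δ n)) := by
  have hT1 := hb.T1
  have hδ := hb.dpos
  have hM := hb.Mnn
  set L := ‖lam‖ with hL
  have hL0 : 0 ≤ L := norm_nonneg _
  have ha0 : 0 ≤ a0 := (norm_nonneg _).trans hSn
  have hTt : ∀ t ∈ Icc T' n, T ≤ t := fun t ht => hT.trans ht.1
  have hpos : ∀ t ∈ Icc T' n, 0 < t := fun t ht => by linarith [hTt t ht]
  have hSd : ∀ t ∈ Icc T' n, HasDerivAt (SF χ lam φ)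
      (Complex.exp (2 * (lam * (Real.sqrt t : ℂ))) * fW χ χ1 lam φ Φ t / (χ t : ℂ) ^ 2) t :=
    fun t ht => hasDerivAt_S hb hd (hTt t ht)
  have hEd : ∀ t ∈ Icc T' n, HasDerivAt (fun t => Real.exp (eM L M δ t))
      (Real.exp (eM L M δ t) * (-kM L M δ t)) t :=
    fun t ht => (hasDerivAt_eM hδ (hpos t ht)).exp
  have hE1 : ∀ t ∈ Icc T' n, 1 ≤ Real.exp (eM L M δ t) := fun t ht =>
    Real.one_le_exp (eM_nonneg hL0 hM hδ (hpos t ht))
  have hGpos : ∀ t ∈ Icc T' n, 0 < GW χ lam t := fun t ht => GW_pos hb (hTt t ht)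
  -- the maximum
  have hScont : ContinuousOn (fun t => ‖SF χ lam φ t‖ / Real.exp (eM L M δ t)) (Icc T' n) := by
    intro t ht
    have h1 : ContinuousAt (fun t => ‖SF χ lam φ t‖) t := (hSd t ht).continuousAt.norm
    exact (h1.div (hEd t ht).continuousAt (Real.exp_pos _).ne').continuousWithinAt
  obtain ⟨ts, hts, hmax⟩ := isCompact_Icc.exists_isMaxOn ⟨T', left_mem_Icc.2 hn⟩ hScont
  set A := ‖SF χ lam φ ts‖ / Real.exp (eM L M δ ts) with hA
  have hA0 : 0 ≤ A := by positivity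
  have hSA : ∀ t ∈ Icc T' n, ‖SF χ lam φ t‖ ≤ A * Real.exp (eM L M δ t) := by
    intro t ht
    have h1 : ‖SF χ lam φ t‖ / Real.exp (eM L M δ t) ≤ A := hmax ht
    rwa [div_le_iff₀ (Real.exp_pos _)] at h1
  -- comparison of f
  have hcmp1 : ∀ t ∈ Icc T' n, ‖fW χ χ1 lam φ Φ t‖ ≤ b0 * GW χ lam n
      + A * (GW χ lam t * (kM L M δ t * Real.exp (eM L M δ t))) := by
    intro t ht
    have h := norm_sub_le_of_deriv (f := fW χ χ1 lam φ Φ)
      (f' := fun t => (-(Complex.exp (-(lam * (Real.sqrt t : ℂ))) * ((χ t : ℂ) * φ t)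
        * qF χ χ1 lam t)))
      (b := fun t => A * (GW χ lam t * (kM L M δ t * Real.exp (eM L M δ t))))
      (b' := fun t => (A * (-((2 * (-(χ1 t / χ t)) + lam.re / Real.sqrt t) * GW χ lam t)
            * (kM L M δ t * Real.exp (eM L M δ t))
          + GW χ lam t * (-kM' L M δ t * Real.exp (eM L M δ t)
            + kM L M δ t * (Real.exp (eM L M δ t) * (-kM L M δ t))))))
      (x := t) (y := n) ht.2
      (fun s hs => hasDerivAt_fW hb hd (hTt s ⟨ht.1.trans hs.1, hs.2⟩))
      (fun s hs => by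
        have hs' : s ∈ Icc T' n := ⟨ht.1.trans hs.1, hs.2⟩
        exact ((hasDerivAt_GW hb (hTt s hs')).mul ((hasDerivAt_kM (hpos s hs')).mul
          (hEd s hs'))).const_mul A)
      (fun s hs => by
        have hs' : s ∈ Icc T' n := ⟨ht.1.trans hs.1, hs.2⟩
        have hx := hb.pos s (hTt s hs')
        have ht0 := hpos s hs'
        have hs0 : 0 < Real.sqrt s := Real.sqrt_pos.2 ht0
        rw [norm_fW'_eq hx.ne']
        have hq := qF_bound (lam := lam) hb (hTt s hs')
        rw [← hL] at hq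
        have hS := hSA s hs'
        have hk := kM_nonneg (δ := δ) hL0 hM ht0
        have hk' := kM'_nonneg hL0 hM hδ ht0
        have hG := (hGpos s hs').le
        have hE := (Real.exp_pos (eM L M δ s)).le
        have hdrift := drift (lam := lam) hb hT hL2 hs'.1
        have step1 : GW χ lam s * ‖qF χ χ1 lam s‖ * ‖SF χ lam φ s‖
            ≤ GW χ lam s * (Real.sqrt s * kM L M δ s) * (A * Real.exp (eM L M δ s)) := by
          apply mul_le_mul _ hS (norm_nonneg _) (by positivity)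
          exact mul_le_mul_of_nonneg_left hq hG
        refine step1.trans ?_
        have step2 : GW χ lam s * (Real.sqrt s * kM L M δ s) * (A * Real.exp (eM L M δ s))
            ≤ A * ((2 * (-(χ1 s / χ s)) + lam.re / Real.sqrt s) * (GW χ lam s
              * (kM L M δ s * Real.exp (eM L M δ s)))) := by
          have : GW χ lam s * (Real.sqrt s * kM L M δ s) * (A * Real.exp (eM L M δ s))
            = A * (Real.sqrt s * (GW χ lam s
              * (kM L M δ s * Real.exp (eM L M δ s)))) := by ring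
          rw [this]
          apply mul_le_mul_of_nonneg_left _ hA0
          apply mul_le_mul_of_nonneg_right hdrift (by positivity)
        refine step2.trans ?_
        have h8 : 0 ≤ A * (GW χ lam s * (kM' L M δ s * Real.exp (eM L M δ s)
            + kM L M δ s * (Real.exp (eM L M δ s) * kM L M δ s))) := by positivity
        linarith)
    have hnn : n ∈ Icc T' n := right_mem_Icc.2 hn
    have h9 : 0 ≤ A * (GW χ lam n * (kM L M δ n * Real.exp (eM L M δ n))) := by
      have := kM_nonneg (δ := δ) hL0 hM (hpos n hnn)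
      have := (hGpos n hnn).le
      positivity
    have h10 : ‖fW χ χ1 lam φ Φ t‖ ≤ ‖fW χ χ1 lam φ Φ n‖
        + ‖fW χ χ1 lam φ Φ n - fW χ χ1 lam φ Φ t‖ := by
      have := norm_sub_le (fW χ χ1 lam φ Φ n) (fW χ χ1 lam φ Φ n - fW χ χ1 lam φ Φ t)
      rwa [sub_sub_cancel] at this
    linarith
  -- decay of G
  have hGdec : ∀ t ∈ Icc T' n, GW χ lam n ≤ GW χ lam t * Real.exp (t - n) := by
    intro t ht
    have h := mono_of_deriv_Icc (f := fun s => -(GW χ lam s * Real.exp (s - n)))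
      (f' := fun s => -(-((2 * (-(χ1 s / χ s)) + lam.re / Real.sqrt s) * GW χ lam s)
        * Real.exp (s - n) + GW χ lam s * (Real.exp (s - n) * 1))) (a := T') (b := n)
      (fun s hs => ((hasDerivAt_GW hb (hTt s hs)).mul
        (((hasDerivAt_id s).sub_const n).exp)).neg)
      (fun s hs => by
        have hdrift := drift (lam := lam) hb hT hL2 hs.1
        have hs1 : 1 ≤ Real.sqrt s := Real.one_le_sqrt.2 (by linarith [hs.1])
        have hG := (hGpos s hs).le
        have hE := (Real.exp_pos (s - n)).le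
        have : 0 ≤ ((2 * (-(χ1 s / χ s)) + lam.re / Real.sqrt s) - 1)
            * (GW χ lam s * Real.exp (s - n)) := mul_nonneg (by linarith) (by positivity)
        nlinarith) t n ht.1 ht.2 le_rfl
    simp only [sub_self, Real.exp_zero, mul_one] at h
    linarith
  have hcmp2 : ∀ t ∈ Icc T' n, ‖fW χ χ1 lam φ Φ t‖ ≤ GW χ lam t * (b0 * Real.exp (t - n)
      + A * (kM L M δ t * Real.exp (eM L M δ t))) := by
    intro t ht
    refine (hcmp1 t ht).trans ?_
    have := mul_le_mul_of_nonneg_left (hGdec t ht) hb0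
    calc b0 * GW χ lam n + A * (GW χ lam t * (kM L M δ t * Real.exp (eM L M δ t)))
        ≤ b0 * (GW χ lam t * Real.exp (t - n))
          + A * (GW χ lam t * (kM L M δ t * Real.exp (eM L M δ t))) := by linarith
      _ = _ := by ring
  -- comparison of S
  have hcmp3 : ∀ t ∈ Icc T' n, ‖SF χ lam φ n - SF χ lam φ t‖ ≤ b0
      + A * (Real.exp (eM L M δ t) - Real.exp (eM L M δ n)) := by
    intro t ht
    have h := norm_sub_le_of_deriv (f := SF χ lam φ)
      (f' := fun t => Complex.exp (2 * (lam * (Real.sqrt t : ℂ))) * fW χ χ1 lam φ Φ t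
        / (χ t : ℂ) ^ 2)
      (b := fun t => A * Real.exp (eM L M δ t) - b0 * Real.exp (t - n))
      (b' := fun t => A * (Real.exp (eM L M δ t) * (-kM L M δ t)) - b0 * (Real.exp (t - n) * 1))
      (x := t) (y := n) ht.2
      (fun s hs => hSd s ⟨ht.1.trans hs.1, hs.2⟩)
      (fun s hs => ((hEd s ⟨ht.1.trans hs.1, hs.2⟩).const_mul A).sub
        ((((hasDerivAt_id s).sub_const n).exp).const_mul b0))
      (fun s hs => by
        have hs' : s ∈ Icc T' n := ⟨ht.1.trans hs.1, hs.2⟩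
        have hx := hb.pos s (hTt s hs')
        rw [norm_S'_eq hx.ne', div_le_iff₀ (hGpos s hs')]
        refine (hcmp2 s hs').trans (le_of_eq ?_)
        ring)
    simp only [sub_self, Real.exp_zero, mul_one] at h
    have h2 : 0 ≤ b0 * Real.exp (t - n) := by positivity
    linarith
  have hA1 : A ≤ a0 + b0 := by
    have h1 := hcmp3 ts hts
    have h2 : ‖SF χ lam φ ts‖ = A * Real.exp (eM L M δ ts) := by
      rw [hA]; field_simp
    have h3 : ‖SF χ lam φ ts‖ ≤ ‖SF χ lam φ n‖ + ‖SF χ lam φ n - SF χ lam φ ts‖ := by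
      have := norm_sub_le (SF χ lam φ n) (SF χ lam φ n - SF χ lam φ ts)
      rwa [sub_sub_cancel] at this
    have h4 := hE1 n (right_mem_Icc.2 hn)
    nlinarith
  intro t ht
  have hE := hE1 t ht
  have hk := kM_nonneg (δ := δ) hL0 hM (hpos t ht)
  have hG := (hGpos t ht).le
  refine ⟨(hSA t ht).trans ?_, (hcmp2 t ht).trans ?_, (hcmp3 t ht).trans ?_⟩
  · gcongr
  · have h5 : Real.exp (t - n) ≤ 1 := by
      rw [Real.exp_le_one_iff]; linarith [ht.2]
    apply mul_le_mul_of_nonneg_left _ hG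
    have h6 : b0 * Real.exp (t - n) ≤ b0 := by nlinarith
    have h7 : A * (kM L M δ t * Real.exp (eM L M δ t))
        ≤ (a0 + b0) * (kM L M δ t * Real.exp (eM L M δ t)) := by gcongr
    linarith
  · have h8 : Real.exp (eM L M δ n) ≤ Real.exp (eM L M δ t) := by
      have h := mono_of_deriv_Icc (f := fun s => -Real.exp (eM L M δ s))
        (f' := fun s => -(Real.exp (eM L M δ s) * (-kM L M δ s))) (a := T') (b := n)
        (fun s hs => (hEd s hs).neg)
        (fun s hs => by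
          have := kM_nonneg (δ := δ) hL0 hM (hpos s hs)
          have := (Real.exp_pos (eM L M δ s)).le
          nlinarith [mul_nonneg this (kM_nonneg (δ := δ) hL0 hM (hpos s hs))]) t n ht.1 ht.2 le_rfl
      linarith
    have h9 : A * (Real.exp (eM L M δ t) - Real.exp (eM L M δ n))
        ≤ (a0 + b0) * (Real.exp (eM L M δ t) - Real.exp (eM L M δ n)) :=
      mul_le_mul_of_nonneg_right hA1 (by linarith)
    linarith

end

end Pool.Agent.Helper22.SAi
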