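import Pool.Agent.Helper22.SAi.Defs

/-!
Global existence for linear differential equations `y' = A(t) y` in a Banach space
(Peano-Baker series).
-/

namespace Pool.Agent.Helper22.SAi

open Filter Topology Set MeasureTheory

section

variable {E : Type*} [NormedAddCommGroup E] [NormedSpace ℝ E]

/-- terms of the Peano-Baker series -/
noncomputable def PB (A : ℝ → E →L[ℝ] E) (T : ℝ) (x : E) : ℕ → ℝ → E
  | 0 => fun _ => x
  | n + 1 => fun t => ∫ s in T..t, A s (PB A T x n s)

theorem PB_zero (A : ℝ → E →L[ℝ] E) (T : ℝ) (x : E) (t : ℝ) : PB A T x 0 t = x := rfl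

theorem PB_succ (A : ℝ → E →L[ℝ] E) (T : ℝ) (x : E) (n : ℕ) (t : ℝ) :
    PB A T x (n + 1) t = ∫ s in T..t, A s (PB A T x n s) := rfl

variable [CompleteSpace E] {A : ℝ → E →L[ℝ] E} {T : ℝ} {x : E}

theorem PB_continuous (hA : Continuous A) (n : ℕ) : Continuous (PB A T x n) := by
  induction n with
  | zero => exact continuous_const
  | succ n ih =>
    have hc : Continuous fun s => A s (PB A T x n s) := hA.clm_apply ih
    have hd : ∀ t, HasDerivAt (PB A T x (n + 1)) (A t (PB A T x n t)) t := fun t =>
      intervalIntegral.integral_hasDerivAt_right (hc.intervalIntegrable _ _)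
        (hc.stronglyMeasurableAtFilter _ _) hc.continuousAt
    exact continuous_iff_continuousAt.2 fun t => (hd t).continuousAt

theorem PB_deriv (hA : Continuous A) (n : ℕ) (t : ℝ) :
    HasDerivAt (PB A T x (n + 1)) (A t (PB A T x n t)) t := by
  have hc : Continuous fun s => A s (PB A T x n s) := hA.clm_apply (PB_continuous hA n)
  exact intervalIntegral.integral_hasDerivAt_right (hc.intervalIntegrable _ _)
        (hc.stronglyMeasurableAtFilter _ _) hc.continuousAt

omit [CompleteSpace E] in
theorem PB_bound {K R : ℝ} (hK : 0 ≤ K) (hAK : ∀ s, |s - T| ≤ R → ‖A s‖ ≤ K) (n : ℕ) :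
    ∀ t, |t - T| ≤ R → ‖PB A T x n t‖ ≤ ‖x‖ * ((K * |t - T|) ^ n / n.factorial) := by
  induction n with
  | zero => intro t _; simp [PB_zero]
  | succ n ih =>
    intro t ht
    rw [PB_succ]
    set c := K * ‖x‖ * K ^ n / n.factorial with hc
    have hc0 : 0 ≤ c := by positivity
    have h1 : ‖∫ s in T..t, A s (PB A T x n s)‖ ≤ |∫ s in T..t, c * |s - T| ^ n| := by
      apply intervalIntegral.norm_integral_le_abs_of_norm_le
      · filter_upwards [ae_restrict_mem measurableSet_uIoc] with s hs
        have hsT : |s - T| ≤ |t - T| := by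
          rcases le_total T t with h | h
          · rw [uIoc_of_le h] at hs
            rw [abs_of_nonneg (by linarith [hs.1]), abs_of_nonneg (by linarith)]
            linarith [hs.2]
          · rw [uIoc_of_ge h] at hs
            rw [abs_of_nonpos (by linarith [hs.2]), abs_of_nonpos (by linarith)]
            linarith [hs.1]
        have hsR := hsT.trans ht
        calc ‖A s (PB A T x n s)‖ ≤ ‖A s‖ * ‖PB A T x n s‖ := (A s).le_opNorm _
          _ ≤ K * (‖x‖ * ((K * |s - T|) ^ n / n.factorial)) := by
              gcongr
              · exact hAK s hsR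
              · exact ih s hsR
          _ = c * |s - T| ^ n := by rw [hc, mul_pow]; ring
      · apply Continuous.intervalIntegrable
        fun_prop
    refine h1.trans (le_of_eq ?_)
    rw [intervalIntegral.abs_intervalIntegral_eq, MeasureTheory.integral_const_mul,
      integral_pow_abs_sub_uIoc, abs_of_nonneg (by positivity), hc, Nat.factorial_succ, mul_pow]
    push_cast
    field_simp
    ring

theorem PB_summable {K R : ℝ} (hK : 0 ≤ K) (hAK : ∀ s, |s - T| ≤ R → ‖A s‖ ≤ K)
    {t : ℝ} (ht : |t - T| ≤ R) : Summable fun n => PB A T x n t := by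
  refine Summable.of_norm_bounded ((Real.summable_pow_div_factorial (K * |t - T|)).mul_left ‖x‖)
    fun n => PB_bound hK hAK n t ht

/-- Global existence for `y' = A(t) y`. -/
theorem linear_ode_exists (hA : Continuous A) (T : ℝ) (x : E) :
    ∃ y : ℝ → E, y T = x ∧ ∀ t, HasDerivAt y (A t (y t)) t := by
  have hbound : ∀ R : ℝ, ∃ K : ℝ, 0 ≤ K ∧ ∀ s, |s - T| ≤ R → ‖A s‖ ≤ K := by
    intro R
    obtain ⟨K, hK⟩ := (isCompact_closedBall T R).exists_bound_of_continuousOn hA.continuousOn
    refine ⟨|K|, abs_nonneg _, fun s hs => ?_⟩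
    exact (hK s (by rw [Metric.mem_closedBall, Real.dist_eq]; exact hs)).trans (le_abs_self _)
  refine ⟨fun t => ∑' n, PB A T x n t, ?_, ?_⟩
  · obtain ⟨K, hK0, hK⟩ := hbound 0
    have h0 : ∀ n, n ≠ 0 → PB A T x n T = 0 := by
      intro n hn
      obtain ⟨m, rfl⟩ := Nat.exists_eq_succ_of_ne_zero hn
      rw [Nat.succ_eq_add_one, PB_succ]
      simp
    change ∑' n, PB A T x n T = x
    rw [tsum_eq_single 0 h0, PB_zero]
  · intro t
    set R := |t - T| + 1 with hR
    obtain ⟨K, hK0, hK⟩ := hbound R
    have hRpos : 0 < R := by positivity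
    set g' : ℕ → ℝ → E := fun n s => match n with
      | 0 => 0
      | n + 1 => A s (PB A T x n s) with hg'
    set u : ℕ → ℝ := fun n => match n with
      | 0 => 0
      | n + 1 => K * (‖x‖ * ((K * R) ^ n / n.factorial)) with hu
    have husum : Summable u := by
      rw [← summable_nat_add_iff 1]
      exact ((Real.summable_pow_div_factorial (K * R)).mul_left ‖x‖).mul_left K
    have hsR : ∀ s ∈ Metric.ball T R, |s - T| ≤ R := fun s hs => by
      rw [Metric.mem_ball, Real.dist_eq] at hs
      exact hs.le
    have h1 := hasDerivAt_tsum_of_isPreconnected (g := fun n => PB A T x n) (g' := g') husum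
      Metric.isOpen_ball (convex_ball T R).isPreconnected
      (fun n s _ => by
        cases n with
        | zero => exact hasDerivAt_const _ _
        | succ n => exact PB_deriv hA n s)
      (fun n s hs => by
        cases n with
        | zero => simp [hg', hu]
        | succ n =>
          have h2 := PB_bound (x := x) hK0 hK n s (hsR s hs)
          change ‖A s (PB A T x n s)‖ ≤ K * (‖x‖ * ((K * R) ^ n / n.factorial))
          calc ‖A s (PB A T x n s)‖ ≤ ‖A s‖ * ‖PB A T x n s‖ := (A s).le_opNorm _
            _ ≤ K * (‖x‖ * ((K * |s - T|) ^ n / n.factorial)) := by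
                gcongr
                exact hK s (hsR s hs)
            _ ≤ K * (‖x‖ * ((K * R) ^ n / n.factorial)) := by
                have := hsR s hs
                gcongr)
      (Metric.mem_ball_self hRpos)
      (PB_summable hK0 hK (by simp [hRpos.le]))
      (show t ∈ Metric.ball T R by
        rw [Metric.mem_ball, Real.dist_eq, hR]; linarith)
    have htR : |t - T| ≤ R := by rw [hR]; linarith
    have hS := PB_summable (x := x) hK0 hK htR
    have e : ∑' n, g' n t = A t (∑' n, PB A T x n t) := by
      have hs' : Summable fun n => g' n t := by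
        refine Summable.of_norm_bounded husum fun n => ?_
        cases n with
        | zero => simp [hg', hu]
        | succ n =>
          have h2 := PB_bound (x := x) hK0 hK n t htR
          change ‖A t (PB A T x n t)‖ ≤ K * (‖x‖ * ((K * R) ^ n / n.factorial))
          calc ‖A t (PB A T x n t)‖ ≤ ‖A t‖ * ‖PB A T x n t‖ := (A t).le_opNorm _
            _ ≤ K * (‖x‖ * ((K * |t - T|) ^ n / n.factorial)) := by
                gcongr
                exact hK t htR
            _ ≤ K * (‖x‖ * ((K * R) ^ n / n.factorial)) := by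
                gcongr
      rw [hs'.tsum_eq_zero_add, (A t).map_tsum hS]
      simp [hg']
    rw [e] at h1
    exact h1

end

end Pool.Agent.Helper22.SAi
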