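import Pool.Agent.Helper22.SAi.Upper

/-!
Lower bound on the imaginary axis `lam = I r`: sign conditions.
-/

namespace Pool.Agent.Helper22.SAi

open Filter Topology Set MeasureTheory

section

variable {B χ χ1 : ℝ → ℝ} {M δ T : ℝ} {r : ℝ} {φ Φ : ℝ → ℂ}

theorem normR_tendsto (hl : Tendsto (SF χ (Complex.I * r) φ) atTop (𝓝 1)) :
    Tendsto (fun t => ‖φ t / (χ t : ℂ)‖) atTop (𝓝 1) := by
  have h1 := hl.norm
  rw [norm_one] at h1
  refine h1.congr fun t => ?_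
  simp only [SF]
  rw [norm_mul, Complex.norm_exp]
  simp

/-- minus the imaginary part of `conj φ * Φ` -/
noncomputable def JF (φ Φ : ℝ → ℂ) (t : ℝ) : ℝ := -(starRingEnd ℂ (φ t) * Φ t).im

theorem hasDerivAt_JF (hd : DSol B (Complex.I * r) φ Φ) (t : ℝ) :
    HasDerivAt (JF φ Φ) (-(r * ‖φ t‖ ^ 2)) t := by
  have e : JF φ Φ = fun s => -(starRingEnd ℂ (φ s) * (Φ s - (B s : ℂ) * φ s)).im := by
    funext s
    simp only [JF]
    have : starRingEnd ℂ (φ s) * (Φ s - (B s : ℂ) * φ s)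
        = starRingEnd ℂ (φ s) * Φ s - ((B s * Complex.normSq (φ s) : ℝ) : ℂ) := by
      push_cast
      rw [Complex.normSq_eq_conj_mul_self]
      ring
    rw [this, Complex.sub_im, Complex.ofReal_im, sub_zero]
  rw [e]
  have d1 : HasDerivAt (fun s => starRingEnd ℂ (φ s)) (starRingEnd ℂ (Φ t)) t := (hd.d1 t).star
  have d2 := d1.mul (hd.d2 t)
  have d3 := (Complex.imCLM.hasFDerivAt.comp_hasDerivAt t d2).neg
  refine d3.congr_deriv ?_
  simp only [Complex.imCLM_apply]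
  rw [← Complex.normSq_eq_norm_sq]
  simp [Complex.normSq_apply]
  ring

theorem JF_eq {t : ℝ} (hx : χ t ≠ 0) :
    JF φ Φ t = -(starRingEnd ℂ (φ t / (χ t : ℂ)) * Wr χ χ1 φ Φ t).im := by
  have hxc : (χ t : ℂ) ≠ 0 := by exact_mod_cast hx
  simp only [JF]
  have : starRingEnd ℂ (φ t / (χ t : ℂ)) * Wr χ χ1 φ Φ t
      = starRingEnd ℂ (φ t) * Φ t - ((χ1 t / χ t * Complex.normSq (φ t) : ℝ) : ℂ) := by
    simp only [Wr, map_div₀, Complex.conj_ofReal]
    push_cast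
    rw [Complex.normSq_eq_conj_mul_self]
    field_simp
  rw [this, Complex.sub_im, Complex.ofReal_im, sub_zero]

theorem RW_tendsto (hb : Base B χ χ1 M δ T) (hd : DSol B (Complex.I * r) φ Φ)
    (hl : Tendsto (SF χ (Complex.I * r) φ) atTop (𝓝 1)) :
    Tendsto (fun t => starRingEnd ℂ (φ t / (χ t : ℂ)) * Wr χ χ1 φ Φ t) atTop (𝓝 0) := by
  rw [tendsto_zero_iff_norm_tendsto_zero]
  have h1 := normR_tendsto hl
  have h2 := hb.W_decay hd hl 0
  simp only [zero_mul, Real.exp_zero, one_mul] at h2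
  have h3 := h1.mul h2
  rw [one_mul] at h3
  refine h3.congr fun t => ?_
  rw [norm_mul, RCLike.norm_conj]

theorem JF_tendsto (hb : Base B χ χ1 M δ T) (hd : DSol B (Complex.I * r) φ Φ)
    (hl : Tendsto (SF χ (Complex.I * r) φ) atTop (𝓝 1)) :
    Tendsto (JF φ Φ) atTop (𝓝 0) := by
  have h1 := (Complex.continuous_im.tendsto _).comp (RW_tendsto hb hd hl)
  have h2 := h1.neg
  simp only [Complex.zero_im, neg_zero] at h2
  refine h2.congr' ?_
  filter_upwards [eventually_ge_atTop T] with t ht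
  simp only [Function.comp_def]
  rw [JF_eq (hb.pos t ht).ne']

theorem JF_anti (hr : 0 < r) (hd : DSol B (Complex.I * r) φ Φ) :
    ∀ x y, x ≤ y → JF φ Φ y ≤ JF φ Φ x := fun x y hxy =>
  anti_of_deriv (f := JF φ Φ) (T := x) (fun t _ => hasDerivAt_JF hd t)
    (fun t _ => by
      have : 0 ≤ r * ‖φ t‖ ^ 2 := by positivity
      linarith) x y le_rfl hxy

theorem JF_pos (hb : Base B χ χ1 M δ T) (hr : 0 < r) (hd : DSol B (Complex.I * r) φ Φ)
    (hl : Tendsto (SF χ (Complex.I * r) φ) atTop (𝓝 1)) (t : ℝ) : 0 < JF φ Φ t := by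
  have hnn : ∀ s, 0 ≤ JF φ Φ s := by
    intro s
    refine le_of_tendsto (JF_tendsto hb hd hl) ?_
    filter_upwards [eventually_ge_atTop s] with u hu
    exact JF_anti hr hd s u hu
  have h1 : ∀ᶠ s in atTop, (1/2 : ℝ) < ‖φ s / (χ s : ℂ)‖ :=
    (normR_tendsto hl).eventually_const_lt (by norm_num)
  obtain ⟨N, hN⟩ := h1.exists_forall_of_atTop
  set s := max t (max N T) with hs
  have hst : t ≤ s := le_max_left _ _
  have hsN : N ≤ s := (le_max_left _ _).trans (le_max_right _ _)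
  have hsT : T ≤ s := (le_max_right _ _).trans (le_max_right _ _)
  obtain ⟨ξ, hξ, hξ2⟩ := exists_hasDerivAt_eq_slope (JF φ Φ) (fun t => -(r * ‖φ t‖ ^ 2))
    (show s < s + 1 by linarith)
    (fun u _ => (hasDerivAt_JF hd u).continuousAt.continuousWithinAt)
    (fun u _ => hasDerivAt_JF hd u)
  have hφ : 0 < ‖φ ξ‖ := by
    rw [norm_pos_iff]
    intro h0
    have h2 := hN ξ (hsN.trans hξ.1.le)
    rw [h0] at h2
    norm_num at h2
  have h3 : 0 < r * ‖φ ξ‖ ^ 2 := by positivity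
  have h4 : (s + 1 - s : ℝ) = 1 := by ring
  rw [h4, div_one] at hξ2
  have h5 := hnn (s + 1)
  have h6 := JF_anti hr hd t s hst
  linarith

/-- the real part of `conj R * W` -/
noncomputable def PF (χ χ1 : ℝ → ℝ) (φ Φ : ℝ → ℂ) (t : ℝ) : ℝ :=
  (starRingEnd ℂ (φ t / (χ t : ℂ)) * Wr χ χ1 φ Φ t).re

theorem hasDerivAt_PF (hb : Base B χ χ1 M δ T) (hd : DSol B (Complex.I * r) φ Φ) {t : ℝ}
    (ht : T ≤ t) : HasDerivAt (PF χ χ1 φ Φ) (‖Wr χ χ1 φ Φ t‖ ^ 2 / χ t ^ 2) t := by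
  have hx := hb.pos t ht
  have hxc : (χ t : ℂ) ≠ 0 := by exact_mod_cast hx.ne'
  have d1 : HasDerivAt (fun s => starRingEnd ℂ (φ s / (χ s : ℂ)))
      (starRingEnd ℂ (Wr χ χ1 φ Φ t / ((χ t ^ 2 : ℝ) : ℂ))) t :=
    (hasDerivAt_R hb.rsol hd hx.ne').star
  have d2 := d1.mul (hasDerivAt_Wr hb.rsol hd t)
  have d3 := Complex.reCLM.hasFDerivAt.comp_hasDerivAt t d2
  refine d3.congr_deriv ?_
  simp only [Complex.reCLM_apply]
  rw [← Complex.normSq_eq_norm_sq]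
  have e1 : starRingEnd ℂ (Wr χ χ1 φ Φ t / ((χ t ^ 2 : ℝ) : ℂ)) * Wr χ χ1 φ Φ t
      = ((Complex.normSq (Wr χ χ1 φ Φ t) / χ t ^ 2 : ℝ) : ℂ) := by
    rw [map_div₀, Complex.conj_ofReal]
    push_cast
    rw [Complex.normSq_eq_conj_mul_self]
    ring
  have e2 : starRingEnd ℂ (φ t / (χ t : ℂ)) * (Complex.I * r * ((χ t : ℂ) * φ t))
      = Complex.I * ((r * Complex.normSq (φ t) : ℝ) : ℂ) := by
    rw [map_div₀, Complex.conj_ofReal]
    push_cast
    rw [Complex.normSq_eq_conj_mul_self]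
    field_simp
  rw [e1, e2, Complex.add_re, Complex.ofReal_re, Complex.re_mul_ofReal, Complex.I_re, zero_mul,
    add_zero]

theorem PF_nonpos (hb : Base B χ χ1 M δ T) (hd : DSol B (Complex.I * r) φ Φ)
    (hl : Tendsto (SF χ (Complex.I * r) φ) atTop (𝓝 1)) {t : ℝ} (ht : T ≤ t) :
    PF χ χ1 φ Φ t ≤ 0 := by
  have h1 : Tendsto (PF χ χ1 φ Φ) atTop (𝓝 0) := by
    have := (Complex.continuous_re.tendsto _).comp (RW_tendsto hb hd hl)
    rw [Complex.zero_re] at this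
    exact this
  refine ge_of_tendsto h1 ?_
  filter_upwards [eventually_ge_atTop t] with u hu
  exact mono_of_deriv (T := T) (fun s hs => hasDerivAt_PF hb hd hs) (fun s _ => by positivity)
    t u ht hu

/-- `m = -R'/R` -/
noncomputable def mF (χ χ1 : ℝ → ℝ) (φ Φ : ℝ → ℂ) (t : ℝ) : ℂ :=
  -(Wr χ χ1 φ Φ t / ((χ t : ℂ) * φ t))

theorem phi_ne (hb : Base B χ χ1 M δ T) (hr : 0 < r) (hd : DSol B (Complex.I * r) φ Φ)
    (hl : Tendsto (SF χ (Complex.I * r) φ) atTop (𝓝 1)) (t : ℝ) : φ t ≠ 0 := by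
  intro h0
  have := JF_pos hb hr hd hl t
  simp only [JF, h0] at this
  simp at this

theorem W_ne (hb : Base B χ χ1 M δ T) (hr : 0 < r) (hd : DSol B (Complex.I * r) φ Φ)
    (hl : Tendsto (SF χ (Complex.I * r) φ) atTop (𝓝 1)) {t : ℝ} (ht : T ≤ t) :
    Wr χ χ1 φ Φ t ≠ 0 := by
  intro h0
  have := JF_pos hb hr hd hl t
  rw [JF_eq (χ1 := χ1) (hb.pos t ht).ne', h0] at this
  simp at this

theorem hasDerivAt_mF (hb : Base B χ χ1 M δ T) (hr : 0 < r) (hd : DSol B (Complex.I * r) φ Φ)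
    (hl : Tendsto (SF χ (Complex.I * r) φ) atTop (𝓝 1)) {t : ℝ} (ht : T ≤ t) :
    HasDerivAt (mF χ χ1 φ Φ) (2 * ((-(χ1 t / χ t) : ℝ) : ℂ) * mF χ χ1 φ Φ t
      + mF χ χ1 φ Φ t ^ 2 - Complex.I * r) t := by
  have hx := hb.pos t ht
  have hxc : (χ t : ℂ) ≠ 0 := by exact_mod_cast hx.ne'
  have hφ := phi_ne hb hr hd hl t
  have d1 : HasDerivAt (fun s => ((χ s : ℝ) : ℂ)) ((χ1 t : ℝ) : ℂ) t := (hb.rsol.d1 t).ofReal_comp
  have d2 := ((hasDerivAt_Wr hb.rsol hd t).div (d1.mul (hd.d1 t)) (mul_ne_zero hxc hφ)).neg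
  refine d2.congr_deriv ?_
  simp only [mF, Wr, Pi.mul_apply]
  push_cast
  field_simp
  ring

theorem mF_re_nonneg (hb : Base B χ χ1 M δ T) (hd : DSol B (Complex.I * r) φ Φ)
    (hl : Tendsto (SF χ (Complex.I * r) φ) atTop (𝓝 1)) {t : ℝ} (ht : T ≤ t) :
    0 ≤ (mF χ χ1 φ Φ t).re := by
  have hx := hb.pos t ht
  have hxc : (χ t : ℂ) ≠ 0 := by exact_mod_cast hx.ne'
  have h1 := PF_nonpos hb hd hl ht
  by_cases hφ : φ t = 0
  · simp [mF, hφ]
  have hn : 0 < Complex.normSq (φ t) := Complex.normSq_pos.2 hφ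
  have e : mF χ χ1 φ Φ t = -(starRingEnd ℂ (φ t / (χ t : ℂ)) * Wr χ χ1 φ Φ t)
      / ((Complex.normSq (φ t) : ℝ) : ℂ) := by
    rw [Complex.normSq_eq_conj_mul_self]
    have hc : starRingEnd ℂ (φ t) ≠ 0 := by simpa using hφ
    simp only [mF, map_div₀, Complex.conj_ofReal]
    field_simp
  rw [e, Complex.div_ofReal_re, Complex.neg_re]
  simp only [PF] at h1
  exact div_nonneg (by linarith) hn.le

theorem mF_im_pos (hb : Base B χ χ1 M δ T) (hr : 0 < r) (hd : DSol B (Complex.I * r) φ Φ)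
    (hl : Tendsto (SF χ (Complex.I * r) φ) atTop (𝓝 1)) {t : ℝ} (ht : T ≤ t) :
    0 < (mF χ χ1 φ Φ t).im := by
  have hx := hb.pos t ht
  have hxc : (χ t : ℂ) ≠ 0 := by exact_mod_cast hx.ne'
  have h1 := JF_pos hb hr hd hl t
  rw [JF_eq (χ1 := χ1) hx.ne'] at h1
  have hφ := phi_ne hb hr hd hl t
  have hn : 0 < Complex.normSq (φ t) := Complex.normSq_pos.2 hφ
  have e : mF χ χ1 φ Φ t = -(starRingEnd ℂ (φ t / (χ t : ℂ)) * Wr χ χ1 φ Φ t)
      / ((Complex.normSq (φ t) : ℝ) : ℂ) := by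
    rw [Complex.normSq_eq_conj_mul_self]
    have hc : starRingEnd ℂ (φ t) ≠ 0 := by simpa using hφ
    simp only [mF, map_div₀, Complex.conj_ofReal]
    field_simp
  rw [e, Complex.div_ofReal_im, Complex.neg_im]
  exact div_pos h1 hn

end

end Pool.Agent.Helper22.SAi
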