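import Pool.Agent.Helper22.SAi.LowerA

/-!
Lower bound on the imaginary axis `lam = I r`: escape arguments.
-/

namespace Pool.Agent.Helper22.SAi

open Filter Topology Set MeasureTheory

section

variable {B χ χ1 : ℝ → ℝ} {M δ T : ℝ} {r : ℝ} {φ Φ : ℝ → ℂ}

theorem p_bound (hb : Base B χ χ1 M δ T) {t : ℝ} (ht : T ≤ t) (htr : t ≤ 2 * r) :
    0 ≤ -(χ1 t / χ t) ∧ -(χ1 t / χ t) ≤ 3 * Real.sqrt r := by
  have hT1 := hb.T1
  have h1 := hb.plow t ht
  have h2 := hb.pup t ht
  have h3 := Real.sqrt_nonneg t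
  refine ⟨by linarith, ?_⟩
  have h4 : Real.sqrt t ≤ 3 / 2 * Real.sqrt r := by
    have e : 3 / 2 * Real.sqrt r = Real.sqrt (9 / 4 * r) := by
      rw [Real.sqrt_mul (by norm_num)]
      congr 1
      rw [show (9/4 : ℝ) = (3/2) ^ 2 by norm_num, Real.sqrt_sq (by norm_num)]
    rw [e]
    apply Real.sqrt_le_sqrt
    linarith
  linarith

theorem m_le (hb : Base B χ χ1 M δ T) (hr : 1 ≤ r) (hd : DSol B (Complex.I * r) φ Φ)
    (hl : Tendsto (SF χ (Complex.I * r) φ) atTop (𝓝 1)) {t1 : ℝ} (ht1 : T ≤ t1)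
    (ht1r : t1 ≤ 2 * r - 1) : ‖mF χ χ1 φ Φ t1‖ ≤ 256 * Real.sqrt r := by
  have hr0 : 0 < r := by linarith
  set s := Real.sqrt r with hs
  have hs1 : 1 ≤ s := Real.one_le_sqrt.2 hr
  have hs0 : 0 < s := by linarith
  have hs2 : s * s = r := Real.mul_self_sqrt hr0.le
  by_contra hcon
  push Not at hcon
  have hm : ∀ t ≥ T, mF χ χ1 φ Φ t ≠ 0 := by
    intro t ht h0
    have := mF_im_pos hb hr0 hd hl ht
    rw [h0] at this
    simp at this
  set w : ℝ → ℂ := fun t => (mF χ χ1 φ Φ t)⁻¹ with hw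
  set p : ℝ → ℝ := fun t => -(χ1 t / χ t) with hp
  set w' : ℝ → ℂ := fun t => -(2 * (p t : ℂ) * w t) - 1 + Complex.I * r * w t ^ 2 with hw'
  have hwd : ∀ t ≥ T, HasDerivAt w (w' t) t := by
    intro t ht
    refine ((hasDerivAt_mF hb hr0 hd hl ht).inv (hm t ht)).congr_deriv ?_
    have := hm t ht
    simp only [hw', hw, hp]
    field_simp
    ring
  have hw1 : ‖w t1‖ < 1 / (256 * s) := by
    simp only [hw]
    rw [norm_inv, ← one_div]
    exact one_div_lt_one_div_of_lt (by positivity) hcon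
  set h := 1 / (64 * s) with hh
  have hh0 : 0 < h := by positivity
  have hh1 : h ≤ 1 := by
    rw [hh, div_le_one (by positivity)]
    linarith
  have hrange : ∀ t ∈ Icc t1 (t1 + h), T ≤ t ∧ t ≤ 2 * r := fun t ht =>
    ⟨ht1.trans ht.1, by linarith [ht.2]⟩
  -- size of w'+1
  have hest : ∀ t ∈ Icc t1 (t1 + h), ‖w t‖ ≤ 9 / (256 * s) → ‖w' t + 1‖ ≤ 1 / 4 := by
    intro t ht hwt
    obtain ⟨g1, g2⟩ := hrange t ht
    obtain ⟨p1, p2⟩ := p_bound hb g1 g2
    have e : w' t + 1 = -(2 * (p t : ℂ) * w t) + Complex.I * r * w t ^ 2 := by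
      simp only [hw']; ring
    rw [e]
    refine (norm_add_le _ _).trans ?_
    rw [norm_neg, norm_mul, norm_mul, norm_mul, norm_mul, norm_pow, Complex.norm_real,
      Complex.norm_real, Complex.norm_I, Real.norm_eq_abs, Real.norm_eq_abs, abs_of_nonneg p1,
      abs_of_pos hr0, ← hs2]
    simp only [Complex.norm_ofNat, one_mul]
    have hwn := norm_nonneg (w t)
    have h1 : 2 * p t * ‖w t‖ ≤ 2 * (3 * s) * (9 / (256 * s)) := by gcongr
    have h2 : s * s * ‖w t‖ ^ 2 ≤ s * s * (9 / (256 * s)) ^ 2 := by gcongr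
    have h3 : 2 * (3 * s) * (9 / (256 * s)) = 54 / 256 := by field_simp; norm_num
    have h4 : s * s * (9 / (256 * s)) ^ 2 = 81 / 65536 := by field_simp; norm_num
    rw [h3] at h1
    rw [h4] at h2
    linarith
  -- smallness of w on the interval
  have hB : 1 / (256 * s) + 2 * h = 9 / (256 * s) := by
    rw [hh]; field_simp; norm_num
  have hwsmall : ∀ t ∈ Icc t1 (t1 + h), ‖w t‖ ≤ 1 / (256 * s) + 2 * (t - t1) := by
    intro t ht
    refine image_norm_le_of_norm_deriv_right_lt_deriv_boundary (f := w) (f' := w')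
      (a := t1) (b := t1 + h) (B := fun t => 1 / (256 * s) + 2 * (t - t1)) (B' := fun _ => 2)
      (fun u hu => (hwd u (hrange u hu).1).continuousAt.continuousWithinAt)
      (fun u hu => (hwd u (hrange u (Ico_subset_Icc_self hu)).1).hasDerivWithinAt)
      (by simp only [sub_self, mul_zero, add_zero]; exact hw1.le)
      (fun u => by
        have := (((hasDerivAt_id u).sub_const t1).const_mul 2).const_add (1 / (256 * s))
        simpa using this)
      (fun u hu hEq => ?_) ht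
    have hu' := Ico_subset_Icc_self hu
    have h1 : ‖w u‖ ≤ 9 / (256 * s) := by
      rw [hEq]
      linarith [hu.2, hB]
    have h2 := hest u hu' h1
    have h3 : ‖w' u‖ ≤ ‖w' u + 1‖ + 1 := by
      have := norm_sub_le (w' u + 1) 1
      simp only [add_sub_cancel_right, norm_one] at this
      exact this
    linarith
  -- real part decreases
  have hre := mono_of_deriv_Icc (f := fun t => -(w t).re - t / 2) (f' := fun t => -(w' t).re - 1 / 2)
    (a := t1) (b := t1 + h)
    (fun t ht => by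
      have d1 := Complex.reCLM.hasFDerivAt.comp_hasDerivAt t (hwd t (hrange t ht).1)
      simp only [Complex.reCLM_apply] at d1
      exact d1.neg.sub ((hasDerivAt_id t).div_const 2))
    (fun t ht => by
      have h1 : ‖w t‖ ≤ 9 / (256 * s) := (hwsmall t ht).trans (by linarith [ht.2, hB])
      have h2 := hest t ht h1
      have h3 := (abs_le.1 ((Complex.abs_re_le_norm (w' t + 1)).trans h2)).2
      simp only [Complex.add_re, Complex.one_re] at h3
      linarith) t1 (t1 + h) le_rfl (by linarith) le_rfl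
  have hw1re : (w t1).re ≤ 1 / (256 * s) := (Complex.re_le_norm _).trans hw1.le
  have hfin : (w (t1 + h)).re < 0 := by
    have : 1 / (256 * s) - h / 2 < 0 := by
      have : h / 2 = 2 * (1 / (256 * s)) := by rw [hh]; field_simp; norm_num
      have h5 : 0 < 1 / (256 * s) := by positivity
      linarith
    linarith
  have hnn : 0 ≤ (w (t1 + h)).re := by
    simp only [hw]
    rw [Complex.inv_re]
    exact div_nonneg (mF_re_nonneg hb hd hl (by linarith)) (Complex.normSq_nonneg _)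
  linarith

theorem hasDerivAt_mF_im (hb : Base B χ χ1 M δ T) (hr : 0 < r) (hd : DSol B (Complex.I * r) φ Φ)
    (hl : Tendsto (SF χ (Complex.I * r) φ) atTop (𝓝 1)) {t : ℝ} (ht : T ≤ t) :
    HasDerivAt (fun t => (mF χ χ1 φ Φ t).im) (2 * (-(χ1 t / χ t)) * (mF χ χ1 φ Φ t).im
      + 2 * (mF χ χ1 φ Φ t).re * (mF χ χ1 φ Φ t).im - r) t := by
  have d1 := Complex.imCLM.hasFDerivAt.comp_hasDerivAt t (hasDerivAt_mF hb hr hd hl ht)
  simp only [Complex.imCLM_apply] at d1
  refine d1.congr_deriv ?_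
  simp [pow_two]
  ring

theorem hasDerivAt_mF_re (hb : Base B χ χ1 M δ T) (hr : 0 < r) (hd : DSol B (Complex.I * r) φ Φ)
    (hl : Tendsto (SF χ (Complex.I * r) φ) atTop (𝓝 1)) {t : ℝ} (ht : T ≤ t) :
    HasDerivAt (fun t => (mF χ χ1 φ Φ t).re) (2 * (-(χ1 t / χ t)) * (mF χ χ1 φ Φ t).re
      + (mF χ χ1 φ Φ t).re ^ 2 - (mF χ χ1 φ Φ t).im ^ 2) t := by
  have d1 := Complex.reCLM.hasFDerivAt.comp_hasDerivAt t (hasDerivAt_mF hb hr hd hl ht)
  simp only [Complex.reCLM_apply] at d1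
  refine d1.congr_deriv ?_
  simp [pow_two]
  ring

theorem j_ge (hb : Base B χ χ1 M δ T) (hr : 1 ≤ r) (hd : DSol B (Complex.I * r) φ Φ)
    (hl : Tendsto (SF χ (Complex.I * r) φ) atTop (𝓝 1)) {t1 : ℝ} (ht1 : T ≤ t1)
    (ht1r : t1 ≤ 2 * r - 2) : 1 / 2048 * Real.sqrt r ≤ (mF χ χ1 φ Φ t1).im := by
  have hr0 : 0 < r := by linarith
  set s := Real.sqrt r with hs
  have hs1 : 1 ≤ s := Real.one_le_sqrt.2 hr
  have hs0 : 0 < s := by linarith
  have hs2 : s * s = r := Real.mul_self_sqrt hr0.le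
  by_contra hcon
  push Not at hcon
  set h := 3 / 2048 / s with hh
  have hh0 : 0 < h := by positivity
  have hh1 : h ≤ 1 := by
    rw [hh, div_le_one hs0]
    linarith
  have h1 := escape (f := fun t => (mF χ χ1 φ Φ t).im) (f' := fun t => 2 * (-(χ1 t / χ t)) *
      (mF χ χ1 φ Φ t).im + 2 * (mF χ χ1 φ Φ t).re * (mF χ χ1 φ Φ t).im - r)
      (κ := 1 / 2048 * s) (ρ := r / 2) (a := t1) (b := t1 + h)
      (by linarith) (by linarith)
      (fun t ht => hasDerivAt_mF_im hb hr0 hd hl (ht1.trans ht.1)) hcon.le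
      (fun t ht hle => by
        have g1 : T ≤ t := ht1.trans ht.1
        have g2 : t ≤ 2 * r - 1 := by linarith [ht.2]
        have hj := mF_im_pos hb hr0 hd hl g1
        have hn := mF_re_nonneg hb hd hl g1
        have hm := m_le hb hr hd hl g1 g2
        rw [← hs] at hm
        have hn2 : (mF χ χ1 φ Φ t).re ≤ 256 * s := (Complex.re_le_norm _).trans hm
        obtain ⟨p1, p2⟩ := p_bound hb g1 (by linarith : t ≤ 2 * r)
        rw [← hs] at p2
        have k1 : (-(χ1 t / χ t)) * (mF χ χ1 φ Φ t).im ≤ (3 * s) * (1 / 2048 * s) :=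
          mul_le_mul p2 hle hj.le (by positivity)
        have k2 : (mF χ χ1 φ Φ t).re * (mF χ χ1 φ Φ t).im ≤ (256 * s) * (1 / 2048 * s) :=
          mul_le_mul hn2 hle hj.le (by positivity)
        rw [← hs2]
        nlinarith [mul_pos hs0 hs0])
  have h2 := mF_im_pos hb hr0 hd hl (show T ≤ t1 + h by linarith)
  have h3 : r / 2 * (t1 + h - t1) = 3 / 4096 * s := by
    rw [← hs2, hh]
    field_simp
    norm_num
  rw [h3] at h1
  linarith

theorem n_ge (hb : Base B χ χ1 M δ T) (hr : 1 ≤ r) (hd : DSol B (Complex.I * r) φ Φ)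
    (hl : Tendsto (SF χ (Complex.I * r) φ) atTop (𝓝 1)) {t1 : ℝ} (ht1 : T ≤ t1)
    (ht1r : t1 ≤ 2 * r - 3) : 1 / 67108864 * Real.sqrt r ≤ (mF χ χ1 φ Φ t1).re := by
  have hr0 : 0 < r := by linarith
  set s := Real.sqrt r with hs
  have hs1 : 1 ≤ s := Real.one_le_sqrt.2 hr
  have hs0 : 0 < s := by linarith
  have hs2 : s * s = r := Real.mul_self_sqrt hr0.le
  by_contra hcon
  push Not at hcon
  set h := 1 / s with hh
  have hh0 : 0 < h := by positivity
  have hh1 : h ≤ 1 := by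
    rw [hh, div_le_one hs0]
    linarith
  have h1 := escape (f := fun t => (mF χ χ1 φ Φ t).re) (f' := fun t => 2 * (-(χ1 t / χ t)) *
      (mF χ χ1 φ Φ t).re + (mF χ χ1 φ Φ t).re ^ 2 - (mF χ χ1 φ Φ t).im ^ 2)
      (κ := 1 / 67108864 * s) (ρ := 1 / 16777216 * r) (a := t1) (b := t1 + h)
      (by linarith) (by positivity)
      (fun t ht => hasDerivAt_mF_re hb hr0 hd hl (ht1.trans ht.1)) hcon.le
      (fun t ht hle => by
        have g1 : T ≤ t := ht1.trans ht.1
        have g2 : t ≤ 2 * r - 2 := by linarith [ht.2]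
        have hj := j_ge hb hr hd hl g1 g2
        rw [← hs] at hj
        have hn := mF_re_nonneg hb hd hl g1
        obtain ⟨p1, p2⟩ := p_bound hb g1 (by linarith : t ≤ 2 * r)
        rw [← hs] at p2
        have k1 : (-(χ1 t / χ t)) * (mF χ χ1 φ Φ t).re ≤ (3 * s) * (1 / 67108864 * s) :=
          mul_le_mul p2 hle hn (by positivity)
        have k2 : (mF χ χ1 φ Φ t).re ^ 2 ≤ (1 / 67108864 * s) ^ 2 :=
          pow_le_pow_left₀ hn hle 2
        have k3 : (1 / 2048 * s) ^ 2 ≤ (mF χ χ1 φ Φ t).im ^ 2 :=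
          pow_le_pow_left₀ (by positivity) hj 2
        rw [← hs2]
        nlinarith [mul_pos hs0 hs0])
  have h2 := mF_re_nonneg hb hd hl (show T ≤ t1 + h by linarith)
  have h3 : 1 / 16777216 * r * (t1 + h - t1) = 1 / 16777216 * s := by
    rw [← hs2, hh]
    field_simp
    try ring
  rw [h3] at h1
  linarith

end

end Pool.Agent.Helper22.SAi
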