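import Pool.Agent.Helper22.SAi.LowerB

/-!
Lower bound on the imaginary axis `lam = I r`: conclusion.
-/

namespace Pool.Agent.Helper22.SAi

open Filter Topology Set MeasureTheory

section

variable {B χ χ1 : ℝ → ℝ} {M δ T : ℝ} {r : ℝ} {φ Φ : ℝ → ℂ}

/-- squared modulus of the ratio -/
noncomputable def yF (χ : ℝ → ℝ) (φ : ℝ → ℂ) (t : ℝ) : ℝ := ‖φ t / (χ t : ℂ)‖ ^ 2

theorem hasDerivAt_yF (hb : Base B χ χ1 M δ T) (hr : 0 < r) (hd : DSol B (Complex.I * r) φ Φ)
    (hl : Tendsto (SF χ (Complex.I * r) φ) atTop (𝓝 1)) {t : ℝ} (ht : T ≤ t) :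
    HasDerivAt (yF χ φ) (-(2 * (mF χ χ1 φ Φ t).re) * yF χ φ t) t := by
  have hx := hb.pos t ht
  have hxc : (χ t : ℂ) ≠ 0 := by exact_mod_cast hx.ne'
  have hφ := phi_ne hb hr hd hl t
  have d1 := (hasDerivAt_R hb.rsol hd hx.ne').norm_sq
  refine d1.congr_deriv ?_
  rw [Complex.inner]
  have e1 : Wr χ χ1 φ Φ t / ((χ t ^ 2 : ℝ) : ℂ) = -(mF χ χ1 φ Φ t) * (φ t / (χ t : ℂ)) := by
    simp only [mF]
    push_cast
    field_simp
  rw [e1]
  have e2 : starRingEnd ℂ (φ t / (χ t : ℂ)) * (-(mF χ χ1 φ Φ t) * (φ t / (χ t : ℂ)))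
      = -(((Complex.normSq (φ t / (χ t : ℂ)) : ℝ) : ℂ) * mF χ χ1 φ Φ t) := by
    rw [Complex.normSq_eq_conj_mul_self]; ring
  have e3 : -(mF χ χ1 φ Φ t) * (φ t / (χ t : ℂ)) * starRingEnd ℂ (φ t / (χ t : ℂ))
      = -(((Complex.normSq (φ t / (χ t : ℂ)) : ℝ) : ℂ) * mF χ χ1 φ Φ t) := by
    rw [Complex.normSq_eq_conj_mul_self]; ring
  first
    | rw [e2]
    | rw [e3]
  rw [Complex.neg_re, Complex.re_ofReal_mul, Complex.normSq_eq_norm_sq]
  simp only [yF]
  ring

theorem yF_ge_one (hb : Base B χ χ1 M δ T) (hr : 0 < r) (hd : DSol B (Complex.I * r) φ Φ)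
    (hl : Tendsto (SF χ (Complex.I * r) φ) atTop (𝓝 1)) {t : ℝ} (ht : T ≤ t) :
    1 ≤ yF χ φ t := by
  have h1 : Tendsto (yF χ φ) atTop (𝓝 1) := by
    have := (normR_tendsto hl).pow 2
    rw [one_pow] at this
    exact this
  refine le_of_tendsto h1 ?_
  filter_upwards [eventually_ge_atTop t] with u hu
  exact anti_of_deriv (T := T) (fun s hs => hasDerivAt_yF hb hr hd hl hs) (fun s hs => by
    have h2 := mF_re_nonneg hb hd hl hs
    have h3 : 0 ≤ yF χ φ s := by simp only [yF]; positivity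
    nlinarith [mul_nonneg h2 h3]) t u ht hu

theorem yF_T_ge (hb : Base B χ χ1 M δ T) (hr : 3 ≤ r) (hTr : T ≤ r)
    (hd : DSol B (Complex.I * r) φ Φ)
    (hl : Tendsto (SF χ (Complex.I * r) φ) atTop (𝓝 1)) :
    Real.exp (2 * (1 / 67108864) * Real.sqrt r * (r - T)) ≤ yF χ φ T := by
  have hr0 : 0 < r := by linarith
  set s := Real.sqrt r with hs
  set c := 2 * (1 / 67108864) * s with hc
  have h1 := mono_of_deriv_Icc (f := fun t => -(yF χ φ t * Real.exp (c * t)))
    (f' := fun t => -((-(2 * (mF χ χ1 φ Φ t).re) * yF χ φ t) * Real.exp (c * t)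
      + yF χ φ t * (Real.exp (c * t) * (c * 1))))
    (a := T) (b := r)
    (fun t ht => ((hasDerivAt_yF hb hr0 hd hl ht.1).mul
      (((hasDerivAt_id t).const_mul c).exp)).neg)
    (fun t ht => by
      have h2 := n_ge hb (by linarith) hd hl ht.1 (by linarith [ht.2])
      rw [← hs] at h2
      have h3 : 0 ≤ yF χ φ t * Real.exp (c * t) := by simp only [yF]; positivity
      have h4 : 0 ≤ (2 * (mF χ χ1 φ Φ t).re - c) * (yF χ φ t * Real.exp (c * t)) := by
        apply mul_nonneg _ h3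
        rw [hc]
        linarith
      nlinarith)
    T r le_rfl hTr le_rfl
  have h5 := yF_ge_one hb hr0 hd hl hTr
  have h6 : Real.exp (c * r) ≤ yF χ φ T * Real.exp (c * T) := by
    have h7 : yF χ φ r * Real.exp (c * r) ≤ yF χ φ T * Real.exp (c * T) := by linarith
    have h8 := Real.exp_pos (c * r)
    nlinarith
  have e : Real.exp (c * (r - T)) = Real.exp (c * r) / Real.exp (c * T) := by
    rw [← Real.exp_sub]; congr 1; ring
  rw [e, div_le_iff₀ (Real.exp_pos _)]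
  exact h6

theorem yF_near (hb : Base B χ χ1 M δ T) (hr : 3 ≤ r) (hTr : T ≤ r)
    (hd : DSol B (Complex.I * r) φ Φ)
    (hl : Tendsto (SF χ (Complex.I * r) φ) atTop (𝓝 1)) :
    ∀ u ∈ Icc T (T + 1), yF χ φ T * Real.exp (-(512 * Real.sqrt r)) ≤ yF χ φ u := by
  intro u hu
  have hr0 : 0 < r := by linarith
  set s := Real.sqrt r with hs
  have hs0 : 0 ≤ s := Real.sqrt_nonneg _
  set c := 512 * s with hc
  have h1 := mono_of_deriv_Icc (f := fun t => (yF χ φ t * Real.exp (c * t)))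
    (f' := fun t => ((-(2 * (mF χ χ1 φ Φ t).re) * yF χ φ t) * Real.exp (c * t)
      + yF χ φ t * (Real.exp (c * t) * (c * 1))))
    (a := T) (b := T + 1)
    (fun t ht => ((hasDerivAt_yF hb hr0 hd hl ht.1).mul
      (((hasDerivAt_id t).const_mul c).exp)))
    (fun t ht => by
      have h2 := m_le hb (by linarith) hd hl ht.1 (by linarith [ht.2])
      rw [← hs] at h2
      have h2' := (Complex.re_le_norm (mF χ χ1 φ Φ t)).trans h2
      have h3 : 0 ≤ yF χ φ t * Real.exp (c * t) := by simp only [yF]; positivity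
      have h4 : 0 ≤ (c - 2 * (mF χ χ1 φ Φ t).re) * (yF χ φ t * Real.exp (c * t)) := by
        apply mul_nonneg _ h3
        rw [hc]
        linarith
      nlinarith)
    T u le_rfl hu.1 hu.2
  have e : Real.exp (c * T) = Real.exp (c * u) * Real.exp (-(c * (u - T))) := by
    rw [← Real.exp_add]; congr 1; ring
  have h5 : yF χ φ T * (Real.exp (c * u) * Real.exp (-(c * (u - T)))) ≤ yF χ φ u * Real.exp (c * u) := by
    rw [← e]; exact h1
  have h6 : yF χ φ T * Real.exp (-(c * (u - T))) ≤ yF χ φ u := by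
    have h7 := Real.exp_pos (c * u)
    have h8 : (yF χ φ T * Real.exp (-(c * (u - T)))) * Real.exp (c * u)
        ≤ yF χ φ u * Real.exp (c * u) := by
      calc _ = yF χ φ T * (Real.exp (c * u) * Real.exp (-(c * (u - T)))) := by ring
        _ ≤ _ := h5
    exact le_of_mul_le_mul_right h8 h7
  refine le_trans ?_ h6
  have h9 : 0 ≤ yF χ φ T := by simp only [yF]; positivity
  apply mul_le_mul_of_nonneg_left _ h9
  apply Real.exp_le_exp.2
  have : c * (u - T) ≤ c * 1 := mul_le_mul_of_nonneg_left (by linarith [hu.2]) (by positivity)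
  linarith

theorem lower (hb : Base B χ χ1 M δ T) (t0 : ℝ) (ht0 : t0 ≤ T) :
    ∃ C : ℝ, ∀ (r : ℝ) (φ Φ : ℝ → ℂ), 3 ≤ r → T ≤ r → DSol B (Complex.I * r) φ Φ →
      Tendsto (SF χ (Complex.I * r) φ) atTop (𝓝 1) →
      Real.exp (1 / 67108864 * (r * Real.sqrt r) - C * r) ≤ ‖φ t0‖ := by
  obtain ⟨K, hK0, hK⟩ := transfer hb.cont t0 T ht0
  have hT1 := hb.T1
  have hx := hb.pos T le_rfl
  have hx1 := hb.pos (T + 1) (by linarith)
  set κ0 := χ (T + 1) ^ 2 / (260 * χ T) with hκ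
  have hκ0 : 0 < κ0 := by positivity
  refine ⟨T + 512 + 2 * K + |Real.log κ0|, fun r φ Φ hr hTr hd hl => ?_⟩
  have hr0 : 0 < r := by linarith
  set s := Real.sqrt r with hs
  have hs1 : 1 ≤ s := Real.one_le_sqrt.2 (by linarith)
  have hs0 : 0 < s := by linarith
  have hs2 : s * s = r := Real.mul_self_sqrt hr0.le
  have hsr : s ≤ r := by nlinarith
  have hxc : (χ T : ℂ) ≠ 0 := by exact_mod_cast hx.ne'
  -- the modulus of the ratio at T
  set a := ‖φ T / (χ T : ℂ)‖ with ha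
  have hya : yF χ φ T = a ^ 2 := rfl
  have ha1 : 1 ≤ a := by
    have h1 := yF_ge_one hb hr0 hd hl (le_refl T)
    rw [hya] at h1
    nlinarith [norm_nonneg (φ T / (χ T : ℂ))]
  have ha0 : 0 < a := by linarith
  have haexp : Real.exp (1 / 67108864 * s * (r - T)) ≤ a := by
    have h1 := yF_T_ge hb hr hTr hd hl
    rw [← hs, hya] at h1
    have h2 : Real.exp (2 * (1 / 67108864) * s * (r - T)) = Real.exp (1 / 67108864 * s * (r - T)) ^ 2 := by
      rw [pow_two, ← Real.exp_add]; congr 1; ring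
    rw [h2] at h1
    exact (pow_le_pow_iff_left₀ (Real.exp_pos _).le ha0.le two_ne_zero).1 h1
  have hφT : ‖φ T‖ = χ T * a := by
    have : φ T = (χ T : ℂ) * (φ T / (χ T : ℂ)) := by field_simp
    rw [this, norm_mul, Complex.norm_real, Real.norm_eq_abs, abs_of_pos hx]
  -- bound of Φ T
  have hΦT : ‖Φ T‖ ≤ 259 * s * ‖φ T‖ := by
    have hφ := phi_ne hb hr0 hd hl T
    have e : Φ T = -(mF χ χ1 φ Φ T + ((-(χ1 T / χ T) : ℝ) : ℂ)) * φ T := by
      simp only [mF, Wr]
      push_cast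
      field_simp
      ring
    rw [e, norm_mul, norm_neg]
    apply mul_le_mul_of_nonneg_right _ (norm_nonneg _)
    have h1 := m_le hb (by linarith) hd hl (le_refl T) (by linarith)
    rw [← hs] at h1
    obtain ⟨p1, p2⟩ := p_bound hb (le_refl T) (by linarith : T ≤ 2 * r)
    rw [← hs] at p2
    refine (norm_add_le _ _).trans ?_
    rw [Complex.norm_real, Real.norm_eq_abs, abs_of_nonneg p1]
    linarith
  have hΦ0 : ‖Φ t0‖ ≤ Real.exp (K * (1 + r)) * ((1 + 259 * s) * (χ T * a)) := by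
    have h1 := hK _ φ Φ hd
    have h2 : ‖Complex.I * (r : ℂ)‖ = r := by
      rw [norm_mul, Complex.norm_I, one_mul, Complex.norm_real, Real.norm_eq_abs, abs_of_pos hr0]
    rw [h2] at h1
    have h3 := norm_nonneg (φ t0)
    refine le_trans (by linarith) (h1.trans ?_)
    apply mul_le_mul_of_nonneg_left _ (Real.exp_pos _).le
    rw [← hφT]
    linarith
  -- lower bound of J
  have hJ : r * (χ (T + 1) ^ 2 * (a ^ 2 * Real.exp (-(512 * s)))) ≤ JF φ Φ t0 := by
    refine le_trans ?_ (JF_anti hr0 hd t0 T ht0)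
    obtain ⟨ξ, hξ, hξ2⟩ := exists_hasDerivAt_eq_slope (JF φ Φ) (fun t => -(r * ‖φ t‖ ^ 2))
      (show T < T + 1 by linarith)
      (fun u _ => (hasDerivAt_JF hd u).continuousAt.continuousWithinAt)
      (fun u _ => hasDerivAt_JF hd u)
    have h4 : (T + 1 - T : ℝ) = 1 := by ring
    rw [h4, div_one] at hξ2
    have h5 := JF_pos hb hr0 hd hl (T + 1)
    have h6 := yF_near hb hr hTr hd hl ξ ⟨hξ.1.le, hξ.2.le⟩
    rw [← hs, hya] at h6
    have hxξ := hb.pos ξ hξ.1.le
    have hxξc : (χ ξ : ℂ) ≠ 0 := by exact_mod_cast hxξ.ne'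
    have h7 : ‖φ ξ‖ ^ 2 = χ ξ ^ 2 * yF χ φ ξ := by
      have : φ ξ = (χ ξ : ℂ) * (φ ξ / (χ ξ : ℂ)) := by field_simp
      rw [this, norm_mul, Complex.norm_real, Real.norm_eq_abs, mul_pow, sq_abs]
      simp only [yF]
    have h8 : χ (T + 1) ^ 2 ≤ χ ξ ^ 2 := by
      refine anti_of_deriv (f := fun s => χ s ^ 2)
        (f' := fun t => (-(2 * (-(χ1 t / χ t)) * χ t ^ 2))) (T := T)
        (fun r hr => hb.rsol.hasDerivAt_sq (hb.pos r hr).ne')
        (fun r hr => by
          have h1 := hb.plow r hr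
          have h2 := Real.sqrt_nonneg r
          have h3 : 0 ≤ 2 * (-(χ1 r / χ r)) * χ r ^ 2 :=
            mul_nonneg (by linarith) (sq_nonneg _)
          linarith) ξ (T + 1) hξ.1.le hξ.2.le
    have h9 : χ (T + 1) ^ 2 * (a ^ 2 * Real.exp (-(512 * s))) ≤ ‖φ ξ‖ ^ 2 := by
      rw [h7]
      exact mul_le_mul h8 h6 (by positivity) (by positivity)
    have h10 := mul_le_mul_of_nonneg_left h9 hr0.le
    linarith
  have hJle : JF φ Φ t0 ≤ ‖φ t0‖ * ‖Φ t0‖ := by
    simp only [JF]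
    refine (neg_le_abs _).trans ((Complex.abs_im_le_norm _).trans ?_)
    rw [norm_mul, RCLike.norm_conj]
  -- combine
  have hcomb : r * (χ (T + 1) ^ 2 * (a ^ 2 * Real.exp (-(512 * s))))
      ≤ ‖φ t0‖ * (Real.exp (K * (1 + r)) * ((1 + 259 * s) * (χ T * a))) :=
    hJ.trans (hJle.trans (mul_le_mul_of_nonneg_left hΦ0 (norm_nonneg _)))
  have hn0 := norm_nonneg (φ t0)
  have hcomb2 : r * (χ (T + 1) ^ 2 * (a ^ 2 * Real.exp (-(512 * s))))
      ≤ ‖φ t0‖ * (Real.exp (K * (1 + r)) * ((260 * r) * (χ T * a))) := by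
    refine hcomb.trans ?_
    gcongr
    linarith
  have hcomb3 : χ (T + 1) ^ 2 * (a * Real.exp (-(512 * s)))
      ≤ ‖φ t0‖ * (Real.exp (K * (1 + r)) * (260 * χ T)) := by
    have h1 : (r * a) * (χ (T + 1) ^ 2 * (a * Real.exp (-(512 * s))))
      ≤ (r * a) * (‖φ t0‖ * (Real.exp (K * (1 + r)) * (260 * χ T))) := by
      calc _ = r * (χ (T + 1) ^ 2 * (a ^ 2 * Real.exp (-(512 * s)))) := by ring
        _ ≤ _ := hcomb2
        _ = _ := by ring
    exact le_of_mul_le_mul_left h1 (by positivity)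
  have hcomb4 : κ0 * Real.exp (1 / 67108864 * s * (r - T) - 512 * s - K * (1 + r)) ≤ ‖φ t0‖ := by
    have e : Real.exp (1 / 67108864 * s * (r - T) - 512 * s - K * (1 + r))
        = Real.exp (1 / 67108864 * s * (r - T)) * Real.exp (-(512 * s)) / Real.exp (K * (1 + r)) := by
      rw [← Real.exp_add, ← Real.exp_sub]; congr 1
    rw [e, hκ, div_mul_div_comm, div_le_iff₀ (by positivity)]
    calc χ (T + 1) ^ 2 * (Real.exp (1 / 67108864 * s * (r - T)) * Real.exp (-(512 * s)))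
        ≤ χ (T + 1) ^ 2 * (a * Real.exp (-(512 * s))) := by gcongr
      _ ≤ _ := hcomb3
      _ = _ := by ring
  refine le_trans ?_ hcomb4
  have hlog : Real.exp (-|Real.log κ0|) ≤ κ0 := by
    calc Real.exp (-|Real.log κ0|) ≤ Real.exp (Real.log κ0) :=
          Real.exp_le_exp.2 (neg_abs_le _)
      _ = κ0 := Real.exp_log hκ0
  calc Real.exp (1 / 67108864 * (r * s) - (T + 512 + 2 * K + |Real.log κ0|) * r)
      ≤ Real.exp (-|Real.log κ0| + (1 / 67108864 * s * (r - T) - 512 * s - K * (1 + r))) := by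
        apply Real.exp_le_exp.2
        have hT0 : 0 ≤ T := by linarith
        have i1 : s * T ≤ r * T := mul_le_mul_of_nonneg_right hsr hT0
        have i2 : |Real.log κ0| ≤ |Real.log κ0| * r := by
          have := abs_nonneg (Real.log κ0)
          nlinarith
        have i3 : K * (1 + r) ≤ 2 * K * r := by nlinarith
        have i4 : 0 ≤ r * T := by positivity
        nlinarith
    _ = Real.exp (-|Real.log κ0|) * Real.exp (1 / 67108864 * s * (r - T) - 512 * s - K * (1 + r)) := by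
        rw [Real.exp_add]
    _ ≤ _ := by gcongr

end

end Pool.Agent.Helper22.SAi
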