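import Pool.Agent.Helper22.SAi.Barrier

/-!
The quotient of two solutions: basic identities and decay of the Wronskian.
-/

namespace Pool.Agent.Helper22.SAi

open Filter Topology Set MeasureTheory

/-- The data of the reference solution at `lam = 0`. -/
structure Base (B χ χ1 : ℝ → ℝ) (M δ T : ℝ) : Prop where
  cont : Continuous B
  rsol : RSol B χ χ1
  T1 : 16 ≤ T
  dpos : 0 < δ
  dle : δ ≤ 1 / 2
  Mnn : 0 ≤ M
  pos : ∀ t ≥ T, 0 < χ t
  pest : ∀ t ≥ T, |-(χ1 t / χ t) - Real.sqrt t| ≤ M * t ^ (-δ)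
  plow : ∀ t ≥ T, 3 / 4 * Real.sqrt t ≤ -(χ1 t / χ t)
  pup : ∀ t ≥ T, -(χ1 t / χ t) ≤ 2 * Real.sqrt t

theorem base_of_pathReg {B : ℝ → ℝ} {C δ : ℝ} (hB : PathReg B C δ) {χ χ1 : ℝ → ℝ}
    (hs : RSol B χ χ1) {T0 Cχ : ℝ} (hpos : ∀ t ≥ T0, 0 < χ t) (hbd : ∀ t ≥ T0, χ t ≤ Cχ)
    (T' : ℝ) : ∃ T ≥ T', Base B χ χ1 (3 * C + 1) δ T := by
  obtain ⟨T1, hT1, h1⟩ := barrier hB hs (T0 := max T0 1) (le_max_right _ _)
    (fun t ht => hpos t ((le_max_left _ _).trans ht))
    (fun t ht => hbd t ((le_max_left _ _).trans ht))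
  have hC := hB.Cnn
  set M := 3 * C + 1 with hM
  have hM0 : 0 < M := by rw [hM]; linarith
  set T := max (max T1 T') (max 16 ((4 * M) ^ 2)) with hT
  have hTT1 : T1 ≤ T := (le_max_left _ _).trans (le_max_left _ _)
  have hT16 : 16 ≤ T := (le_max_left _ _).trans (le_max_right _ _)
  have hTM : (4 * M) ^ 2 ≤ T := (le_max_right _ _).trans (le_max_right _ _)
  have hest : ∀ t ≥ T, |-(χ1 t / χ t) - Real.sqrt t| ≤ 1 / 4 * Real.sqrt t := by
    intro t ht
    refine (h1 t (hTT1.trans ht)).trans ?_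
    have h2 : t ^ (-δ) ≤ 1 := rpow_neg_le_one (by linarith) hB.dpos.le
    have h3 : 4 * M ≤ Real.sqrt t := Real.le_sqrt_of_sq_le (hTM.trans ht)
    nlinarith
  refine ⟨T, (le_max_right _ _).trans (le_max_left _ _), hB.cont, hs, hT16, hB.dpos, hB.dle,
    hM0.le, ?_, ?_, ?_, ?_⟩
  · intro t ht
    exact hpos t ((le_max_left _ _).trans (hT1.trans (hTT1.trans ht)))
  · intro t ht
    exact h1 t (hTT1.trans ht)
  · intro t ht
    have := (abs_le.1 (hest t ht)).1
    linarith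
  · intro t ht
    have := (abs_le.1 (hest t ht)).2
    have := Real.sqrt_nonneg t
    linarith

section

variable {B χ χ1 : ℝ → ℝ} {M δ T : ℝ} {lam : ℂ} {φ Φ : ℝ → ℂ}

/-- The Wronskian. -/
noncomputable def Wr (χ χ1 : ℝ → ℝ) (φ Φ : ℝ → ℂ) (t : ℝ) : ℂ := (χ t : ℂ) * Φ t - (χ1 t : ℂ) * φ t

theorem RSol.hasDerivAt_sq (hs : RSol B χ χ1) {t : ℝ} (_ht : χ t ≠ 0) :
    HasDerivAt (fun s => χ s ^ 2) (-(2 * (-(χ1 t / χ t)) * χ t ^ 2)) t := by
  refine ((hs.d1 t).pow 2).congr_deriv ?_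
  field_simp
  ring

theorem hasDerivAt_Wr (hs : RSol B χ χ1) (hd : DSol B lam φ Φ) (t : ℝ) :
    HasDerivAt (Wr χ χ1 φ Φ) (lam * ((χ t : ℂ) * φ t)) t := by
  have h1 : ∀ s : ℝ, HasDerivAt (fun s => ((χ s : ℝ) : ℂ)) ((χ1 s : ℝ) : ℂ) s :=
    fun s => (hs.d1 s).ofReal_comp
  have h2 : HasDerivAt (fun s => ((χ1 s - B s * χ s : ℝ) : ℂ))
      ((t * χ t - B t * χ1 t : ℝ) : ℂ) t := (hs.d2 t).ofReal_comp
  have h3 : Wr χ χ1 φ Φ = fun s => (χ s : ℂ) * (Φ s - (B s : ℂ) * φ s)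
      - ((χ1 s - B s * χ s : ℝ) : ℂ) * φ s := by
    funext s
    simp only [Wr]
    push_cast
    ring
  rw [h3]
  refine (((h1 t).mul (hd.d2 t)).sub (h2.mul (hd.d1 t))).congr_deriv ?_
  push_cast
  ring

theorem hasDerivAt_R (hs : RSol B χ χ1) (hd : DSol B lam φ Φ) {t : ℝ} (ht : χ t ≠ 0) :
    HasDerivAt (fun s => φ s / (χ s : ℂ)) (Wr χ χ1 φ Φ t / ((χ t ^ 2 : ℝ) : ℂ)) t := by
  have h1 : HasDerivAt (fun s => ((χ s : ℝ) : ℂ)) ((χ1 t : ℝ) : ℂ) t := (hs.d1 t).ofReal_comp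
  have hc : ((χ t : ℝ) : ℂ) ≠ 0 := by exact_mod_cast ht
  refine ((hd.d1 t).div h1 hc).congr_deriv ?_
  simp only [Wr]
  push_cast
  ring

theorem Base.g_decay (hb : Base B χ χ1 M δ T) (a : ℝ) :
    Tendsto (fun t => χ t ^ 2 * Real.exp (a * t)) atTop (𝓝 0) := by
  have hT1 := hb.T1
  -- for large t, `χ^2 exp ((a+1) t)` is decreasing
  set T2 := max T ((|a| + 1) ^ 2) with hT2
  have hd : ∀ t ≥ T2, HasDerivAt (fun s => χ s ^ 2 * Real.exp ((a + 1) * s))
      ((a + 1 - 2 * (-(χ1 t / χ t))) * (χ t ^ 2 * Real.exp ((a + 1) * t))) t := by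
    intro t ht
    have hx := hb.pos t ((le_max_left _ _).trans ht)
    have e1 : HasDerivAt (fun s => Real.exp ((a + 1) * s)) (Real.exp ((a + 1) * t) * ((a + 1) * 1)) t :=
      ((hasDerivAt_id t).const_mul (a + 1)).exp
    refine ((hb.rsol.hasDerivAt_sq hx.ne').mul e1).congr_deriv ?_
    ring
  have hanti := anti_of_deriv hd (fun t ht => by
    have h1 := hb.plow t ((le_max_left _ _).trans ht)
    have h2 : |a| + 1 ≤ Real.sqrt t := Real.le_sqrt_of_sq_le ((le_max_right _ _).trans ht)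
    have h3 := le_abs_self a
    have h4 : 0 ≤ χ t ^ 2 * Real.exp ((a + 1) * t) := by positivity
    have h5 : (a + 1 - 2 * (-(χ1 t / χ t))) ≤ 0 := by
      have := Real.sqrt_nonneg t
      linarith
    exact mul_nonpos_of_nonpos_of_nonneg h5 h4)
  set K := χ T2 ^ 2 * Real.exp ((a + 1) * T2) with hK
  have hle : ∀ᶠ t in atTop, χ t ^ 2 * Real.exp (a * t) ≤ K * Real.exp (-t) := by
    filter_upwards [eventually_ge_atTop T2] with t ht
    have h1 := hanti T2 t le_rfl ht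
    have e : Real.exp (a * t) = Real.exp ((a + 1) * t) * Real.exp (-t) := by
      rw [← Real.exp_add]; congr 1; ring
    rw [e, ← mul_assoc]
    exact mul_le_mul_of_nonneg_right h1 (Real.exp_pos _).le
  have hz : Tendsto (fun t => K * Real.exp (-t)) atTop (𝓝 0) := by
    simpa using (Real.tendsto_exp_neg_atTop_nhds_zero).const_mul K
  exact tendsto_of_tendsto_of_tendsto_of_le_of_le' tendsto_const_nhds hz
    (Eventually.of_forall fun t => by positivity) hle

/-- eventual bound on the ratio -/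
theorem ratio_bound (hl : Tendsto (fun t : ℝ => φ t / (χ t : ℂ) * Complex.exp (lam * (Real.sqrt t : ℂ)))
      atTop (𝓝 1)) :
    ∀ᶠ t in atTop, ‖φ t / (χ t : ℂ)‖ ≤ 2 * Real.exp (‖lam‖ * t) := by
  have h1 : ∀ᶠ t : ℝ in atTop, ‖φ t / (χ t : ℂ) * Complex.exp (lam * (Real.sqrt t : ℂ))‖ < 2 :=
    hl.norm.eventually_lt_const (by simp)
  filter_upwards [h1, eventually_ge_atTop 1] with t h1 ht
  rw [norm_mul, Complex.norm_exp] at h1
  have h2 : -(‖lam‖ * t) ≤ (lam * (Real.sqrt t : ℂ)).re := by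
    have h3 : |(lam * (Real.sqrt t : ℂ)).re| ≤ ‖lam‖ * Real.sqrt t := by
      refine (Complex.abs_re_le_norm _).trans ?_
      rw [norm_mul, Complex.norm_real, Real.norm_eq_abs, abs_of_nonneg (Real.sqrt_nonneg _)]
    have h4 : Real.sqrt t ≤ t := by
      rw [Real.sqrt_le_left (by linarith)]; nlinarith
    have h5 := (abs_le.1 h3).1
    have h6 : ‖lam‖ * Real.sqrt t ≤ ‖lam‖ * t := mul_le_mul_of_nonneg_left h4 (norm_nonneg _)
    linarith
  have h7 : Real.exp (-(‖lam‖ * t)) ≤ Real.exp ((lam * (Real.sqrt t : ℂ)).re) :=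
    Real.exp_le_exp.2 h2
  have h8 : Real.exp (-(‖lam‖ * t)) * Real.exp (‖lam‖ * t) = 1 := by
    rw [← Real.exp_add]; simp
  set r := ‖φ t / (χ t : ℂ)‖ with hr
  have hr0 : 0 ≤ r := norm_nonneg _
  have h9 : r * Real.exp (-(‖lam‖ * t)) ≤ 2 := (mul_le_mul_of_nonneg_left h7 hr0).trans h1.le
  calc r = r * Real.exp (-(‖lam‖ * t)) * Real.exp (‖lam‖ * t) := by rw [mul_assoc, h8, mul_one]
    _ ≤ 2 * Real.exp (‖lam‖ * t) := mul_le_mul_of_nonneg_right h9 (Real.exp_pos _).le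

theorem Base.W_decay (hb : Base B χ χ1 M δ T) (hd : DSol B lam φ Φ)
    (hl : Tendsto (fun t : ℝ => φ t / (χ t : ℂ) * Complex.exp (lam * (Real.sqrt t : ℂ)))
      atTop (𝓝 1)) (a : ℝ) :
    Tendsto (fun t => Real.exp (a * t) * ‖Wr χ χ1 φ Φ t‖) atTop (𝓝 0) := by
  have hT1 := hb.T1
  set a' := |a| + 1 with ha'
  have ha'pos : 0 < a' := by positivity
  set L := ‖lam‖ with hL
  have hL0 : 0 ≤ L := norm_nonneg _
  have hR := ratio_bound hl
  have hg := hb.g_decay (L + a')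
  have hg2 : ∀ᶠ t in atTop, χ t ^ 2 * Real.exp ((L + a') * t) * (2 * L) < a' := by
    have := hg.mul_const (2 * L)
    rw [zero_mul] at this
    exact this.eventually_lt_const ha'pos
  -- derivative of W is small
  have hW' : ∀ᶠ t in atTop, T ≤ t ∧ ‖φ t / (χ t : ℂ)‖ ≤ 2 * Real.exp (L * t) ∧
      ‖lam * ((χ t : ℂ) * φ t)‖ ≤ a' * Real.exp (-(a' * t)) := by
    filter_upwards [hR, hg2, eventually_ge_atTop T] with t h1 h2 h3
    refine ⟨h3, h1, ?_⟩
    have hx := hb.pos t h3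
    have hxc : (χ t : ℂ) ≠ 0 := by exact_mod_cast hx.ne'
    have e1 : lam * ((χ t : ℂ) * φ t) = lam * ((χ t : ℂ) ^ 2 * (φ t / (χ t : ℂ))) := by
      field_simp
    rw [e1, norm_mul, norm_mul, norm_pow, Complex.norm_real, Real.norm_eq_abs, sq_abs]
    have h4 : L * (χ t ^ 2 * ‖φ t / (χ t : ℂ)‖) ≤ L * (χ t ^ 2 * (2 * Real.exp (L * t))) := by
      gcongr
    refine h4.trans ?_
    have e2 : L * (χ t ^ 2 * (2 * Real.exp (L * t)))
        = χ t ^ 2 * Real.exp ((L + a') * t) * (2 * L) * Real.exp (-(a' * t)) := by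
      have : Real.exp (L * t) = Real.exp ((L + a') * t) * Real.exp (-(a' * t)) := by
        rw [← Real.exp_add]; congr 1; ring
      rw [this]; ring
    rw [e2]
    exact mul_le_mul_of_nonneg_right h2.le (Real.exp_pos _).le
  obtain ⟨t0, ht0⟩ := hW'.exists_forall_of_atTop
  have hWd : ∀ t : ℝ, HasDerivAt (Wr χ χ1 φ Φ) (lam * ((χ t : ℂ) * φ t)) t :=
    hasDerivAt_Wr hb.rsol hd
  have hexpd : ∀ t : ℝ, HasDerivAt (fun s => Real.exp (-(a' * s))) (-(a' * Real.exp (-(a' * t)))) t := by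
    intro t
    have : HasDerivAt (fun s => Real.exp (-(a' * s))) (Real.exp (-(a' * t)) * (-(a' * 1))) t :=
      (((hasDerivAt_id t).const_mul a').neg).exp
    refine this.congr_deriv ?_
    ring
  have hkey : ∀ t ≥ t0, ‖Wr χ χ1 φ Φ t‖ ≤ Real.exp (-(a' * t))
      + 4 * Real.exp L * (χ t ^ 2 * Real.exp (L * t)) := by
    intro t ht
    set w := Wr χ χ1 φ Φ t with hw
    set e := Real.exp (-(a' * t)) with he
    have he0 : 0 < e := Real.exp_pos _
    have hpos2 : 0 ≤ 4 * Real.exp L * (χ t ^ 2 * Real.exp (L * t)) := by positivity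
    by_cases hcase : ‖w‖ ≤ e
    · linarith
    push Not at hcase
    have hTt : T ≤ t := (ht0 t ht).1
    have hgt : 0 < χ t ^ 2 := pow_pos (hb.pos t hTt) 2
    have hclose : ∀ s ∈ Icc t (t + 1), ‖Wr χ χ1 φ Φ s - w‖ ≤ e := by
      intro s hs
      have := norm_sub_le_of_deriv (f := Wr χ χ1 φ Φ) (b := fun s => Real.exp (-(a' * s)))
        (f' := fun t => lam * ((χ t : ℂ) * φ t)) (b' := fun t => -(a' * Real.exp (-(a' * t))))
        hs.1 (fun r _ => hWd r) (fun r _ => hexpd r)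
        (fun r hr => by
          rw [neg_neg]
          exact (ht0 r (ht.trans hr.1)).2.2)
      have h2 := Real.exp_pos (-(a' * s))
      linarith
    have hganti : ∀ s ∈ Icc t (t + 1), χ s ^ 2 ≤ χ t ^ 2 := by
      intro s hs
      refine anti_of_deriv (f := fun s => χ s ^ 2)
        (f' := fun t => (-(2 * (-(χ1 t / χ t)) * χ t ^ 2))) (T := T)
        (fun r hr => hb.rsol.hasDerivAt_sq (hb.pos r hr).ne')
        (fun r hr => by
          have h1 := hb.plow r hr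
          have h2 := Real.sqrt_nonneg r
          have h3 : 0 ≤ 2 * (-(χ1 r / χ r)) * χ r ^ 2 :=
            mul_nonneg (by linarith) (sq_nonneg _)
          linarith) t s hTt hs.1
    -- the function f(s) = re (conj w * R s)
    set R : ℝ → ℂ := fun s => φ s / (χ s : ℂ) with hRdef
    have hfd : ∀ s ∈ Icc t (t + 1), HasDerivAt (fun s => (starRingEnd ℂ w * R s).re)
        ((starRingEnd ℂ w * Wr χ χ1 φ Φ s).re / χ s ^ 2) s := by
      intro s hs
      have hxs := (hb.pos s (hTt.trans hs.1))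
      have h1 := (hasDerivAt_R hb.rsol hd hxs.ne').const_mul (starRingEnd ℂ w)
      have h2 := (Complex.reCLM.hasFDerivAt.comp_hasDerivAt s h1)
      refine h2.congr_deriv ?_
      simp only [Complex.reCLM_apply]
      rw [← mul_div_assoc, Complex.div_ofReal_re]
    set c := ‖w‖ * (‖w‖ - e) / χ t ^ 2 with hc
    have hc0 : 0 ≤ ‖w‖ * (‖w‖ - e) := mul_nonneg (norm_nonneg _) (by linarith)
    have hfge : ∀ s ∈ Icc t (t + 1), c ≤ (starRingEnd ℂ w * Wr χ χ1 φ Φ s).re / χ s ^ 2 := by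
      intro s hs
      have hxs : 0 < χ s ^ 2 := pow_pos (hb.pos s (hTt.trans hs.1)) 2
      have h1 : ‖w‖ * (‖w‖ - e) ≤ (starRingEnd ℂ w * Wr χ χ1 φ Φ s).re := by
        have e1 : starRingEnd ℂ w * Wr χ χ1 φ Φ s
            = starRingEnd ℂ w * w + starRingEnd ℂ w * (Wr χ χ1 φ Φ s - w) := by ring
        rw [e1, Complex.add_re]
        have e2 : (starRingEnd ℂ w * w).re = ‖w‖ * ‖w‖ := by
          rw [← Complex.normSq_eq_conj_mul_self, Complex.ofReal_re, Complex.normSq_eq_norm_sq]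
          ring
        have h2 : |(starRingEnd ℂ w * (Wr χ χ1 φ Φ s - w)).re| ≤ ‖w‖ * e := by
          refine (Complex.abs_re_le_norm _).trans ?_
          rw [norm_mul, RCLike.norm_conj]
          exact mul_le_mul_of_nonneg_left (hclose s hs) (norm_nonneg _)
        have h3 := (abs_le.1 h2).1
        rw [e2]; nlinarith
      calc c ≤ ‖w‖ * (‖w‖ - e) / χ s ^ 2 :=
            div_le_div_of_nonneg_left hc0 hxs (hganti s hs)
        _ ≤ _ := div_le_div_of_nonneg_right h1 hxs.le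
    have hmono := mono_of_deriv_Icc (f := fun s => (starRingEnd ℂ w * R s).re - c * s)
      (f' := fun s => (starRingEnd ℂ w * Wr χ χ1 φ Φ s).re / χ s ^ 2 - c * 1)
      (a := t) (b := t + 1)
      (fun s hs => (hfd s hs).sub ((hasDerivAt_id s).const_mul c))
      (fun s hs => by linarith [hfge s hs]) t (t + 1) le_rfl (by linarith) le_rfl
    have hupp : ∀ s ∈ Icc t (t + 1), |(starRingEnd ℂ w * R s).re| ≤ ‖w‖ * (2 * Real.exp (L * (t + 1))) := by
      intro s hs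
      refine (Complex.abs_re_le_norm _).trans ?_
      rw [norm_mul, RCLike.norm_conj]
      apply mul_le_mul_of_nonneg_left _ (norm_nonneg _)
      refine ((ht0 s (ht.trans hs.1)).2.1).trans ?_
      have : Real.exp (L * s) ≤ Real.exp (L * (t + 1)) :=
        Real.exp_le_exp.2 (mul_le_mul_of_nonneg_left hs.2 hL0)
      linarith
    have hu1 := (abs_le.1 (hupp t ⟨le_rfl, by linarith⟩)).1
    have hu2 := (abs_le.1 (hupp (t + 1) ⟨by linarith, le_rfl⟩)).2
    have hfin : c ≤ ‖w‖ * (4 * Real.exp (L * (t + 1))) := by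
      have e3 : c * (t + 1) - c * t = c := by ring
      linarith
    have hwpos : 0 < ‖w‖ := by linarith
    have h5 : ‖w‖ - e ≤ χ t ^ 2 * (4 * Real.exp (L * (t + 1))) := by
      rw [hc, div_le_iff₀ hgt] at hfin
      have : ‖w‖ * (‖w‖ - e) ≤ ‖w‖ * (χ t ^ 2 * (4 * Real.exp (L * (t + 1)))) := by
        calc ‖w‖ * (‖w‖ - e) ≤ ‖w‖ * (4 * Real.exp (L * (t + 1))) * χ t ^ 2 := hfin
          _ = _ := by ring
      exact le_of_mul_le_mul_left this hwpos
    have e4 : Real.exp (L * (t + 1)) = Real.exp L * Real.exp (L * t) := by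
      rw [← Real.exp_add]; congr 1; ring
    rw [e4] at h5
    linarith
  -- conclusion
  have hz1 : Tendsto (fun t => Real.exp (-t) + 4 * Real.exp L * (χ t ^ 2 * Real.exp ((L + |a|) * t)))
      atTop (𝓝 0) := by
    have h1 := Real.tendsto_exp_neg_atTop_nhds_zero
    have h2 := (hb.g_decay (L + |a|)).const_mul (4 * Real.exp L)
    simpa using h1.add h2
  refine tendsto_of_tendsto_of_tendsto_of_le_of_le' tendsto_const_nhds hz1
    (Eventually.of_forall fun t => by positivity) ?_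
  filter_upwards [eventually_ge_atTop t0, eventually_ge_atTop 0] with t h1 h2
  have h3 := hkey t h1
  have h4 : Real.exp (a * t) ≤ Real.exp (|a| * t) :=
    Real.exp_le_exp.2 (mul_le_mul_of_nonneg_right (le_abs_self a) h2)
  calc Real.exp (a * t) * ‖Wr χ χ1 φ Φ t‖ ≤ Real.exp (|a| * t) * (Real.exp (-(a' * t))
      + 4 * Real.exp L * (χ t ^ 2 * Real.exp (L * t))) :=
        mul_le_mul h4 h3 (norm_nonneg _) (Real.exp_pos _).le
    _ = Real.exp (|a| * t) * Real.exp (-(a' * t)) + 4 * Real.exp L * (χ t ^ 2 *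
        (Real.exp (L * t) * Real.exp (|a| * t))) := by ring
    _ = Real.exp (-t) + 4 * Real.exp L * (χ t ^ 2 * Real.exp ((L + |a|) * t)) := by
        rw [← Real.exp_add, ← Real.exp_add]
        congr 2
        · rw [ha']; ring
        · congr 2; ring

end

end Pool.Agent.Helper22.SAi
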