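import Pool.Agent.Helper22.SAi.Entire
import Pool.Agent.Helper22.SAi.Asym

/-!
Existence of the reference solution (principal solution at `lam = 0`).
-/

namespace Pool.Agent.Helper22.SAi

open Filter Topology Set MeasureTheory

theorem rsol_re {B : ℝ → ℝ} {φ Φ : ℝ → ℂ} (hd : DSol B 0 φ Φ) :
    RSol B (fun t => (φ t).re) (fun t => (Φ t).re) := by
  refine ⟨?_, ?_⟩
  · intro t
    exact Complex.reCLM.hasFDerivAt.comp_hasDerivAt t (hd.d1 t)
  · intro t
    have h1 := Complex.reCLM.hasFDerivAt.comp_hasDerivAt t (hd.d2 t)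
    simp only [Complex.reCLM_apply] at h1
    have e1 : (fun s => (Φ s).re - B s * (φ s).re) = (fun s => (Φ s - (B s : ℂ) * φ s).re) := by
      funext s
      rw [Complex.sub_re, Complex.re_ofReal_mul]
    rw [e1]
    refine h1.congr_deriv ?_
    simp

theorem exists_rsol {B : ℝ → ℝ} (hB : Continuous B) (T a b : ℝ) :
    ∃ χ χ1 : ℝ → ℝ, RSol B χ χ1 ∧ χ T = a ∧ χ1 T = b := by
  obtain ⟨φ, Φ, hd, h1, h2⟩ := exists_DSol hB 0 T (a : ℂ) (b : ℂ)
  refine ⟨_, _, rsol_re hd, ?_, ?_⟩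
  · simp [h1]
  · simp [h2]

/-- A lower barrier for the logarithmic derivative. -/
theorem lower_barrier {B : ℝ → ℝ} {C δ : ℝ} (hB : PathReg B C δ) :
    ∃ T1 : ℝ, 1 ≤ T1 ∧ ∃ Ph Ph' : ℝ → ℝ, ∀ t ≥ T1, HasDerivAt Ph (Ph' t) t ∧ 1 ≤ Ph t - B t ∧
      0 ≤ t - (Ph t - B t) ^ 2 + Ph' t := by
  obtain ⟨Bh, Bh', hBh⟩ := hB.smooth
  have hC := hB.Cnn
  have hδ := hB.dpos
  have hδ2 := hB.dle
  set M := 2 * C + 1 with hM
  have hpow : ∀ t : ℝ, 1 ≤ t → HasDerivAt (fun s : ℝ => s ^ (-δ)) (-(δ * t ^ (-δ - 1))) t := by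
    intro t ht
    have := Real.hasDerivAt_rpow_const (x := t) (p := -δ) (Or.inl (by linarith))
    refine this.congr_deriv ?_
    ring
  have hpow2 : ∀ t : ℝ, 1 ≤ t → 0 ≤ δ * t ^ (-δ - 1) := fun t ht =>
    mul_nonneg hδ.le (Real.rpow_nonneg (by linarith) _)
  have hsq : ∀ t : ℝ, 1 ≤ t → HasDerivAt Real.sqrt (1 / (2 * Real.sqrt t)) t :=
    fun t ht => Real.hasDerivAt_sqrt (by linarith)
  set K := 2 * (C + 1) * (3 * C + 1) + 2 with hK
  have hK2 : 2 ≤ K := by rw [hK]; nlinarith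
  set T1 := max 1 (K ^ 2) with hT1
  have hsK : ∀ t ≥ T1, K ≤ Real.sqrt t := by
    intro t ht
    exact Real.le_sqrt_of_sq_le ((le_max_right _ _).trans ht)
  refine ⟨T1, le_max_left _ _, fun t => Real.sqrt t - M * t ^ (-δ) + Bh t,
    fun t => 1 / (2 * Real.sqrt t) - M * (-(δ * t ^ (-δ - 1))) + Bh' t, fun t ht => ?_⟩
  have ht1 : 1 ≤ t := (le_max_left _ _).trans ht
  have ht0 : 0 < t := by linarith
  refine ⟨((hsq t ht1).sub ((hpow t ht1).const_mul M)).add (hBh t ht1).1, ?_⟩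
  have hsK' := hsK t ht
  obtain ⟨-, hb, hb'⟩ := hBh t ht1
  have hs0 : 0 < Real.sqrt t := by linarith
  have hs2 : Real.sqrt t ^ 2 = t := Real.sq_sqrt ht0.le
  have h3 : 0 ≤ M * (δ * t ^ (-δ - 1)) := mul_nonneg (by rw [hM]; linarith) (hpow2 t ht1)
  set s := Real.sqrt t with hsdef
  set u := t ^ (-δ) with hu
  have hu1 : t⁻¹ ≤ u := rpow_neg_ge ht1 (by linarith)
  have hu0 : 0 < u := lt_of_lt_of_le (inv_pos.2 ht0) hu1
  have hule : u ≤ 1 := rpow_neg_le_one ht1 hδ.le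
  set x := M * u + (B t - Bh t) with hx
  have hxl : (C + 1) * u ≤ x := by
    have := (abs_le.1 hb).1
    rw [hx, hM]; nlinarith
  have hxu : x ≤ (3 * C + 1) * u := by
    have := (abs_le.1 hb).2
    rw [hx, hM]; nlinarith
  have hxu1 : x ≤ 3 * C + 1 := hxu.trans (by nlinarith)
  have hx0 : 0 ≤ x := le_trans (by positivity) hxl
  have hp : s - M * u + Bh t - B t = s - x := by rw [hx]; ring
  have hK3 : 3 * C + 1 + 1 ≤ K := by rw [hK]; nlinarith
  refine ⟨by rw [hp]; linarith, ?_⟩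
  rw [hp]
  have h1 := (abs_le.1 hb').1
  have h2 : 0 < 1 / (2 * s) := by positivity
  have h4 : t - (s - x) ^ 2 = x * (2 * s - x) := by rw [← hs2]; ring
  rw [h4]
  have h5 : (C + 1) * u * (2 * s - (3 * C + 1)) ≤ x * (2 * s - x) := by
    apply mul_le_mul hxl (by linarith) (by linarith) hx0
  have h6 : 2 * C * (s * u) ≤ (C + 1) * u * (2 * s - (3 * C + 1)) := by
    have h7 : (C + 1) * (3 * C + 1) ≤ 2 * s := by
      have : (C + 1) * (3 * C + 1) ≤ K := by rw [hK]; nlinarith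
      linarith
    nlinarith
  linarith

section

variable {B Ph Ph' : ℝ → ℝ} {T1 : ℝ}

/-- the barrier quantity -/
noncomputable def yB (B Ph f f1 : ℝ → ℝ) (t : ℝ) : ℝ := (f1 t - B t * f t) + Ph t * f t

theorem hasDerivAt_yB {f f1 : ℝ → ℝ} (hs : RSol B f f1) {t : ℝ} (h : HasDerivAt Ph (Ph' t) t) :
    HasDerivAt (yB B Ph f f1)
      ((Ph t - B t) * yB B Ph f f1 t + (t - (Ph t - B t) ^ 2 + Ph' t) * f t) t := by
  refine ((hs.d2 t).add (h.mul (hs.d1 t))).congr_deriv ?_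
  simp only [yB]
  ring

theorem f1_eq {f f1 : ℝ → ℝ} (t : ℝ) : f1 t = yB B Ph f f1 t - (Ph t - B t) * f t := by
  simp only [yB]; ring

/-- positivity propagates forward -/
theorem pos_lemma (hP : ∀ t ≥ T1, HasDerivAt Ph (Ph' t) t ∧ 1 ≤ Ph t - B t ∧
      0 ≤ t - (Ph t - B t) ^ 2 + Ph' t) {f f1 : ℝ → ℝ} (hs : RSol B f f1) (hf : 0 ≤ f T1)
    (hy : 0 < yB B Ph f f1 T1) : ∀ t ≥ T1, 0 < yB B Ph f f1 t ∧ 0 ≤ f t ∧ (T1 < t → 0 < f t) := by
  set y := yB B Ph f f1 with hyd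
  have hder : ∀ t ≥ T1, HasDerivAt y ((Ph t - B t) * y t + (t - (Ph t - B t) ^ 2 + Ph' t) * f t) t :=
    fun t ht => hasDerivAt_yB hs (hP t ht).1
  have hfy : ∀ t ≥ T1, HasDerivAt (fun t => f t * y t)
      (y t ^ 2 + (t - (Ph t - B t) ^ 2 + Ph' t) * f t ^ 2) t := by
    intro t ht
    refine ((hs.d1 t).mul (hder t ht)).congr_deriv ?_
    rw [f1_eq (B := B) (Ph := Ph) (f := f) (f1 := f1) t, ← hyd]
    ring
  have hfynn : ∀ t ≥ T1, 0 ≤ f t * y t := by
    intro t ht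
    have := mono_of_deriv hfy (fun s hs => by
      have := (hP s hs).2.2
      positivity) T1 t le_rfl ht
    have h2 : 0 ≤ f T1 * y T1 := mul_nonneg hf hy.le
    linarith
  have hy2 : ∀ t ≥ T1, y T1 ^ 2 ≤ y t ^ 2 := by
    intro t ht
    have h1 : ∀ t ≥ T1, HasDerivAt (fun t => y t ^ 2)
        (2 * y t * ((Ph t - B t) * y t + (t - (Ph t - B t) ^ 2 + Ph' t) * f t)) t := by
      intro t ht
      refine ((hder t ht).pow 2).congr_deriv ?_
      norm_num
    refine mono_of_deriv h1 (fun s hs => ?_) T1 t le_rfl ht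
    have a1 := (hP s hs).2.1
    have a2 := (hP s hs).2.2
    have a3 := hfynn s hs
    have a4 : 0 ≤ (Ph s - B s) * y s ^ 2 := mul_nonneg (by linarith) (sq_nonneg _)
    have a5 : 0 ≤ (s - (Ph s - B s) ^ 2 + Ph' s) * (f s * y s) := mul_nonneg a2 a3
    nlinarith
  have hypos : ∀ t ≥ T1, 0 < y t := by
    intro t ht
    by_contra hcon
    push Not at hcon
    have hcont : ContinuousOn y (Icc T1 t) := fun s hs => (hder s hs.1).continuousAt.continuousWithinAt
    obtain ⟨s, hs, hs0⟩ := intermediate_value_Icc' ht hcont ⟨hcon, hy.le⟩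
    have h1 := hy2 s hs.1
    rw [hs0] at h1
    have h2 : 0 < y T1 ^ 2 := by positivity
    norm_num at h1
    linarith
  intro t ht
  have hyt := hypos t ht
  refine ⟨hyt, ?_, fun hlt => ?_⟩
  · by_contra hcon
    push Not at hcon
    have := hfynn t ht
    have := mul_neg_of_neg_of_pos hcon hyt
    linarith
  · have h1 : ∀ t ≥ T1, HasDerivAt (fun t => f t * y t - y T1 ^ 2 * (t - T1))
        ((y t ^ 2 + (t - (Ph t - B t) ^ 2 + Ph' t) * f t ^ 2) - y T1 ^ 2 * 1) t := fun t ht =>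
      (hfy t ht).sub (((hasDerivAt_id t).sub_const T1).const_mul _)
    have h2 := mono_of_deriv h1 (fun s hs => by
      have a1 := hy2 s hs
      have a2 : 0 ≤ (s - (Ph s - B s) ^ 2 + Ph' s) * f s ^ 2 :=
        mul_nonneg (hP s hs).2.2 (sq_nonneg _)
      linarith) T1 t le_rfl ht
    simp only [sub_self, mul_zero, sub_zero] at h2
    have h3 : 0 ≤ f T1 * y T1 := mul_nonneg hf hy.le
    have h4 : 0 < y T1 ^ 2 * (t - T1) := mul_pos (by positivity) (by linarith)
    have h5 : 0 < f t * y t := by linarith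
    by_contra hcon
    push Not at hcon
    have := mul_nonpos_of_nonpos_of_nonneg hcon hyt.le
    linarith

theorem wronski_const {u u1 v v1 : ℝ → ℝ} (hu : RSol B u u1) (hv : RSol B v v1) (s t : ℝ)
    (hst : s ≤ t) : u t * v1 t - u1 t * v t = u s * v1 s - u1 s * v s := by
  have e : (fun t => u t * v1 t - u1 t * v t)
      = fun t => u t * (v1 t - B t * v t) - (u1 t - B t * u t) * v t := by
    funext t; ring
  have hd : ∀ t : ℝ, HasDerivAt (fun t => u t * v1 t - u1 t * v t) 0 t := by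
    intro t
    rw [e]
    refine (((hu.d1 t).mul (hv.d2 t)).sub ((hu.d2 t).mul (hv.d1 t))).congr_deriv ?_
    ring
  have h1 := mono_of_deriv (T := s) (fun t _ => hd t) (fun _ _ => le_rfl) s t le_rfl hst
  have h2 := anti_of_deriv (T := s) (fun t _ => hd t) (fun _ _ => le_rfl) s t le_rfl hst
  exact le_antisymm h2 h1

end

/-- Existence of a positive bounded solution at `lam = 0`. -/
theorem exists_ref {B : ℝ → ℝ} {C δ : ℝ} (hB : PathReg B C δ) : ∃ χ χ1 : ℝ → ℝ, RSol B χ χ1 ∧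
    ∃ T0 Cχ : ℝ, (∀ t ≥ T0, 0 < χ t) ∧ ∀ t ≥ T0, χ t ≤ Cχ := by
  obtain ⟨T1, -, Ph, Ph', hP⟩ := lower_barrier hB
  obtain ⟨u, u1, hu, hu0, hu1⟩ := exists_rsol hB.cont T1 1 0
  obtain ⟨v, v1, hv, hv0, hv1⟩ := exists_rsol hB.cont T1 0 1
  have hyu0 : yB B Ph u u1 T1 = Ph T1 - B T1 := by
    simp only [yB]; rw [hu0, hu1]; ring
  have hyv0 : yB B Ph v v1 T1 = 1 := by
    simp only [yB]; rw [hv0, hv1]; ring
  have hPT := hP T1 le_rfl
  have hupos := pos_lemma hP hu (by rw [hu0]; norm_num) (by rw [hyu0]; linarith)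
  have hvpos := pos_lemma hP hv (by rw [hv0]) (by rw [hyv0]; norm_num)
  have hW : ∀ t ≥ T1, u t * v1 t - u1 t * v t = 1 := by
    intro t ht
    rw [wronski_const hu hv T1 t ht, hu0, hu1, hv0, hv1]; ring
  set T2 := T1 + 1 with hT2
  have hT12 : T1 < T2 := by rw [hT2]; linarith
  have hvp : ∀ t ≥ T2, 0 < v t := fun t ht => (hvpos t (by linarith)).2.2 (by linarith)
  set F : ℝ → ℝ := fun t => u t / v t with hF
  have hFd : ∀ t ≥ T2, HasDerivAt F (-(1 / v t ^ 2)) t := by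
    intro t ht
    have hv' := hvp t ht
    refine ((hu.d1 t).div (hv.d1 t) hv'.ne').congr_deriv ?_
    have := hW t (by linarith)
    rw [← neg_div]
    congr 1
    linarith
  have hFanti := anti_of_deriv hFd (fun t ht => by
    have := hvp t ht
    have : 0 < 1 / v t ^ 2 := by positivity
    linarith)
  have hFnn : ∀ t ≥ T2, 0 ≤ F t := fun t ht =>
    div_nonneg (hupos t (by linarith)).2.1 (hvp t ht).le
  set S := F '' Ici T2 with hS
  have hSbdd : BddBelow S := ⟨0, by rintro _ ⟨t, ht, rfl⟩; exact hFnn t ht⟩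
  have hSne : S.Nonempty := nonempty_Ici.image F
  set ss := sInf S with hss
  have hle : ∀ t ≥ T2, ss ≤ F t := fun t ht => csInf_le hSbdd ⟨t, ht, rfl⟩
  have hlt : ∀ t ≥ T2, ss < F t := by
    intro t ht
    obtain ⟨ξ, hξ, hξ2⟩ := exists_hasDerivAt_eq_slope F (fun t => -(1 / v t ^ 2))
      (show t < t + 1 by linarith)
      (fun s hs => (hFd s (ht.trans hs.1)).continuousAt.continuousWithinAt)
      (fun s hs => hFd s (ht.trans hs.1.le))
    have h4 : (t + 1 - t : ℝ) = 1 := by ring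
    rw [h4, div_one] at hξ2
    have h5 := hvp ξ (ht.trans hξ.1.le)
    have h6 : 0 < 1 / v ξ ^ 2 := by positivity
    have h7 := hle (t + 1) (by linarith)
    linarith
  have happ : ∀ ε > 0, ∃ t0 ≥ T2, ∀ t ≥ t0, F t < ss + ε := by
    intro ε hε
    obtain ⟨_, ⟨t0, ht0, rfl⟩, h1⟩ := exists_lt_of_csInf_lt hSne (show sInf S < ss + ε by linarith)
    exact ⟨t0, ht0, fun t ht => (hFanti t0 t ht0 ht).trans_lt h1⟩
  -- the principal solution
  have hχ : RSol B (fun t => u t - ss * v t) (fun t => u1 t - ss * v1 t) := by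
    refine ⟨fun t => (hu.d1 t).sub ((hv.d1 t).const_mul ss), fun t => ?_⟩
    have h1 := (hu.d2 t).sub ((hv.d2 t).const_mul ss)
    have e : (fun s => (u1 s - ss * v1 s) - B s * (u s - ss * v s))
        = (fun s => u1 s - B s * u s) - fun s => ss * (v1 s - B s * v s) := by
      funext s
      simp only [Pi.sub_apply]
      ring
    rw [e]
    refine h1.congr_deriv ?_
    ring
  have hχpos : ∀ t ≥ T2, 0 < u t - ss * v t := by
    intro t ht
    have h1 := hlt t ht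
    have h2 := hvp t ht
    simp only [hF] at h1
    rw [lt_div_iff₀ h2] at h1
    linarith
  have hyχ : ∀ t, yB B Ph (fun t => u t - ss * v t) (fun t => u1 t - ss * v1 t) t
      = yB B Ph u u1 t - ss * yB B Ph v v1 t := by
    intro t; simp only [yB]; ring
  set yv := yB B Ph v v1 with hyv
  set yχ := yB B Ph (fun t => u t - ss * v t) (fun t => u1 t - ss * v1 t) with hyχd
  have hrel : ∀ t ≥ T2, (u t - ss * v t) * yv t - yχ t * v t = 1 := by
    intro t ht
    have h1 := hW t (by linarith)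
    rw [hyχ]
    simp only [hyv, yB]
    linarith
  have hyvpos : ∀ t ≥ T2, 0 < yv t := fun t ht => (hvpos t (by linarith)).1
  have hHd : ∀ t ≥ T2, HasDerivAt (fun t => yχ t / yv t)
      ((t - (Ph t - B t) ^ 2 + Ph' t) / yv t ^ 2) t := by
    intro t ht
    have h0 : T1 ≤ t := by linarith
    have hd1 := hasDerivAt_yB hχ (hP t h0).1
    have hd2 := hasDerivAt_yB hv (hP t h0).1
    refine (hd1.div hd2 (hyvpos t ht).ne').congr_deriv ?_
    have h1 := hrel t ht
    rw [← hyv, ← hyχd]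
    congr 1
    linear_combination (t - (Ph t - B t) ^ 2 + Ph' t) * h1
  have hynp : ∀ t ≥ T2, yχ t ≤ 0 := by
    intro t1 ht1
    by_contra hcon
    push Not at hcon
    set c := yχ t1 / yv t1 with hc
    have hcpos : 0 < c := div_pos hcon (hyvpos t1 ht1)
    obtain ⟨t0, ht0, h1⟩ := happ c hcpos
    set t2 := max t0 t1 with ht2
    have ht12 : t1 ≤ t2 := le_max_right _ _
    have ht2T : T2 ≤ t2 := ht1.trans ht12
    have h2 := h1 t2 (le_max_left _ _)
    have h3 := mono_of_deriv hHd (fun t ht => by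
      have a1 := (hP t (by linarith)).2.2
      have a2 := hyvpos t ht
      positivity) t1 t2 ht1 ht12
    have h4 := hrel t2 ht2T
    have h5 := hvp t2 ht2T
    have h6 := hyvpos t2 ht2T
    have h7 : c ≤ yχ t2 / yv t2 := h3
    rw [le_div_iff₀ h6] at h7
    simp only [hF] at h2
    rw [div_lt_iff₀ h5] at h2
    have h8 : (u t2 - ss * v t2) * yv t2 < c * v t2 * yv t2 :=
      mul_lt_mul_of_pos_right (by linarith) h6
    nlinarith
  refine ⟨_, _, hχ, T2, u T2 - ss * v T2, hχpos, fun t ht => ?_⟩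
  refine anti_of_deriv (T := T2) (fun s _ => hχ.d1 s) (fun s hs => ?_) T2 t le_rfl ht
  have h1 := hynp s hs
  have h2 := hχpos s hs
  have h3 := (hP s (by linarith)).2.1
  have h4 := f1_eq (B := B) (Ph := Ph) (f := fun t => u t - ss * v t)
    (f1 := fun t => u1 t - ss * v1 t) s
  rw [← hyχd] at h4
  have h5 : 0 ≤ (Ph s - B s) * (u s - ss * v s) := mul_nonneg (by linarith) h2.le
  linarith

end Pool.Agent.Helper22.SAi
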