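import Pool.Agent.Helper22.SAi.Ratio

/-!
Estimates of the normalised ratio `S = exp(lam √t) φ/χ` near infinity, uniform in `lam`.
-/

namespace Pool.Agent.Helper22.SAi

open Filter Topology Set MeasureTheory

/-- the majorant exponent -/
noncomputable def eM (L M δ : ℝ) (t : ℝ) : ℝ := L ^ 2 / 2 * t ^ (-(1/2) : ℝ) + L * (M + 1) / δ * t ^ (-δ)

/-- minus its derivative -/
noncomputable def kM (L M δ : ℝ) (t : ℝ) : ℝ :=
  L ^ 2 / 4 * t ^ (-(3/2) : ℝ) + L * (M + 1) * t ^ (-δ - 1)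

/-- minus the derivative of `kM` -/
noncomputable def kM' (L M δ : ℝ) (t : ℝ) : ℝ :=
  L ^ 2 / 4 * (3/2 * t ^ (-(5/2) : ℝ)) + L * (M + 1) * ((δ + 1) * t ^ (-δ - 2))

theorem hasDerivAt_eM {L M δ t : ℝ} (hδ : 0 < δ) (ht : 0 < t) :
    HasDerivAt (eM L M δ) (-kM L M δ t) t := by
  have h1 := (Real.hasDerivAt_rpow_const (x := t) (p := (-(1/2) : ℝ)) (Or.inl ht.ne')).const_mul
    (L ^ 2 / 2)
  have h2 := (Real.hasDerivAt_rpow_const (x := t) (p := -δ) (Or.inl ht.ne')).const_mul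
    (L * (M + 1) / δ)
  refine (h1.add h2).congr_deriv ?_
  simp only [kM]
  have e1 : (-(1/2) : ℝ) - 1 = -(3/2) := by norm_num
  rw [e1]
  field_simp
  ring

theorem hasDerivAt_kM {L M δ t : ℝ} (ht : 0 < t) :
    HasDerivAt (kM L M δ) (-kM' L M δ t) t := by
  have h1 := (Real.hasDerivAt_rpow_const (x := t) (p := (-(3/2) : ℝ)) (Or.inl ht.ne')).const_mul
    (L ^ 2 / 4)
  have h2 := (Real.hasDerivAt_rpow_const (x := t) (p := -δ - 1) (Or.inl ht.ne')).const_mul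
    (L * (M + 1))
  refine (h1.add h2).congr_deriv ?_
  simp only [kM']
  have e1 : (-(3/2) : ℝ) - 1 = -(5/2) := by norm_num
  have e2 : (-δ - 1 : ℝ) - 1 = -δ - 2 := by ring
  rw [e1, e2]
  ring

theorem kM_nonneg {L M δ t : ℝ} (hL : 0 ≤ L) (hM : 0 ≤ M) (ht : 0 < t) : 0 ≤ kM L M δ t := by
  have h1 := Real.rpow_nonneg ht.le (-(3/2) : ℝ)
  have h2 := Real.rpow_nonneg ht.le (-δ - 1 : ℝ)
  simp only [kM]; positivity

theorem kM'_nonneg {L M δ t : ℝ} (hL : 0 ≤ L) (hM : 0 ≤ M) (hδ : 0 < δ) (ht : 0 < t) :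
    0 ≤ kM' L M δ t := by
  have h1 := Real.rpow_nonneg ht.le (-(5/2) : ℝ)
  have h2 := Real.rpow_nonneg ht.le (-δ - 2 : ℝ)
  simp only [kM']; positivity

theorem kM_le {L M δ t : ℝ} (hL : 0 ≤ L) (hM : 0 ≤ M) (hδ : 0 < δ) (ht : 1 ≤ t) :
    kM L M δ t ≤ L ^ 2 + L * (M + 1) := by
  have h1 : t ^ (-(3/2) : ℝ) ≤ 1 := Real.rpow_le_one_of_one_le_of_nonpos ht (by norm_num)
  have h2 : t ^ (-δ - 1 : ℝ) ≤ 1 := Real.rpow_le_one_of_one_le_of_nonpos ht (by linarith)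
  have h3 := Real.rpow_nonneg (by linarith : (0:ℝ) ≤ t) (-(3/2) : ℝ)
  simp only [kM]
  have h4 : L ^ 2 / 4 * t ^ (-(3/2) : ℝ) ≤ L ^ 2 * 1 := by
    apply mul_le_mul _ h1 h3 (sq_nonneg _)
    nlinarith [sq_nonneg L]
  have h5 : L * (M + 1) * t ^ (-δ - 1) ≤ L * (M + 1) * 1 :=
    mul_le_mul_of_nonneg_left h2 (by positivity)
  linarith

theorem eM_nonneg {L M δ t : ℝ} (hL : 0 ≤ L) (hM : 0 ≤ M) (hδ : 0 < δ) (ht : 0 < t) :
    0 ≤ eM L M δ t := by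
  have h1 := Real.rpow_nonneg ht.le (-(1/2) : ℝ)
  have h2 := Real.rpow_nonneg ht.le (-δ : ℝ)
  simp only [eM]; positivity

theorem tendsto_eM {L M δ : ℝ} (hδ : 0 < δ) : Tendsto (eM L M δ) atTop (𝓝 0) := by
  have h1 := (tendsto_rpow_neg_atTop (y := 1/2) (by norm_num)).const_mul (L ^ 2 / 2)
  have h2 := (tendsto_rpow_neg_atTop hδ).const_mul (L * (M + 1) / δ)
  have := h1.add h2
  simp only [mul_zero, add_zero] at this
  exact this

section

variable {B χ χ1 : ℝ → ℝ} {M δ T : ℝ} {lam : ℂ} {φ Φ : ℝ → ℂ}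

/-- the coefficient `q` -/
noncomputable def qF (χ χ1 : ℝ → ℝ) (lam : ℂ) (t : ℝ) : ℂ :=
  lam ^ 2 / (4 * (t : ℂ)) + lam / (4 * (t : ℂ) * (Real.sqrt t : ℂ))
    + lam * ((-(χ1 t / χ t) - Real.sqrt t : ℝ) : ℂ) / (Real.sqrt t : ℂ)

theorem qF_bound (hb : Base B χ χ1 M δ T) {t : ℝ} (ht : T ≤ t) :
    ‖qF χ χ1 lam t‖ ≤ Real.sqrt t * kM ‖lam‖ M δ t := by
  have hT1 := hb.T1
  have hδ := hb.dpos
  have hδ2 := hb.dle
  have ht0 : 0 < t := by linarith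
  have ht1 : 1 ≤ t := by linarith
  have hs0 : 0 < Real.sqrt t := Real.sqrt_pos.2 ht0
  set s := Real.sqrt t with hs
  have hss : s = t ^ (1/2 : ℝ) := Real.sqrt_eq_rpow t
  set L := ‖lam‖ with hL
  have hL0 : 0 ≤ L := norm_nonneg _
  have n1 : ‖lam ^ 2 / (4 * (t : ℂ))‖ = L ^ 2 / 4 * (s * t ^ (-(3/2) : ℝ)) := by
    rw [norm_div, norm_pow, norm_mul, Complex.norm_real, Real.norm_eq_abs, abs_of_pos ht0, hss,
      ← Real.rpow_add ht0]
    have e : (1/2 : ℝ) + -(3/2) = -1 := by norm_num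
    rw [e, Real.rpow_neg_one]
    simp only [Complex.norm_ofNat]
    rw [← hL]
    field_simp
  have n2 : ‖lam / (4 * (t : ℂ) * (s : ℂ))‖ ≤ L * (s * t ^ (-δ - 1)) := by
    rw [norm_div, norm_mul, norm_mul, Complex.norm_real, Complex.norm_real, Real.norm_eq_abs,
      Real.norm_eq_abs, abs_of_pos ht0, abs_of_pos hs0]
    simp only [Complex.norm_ofNat]
    rw [div_le_iff₀ (by positivity)]
    have h2 : s * t ^ (-δ - 1) * (4 * t * s) = 4 * (t ^ (1 - δ)) := by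
      have hs2 : s * s = t := Real.mul_self_sqrt ht0.le
      have : t ^ (1 - δ) = t ^ (-δ - 1) * (t * t) := by
        rw [show (1 - δ : ℝ) = (-δ - 1) + 2 by ring, Real.rpow_add ht0, Real.rpow_two]
        ring
      rw [this]
      linear_combination (4 * t * t ^ (-δ - 1)) * hs2
    have h3 : 1 ≤ t ^ (1 - δ) := Real.one_le_rpow ht1 (by linarith)
    calc L = L * 1 := by ring
      _ ≤ L * (s * t ^ (-δ - 1) * (4 * t * s)) := by
        rw [h2]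
        apply mul_le_mul_of_nonneg_left _ hL0
        linarith
      _ = L * (s * t ^ (-δ - 1)) * (4 * t * s) := by ring
  have n3 : ‖lam * ((-(χ1 t / χ t) - s : ℝ) : ℂ) / (s : ℂ)‖ ≤ L * M * (s * t ^ (-δ - 1)) := by
    rw [norm_div, norm_mul, Complex.norm_real, Complex.norm_real, Real.norm_eq_abs,
      Real.norm_eq_abs, abs_of_pos hs0, div_le_iff₀ hs0]
    have h1 := hb.pest t ht
    have h2 : L * M * (s * t ^ (-δ - 1)) * s = L * (M * t ^ (-δ)) := by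
      have hs2 : s * s = t := Real.mul_self_sqrt ht0.le
      have : t ^ (-δ) = t ^ (-δ - 1) * t := by
        have := Real.rpow_add ht0 (-δ - 1) 1
        rw [Real.rpow_one] at this
        rw [← this]
        congr 1
        ring
      rw [this]
      linear_combination (L * M * t ^ (-δ - 1)) * hs2
    rw [h2]
    exact mul_le_mul_of_nonneg_left h1 hL0
  refine (norm_add₃_le).trans ?_
  have e : s * kM L M δ t = L ^ 2 / 4 * (s * t ^ (-(3/2) : ℝ)) + L * (s * t ^ (-δ - 1))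
      + L * M * (s * t ^ (-δ - 1)) := by
    simp only [kM]; ring
  rw [e]
  linarith

/-- the weighted derivative of `S` -/
noncomputable def fW (χ χ1 : ℝ → ℝ) (lam : ℂ) (φ Φ : ℝ → ℂ) (t : ℝ) : ℂ :=
  Complex.exp (-(lam * (Real.sqrt t : ℂ))) *
    (Wr χ χ1 φ Φ t + lam / (2 * (Real.sqrt t : ℂ)) * ((χ t : ℂ) * φ t))

theorem hasDerivAt_csqrt {t : ℝ} (ht : 0 < t) :
    HasDerivAt (fun s : ℝ => ((Real.sqrt s : ℝ) : ℂ)) (1 / (2 * (Real.sqrt t : ℂ))) t := by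
  have := (Real.hasDerivAt_sqrt ht.ne').ofReal_comp
  refine this.congr_deriv ?_
  push_cast
  ring

theorem hasDerivAt_fW (hb : Base B χ χ1 M δ T) (hd : DSol B lam φ Φ) {t : ℝ} (ht : T ≤ t) :
    HasDerivAt (fW χ χ1 lam φ Φ)
      (-(Complex.exp (-(lam * (Real.sqrt t : ℂ))) * ((χ t : ℂ) * φ t) * qF χ χ1 lam t)) t := by
  have hT1 := hb.T1
  have ht0 : 0 < t := by linarith
  have hs0 : 0 < Real.sqrt t := Real.sqrt_pos.2 ht0
  have hx := hb.pos t ht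
  have hxc : (χ t : ℂ) ≠ 0 := by exact_mod_cast hx.ne'
  have hsc : (Real.sqrt t : ℂ) ≠ 0 := by exact_mod_cast hs0.ne'
  have hs2 : (Real.sqrt t : ℂ) ^ 2 = (t : ℂ) := by
    rw [← Complex.ofReal_pow, Real.sq_sqrt ht0.le]
  have d1 := hasDerivAt_csqrt ht0
  have d2 := ((d1.const_mul lam).neg).cexp
  have d3 := hasDerivAt_Wr hb.rsol hd t
  have d4 : HasDerivAt (fun s : ℝ => lam / (2 * (Real.sqrt s : ℂ)))
      (-(lam * (2 * (1 / (2 * (Real.sqrt t : ℂ))))) / (2 * (Real.sqrt t : ℂ)) ^ 2) t := by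
    have := (hasDerivAt_const t lam).div (d1.const_mul 2) (by
      simp only [ne_eq, mul_eq_zero, OfNat.ofNat_ne_zero, false_or]; exact hsc)
    refine this.congr_deriv ?_
    ring
  have d5 : HasDerivAt (fun s => ((χ s : ℝ) : ℂ)) ((χ1 t : ℝ) : ℂ) t := (hb.rsol.d1 t).ofReal_comp
  have d6 := d5.mul (hd.d1 t)
  have d7 := d2.mul (d3.add (d4.mul d6))
  refine d7.congr_deriv ?_
  simp only [qF, Wr, Pi.add_apply, Pi.mul_apply, Pi.neg_apply]
  rw [← hs2]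
  push_cast
  field_simp
  ring

/-- the derivative of `S` -/
theorem hasDerivAt_S (hb : Base B χ χ1 M δ T) (hd : DSol B lam φ Φ) {t : ℝ} (ht : T ≤ t) :
    HasDerivAt (fun t : ℝ => φ t / (χ t : ℂ) * Complex.exp (lam * (Real.sqrt t : ℂ)))
      (Complex.exp (2 * (lam * (Real.sqrt t : ℂ))) * fW χ χ1 lam φ Φ t / (χ t : ℂ) ^ 2) t := by
  have hT1 := hb.T1
  have ht0 : 0 < t := by linarith
  have hs0 : 0 < Real.sqrt t := Real.sqrt_pos.2 ht0
  have hx := hb.pos t ht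
  have hxc : (χ t : ℂ) ≠ 0 := by exact_mod_cast hx.ne'
  have hsc : (Real.sqrt t : ℂ) ≠ 0 := by exact_mod_cast hs0.ne'
  have d1 := hasDerivAt_csqrt ht0
  have d2 := (d1.const_mul lam).cexp
  have d3 := (hasDerivAt_R hb.rsol hd hx.ne').mul d2
  refine d3.congr_deriv ?_
  simp only [fW]
  have e1 : Complex.exp (2 * (lam * (Real.sqrt t : ℂ))) * (Complex.exp (-(lam * (Real.sqrt t : ℂ))) *
    (Wr χ χ1 φ Φ t + lam / (2 * (Real.sqrt t : ℂ)) * ((χ t : ℂ) * φ t)))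
    = Complex.exp (lam * (Real.sqrt t : ℂ)) *
    (Wr χ χ1 φ Φ t + lam / (2 * (Real.sqrt t : ℂ)) * ((χ t : ℂ) * φ t)) := by
    rw [← mul_assoc, ← Complex.exp_add]
    congr 2
    ring
  rw [e1]
  push_cast
  field_simp

end

end Pool.Agent.Helper22.SAi
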