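import Pool.Agent.Helper22.SAi.SBound

/-!
Main estimate near infinity.
-/

namespace Pool.Agent.Helper22.SAi

open Filter Topology Set MeasureTheory

section

variable {B χ χ1 : ℝ → ℝ} {M δ T : ℝ} {lam : ℂ} {φ Φ : ℝ → ℂ}

/-- The normalised ratio. -/
noncomputable def SF (χ : ℝ → ℝ) (lam : ℂ) (φ : ℝ → ℂ) (t : ℝ) : ℂ :=
  φ t / (χ t : ℂ) * Complex.exp (lam * (Real.sqrt t : ℂ))

/-- The weight `χ² exp(-2 re lam √t)`. -/
noncomputable def GW (χ : ℝ → ℝ) (lam : ℂ) (t : ℝ) : ℝ :=
  χ t ^ 2 * Real.exp (-(2 * lam.re * Real.sqrt t))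

theorem hasDerivAt_GW (hb : Base B χ χ1 M δ T) {t : ℝ} (ht : T ≤ t) :
    HasDerivAt (GW χ lam) (-((2 * (-(χ1 t / χ t)) + lam.re / Real.sqrt t) * GW χ lam t)) t := by
  have hT1 := hb.T1
  have ht0 : 0 < t := by linarith
  have hs0 : 0 < Real.sqrt t := Real.sqrt_pos.2 ht0
  have hx := hb.pos t ht
  have d1 := ((Real.hasDerivAt_sqrt ht0.ne').const_mul (2 * lam.re)).neg.exp
  have d2 := (hb.rsol.hasDerivAt_sq hx.ne').mul d1
  refine d2.congr_deriv ?_
  simp only [GW, Pi.neg_apply]
  field_simp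
  ring

theorem norm_fW'_eq {t : ℝ} (hx : χ t ≠ 0) :
    ‖-(Complex.exp (-(lam * (Real.sqrt t : ℂ))) * ((χ t : ℂ) * φ t) * qF χ χ1 lam t)‖
      = GW χ lam t * ‖qF χ χ1 lam t‖ * ‖SF χ lam φ t‖ := by
  have hxc : (χ t : ℂ) ≠ 0 := by exact_mod_cast hx
  have e1 : Complex.exp (-(lam * (Real.sqrt t : ℂ))) * ((χ t : ℂ) * φ t)
      = Complex.exp (-(2 * (lam * (Real.sqrt t : ℂ)))) * ((χ t : ℂ) ^ 2) * SF χ lam φ t := by
    have : Complex.exp (-(lam * (Real.sqrt t : ℂ)))
        = Complex.exp (-(2 * (lam * (Real.sqrt t : ℂ)))) * Complex.exp (lam * (Real.sqrt t : ℂ)) := by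
      rw [← Complex.exp_add]; congr 1; ring
    rw [this]
    simp only [SF]
    field_simp
  rw [norm_neg, norm_mul, e1, norm_mul, norm_mul, Complex.norm_exp, norm_pow, Complex.norm_real,
    Real.norm_eq_abs, sq_abs]
  have e2 : (-(2 * (lam * (Real.sqrt t : ℂ)))).re = -(2 * lam.re * Real.sqrt t) := by
    simp
    ring
  rw [e2]
  simp only [GW]
  ring

theorem norm_S'_eq {t : ℝ} (hx : χ t ≠ 0) :
    ‖Complex.exp (2 * (lam * (Real.sqrt t : ℂ))) * fW χ χ1 lam φ Φ t / (χ t : ℂ) ^ 2‖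
      = ‖fW χ χ1 lam φ Φ t‖ / GW χ lam t := by
  rw [norm_div, norm_mul, Complex.norm_exp, norm_pow, Complex.norm_real,
    Real.norm_eq_abs, sq_abs]
  have e2 : (2 * (lam * (Real.sqrt t : ℂ))).re = 2 * lam.re * Real.sqrt t := by
    simp
    ring
  rw [e2]
  simp only [GW]
  have hx2 : χ t ^ 2 ≠ 0 := pow_ne_zero _ hx
  rw [Real.exp_neg]
  have := Real.exp_pos (2 * lam.re * Real.sqrt t)
  field_simp

theorem GW_le {t : ℝ} (ht : 1 ≤ t) : GW χ lam t ≤ χ t ^ 2 * Real.exp (2 * ‖lam‖ * t) := by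
  simp only [GW]
  apply mul_le_mul_of_nonneg_left _ (sq_nonneg _)
  apply Real.exp_le_exp.2
  have h1 : Real.sqrt t ≤ t := by
    rw [Real.sqrt_le_left (by linarith)]; nlinarith
  have h2 : -lam.re ≤ ‖lam‖ := (neg_le_abs _).trans (Complex.abs_re_le_norm _)
  have h3 := Real.sqrt_nonneg t
  have h4 := norm_nonneg lam
  calc -(2 * lam.re * Real.sqrt t) = 2 * ((-lam.re) * Real.sqrt t) := by ring
    _ ≤ 2 * (‖lam‖ * t) := by gcongr
    _ = 2 * ‖lam‖ * t := by ring

theorem tendsto_GW (hb : Base B χ χ1 M δ T) : Tendsto (GW χ lam) atTop (𝓝 0) := by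
  refine tendsto_of_tendsto_of_tendsto_of_le_of_le' tendsto_const_nhds (hb.g_decay (2 * ‖lam‖))
    (Eventually.of_forall fun t => by simp only [GW]; positivity) ?_
  filter_upwards [eventually_ge_atTop 1] with t ht
  exact GW_le ht

theorem tendsto_fW (hb : Base B χ χ1 M δ T) (hd : DSol B lam φ Φ)
    (hl : Tendsto (SF χ lam φ) atTop (𝓝 1)) :
    Tendsto (fW χ χ1 lam φ Φ) atTop (𝓝 0) := by
  rw [tendsto_zero_iff_norm_tendsto_zero]
  set L := ‖lam‖ with hL
  have h1 := hb.W_decay hd hl L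
  have h2 := (hb.g_decay (2 * L)).const_mul (2 * L)
  rw [mul_zero] at h2
  have h3 := h1.add h2
  rw [add_zero] at h3
  refine tendsto_of_tendsto_of_tendsto_of_le_of_le' tendsto_const_nhds h3
    (Eventually.of_forall fun t => norm_nonneg _) ?_
  filter_upwards [ratio_bound hl, eventually_ge_atTop T] with t h4 ht
  have hT1 := hb.T1
  have ht0 : 0 < t := by linarith
  have hx := hb.pos t ht
  have hxc : (χ t : ℂ) ≠ 0 := by exact_mod_cast hx.ne'
  have hs1 : 1 ≤ Real.sqrt t := Real.one_le_sqrt.2 (by linarith)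
  have hst : Real.sqrt t ≤ t := by
    rw [Real.sqrt_le_left (by linarith)]; nlinarith
  have e1 : ‖Complex.exp (-(lam * (Real.sqrt t : ℂ)))‖ ≤ Real.exp (L * t) := by
    rw [Complex.norm_exp]
    apply Real.exp_le_exp.2
    refine (le_abs_self _).trans ((Complex.abs_re_le_norm _).trans ?_)
    rw [norm_neg, norm_mul, Complex.norm_real, Real.norm_eq_abs, abs_of_nonneg (Real.sqrt_nonneg _)]
    gcongr
  have e2 : ‖lam / (2 * (Real.sqrt t : ℂ)) * ((χ t : ℂ) * φ t)‖
      ≤ L * (χ t ^ 2 * (2 * Real.exp (L * t))) := by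
    have e3 : (χ t : ℂ) * φ t = (χ t : ℂ) ^ 2 * (φ t / (χ t : ℂ)) := by field_simp
    rw [e3, norm_mul, norm_mul, norm_div, norm_pow, Complex.norm_real, Real.norm_eq_abs, sq_abs,
      norm_mul, Complex.norm_real, Real.norm_eq_abs, abs_of_nonneg (Real.sqrt_nonneg _)]
    simp only [Complex.norm_ofNat]
    have e4 : ‖lam‖ / (2 * Real.sqrt t) ≤ L := by
      rw [div_le_iff₀ (by positivity)]
      nlinarith [norm_nonneg lam]
    gcongr
  simp only [fW]
  rw [norm_mul]
  calc _ ≤ Real.exp (L * t) * (‖Wr χ χ1 φ Φ t‖ + L * (χ t ^ 2 * (2 * Real.exp (L * t)))) := by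
        apply mul_le_mul e1 _ (norm_nonneg _) (Real.exp_pos _).le
        exact (norm_add_le _ _).trans (by linarith)
    _ = Real.exp (L * t) * ‖Wr χ χ1 φ Φ t‖ + 2 * L * (χ t ^ 2 *
          (Real.exp (L * t) * Real.exp (L * t))) := by ring
    _ = _ := by
        rw [← Real.exp_add]
        congr 4
        ring

theorem S_main (hb : Base B χ χ1 M δ T) (hd : DSol B lam φ Φ)
    (hl : Tendsto (SF χ lam φ) atTop (𝓝 1)) {T' : ℝ} (hT : T ≤ T') (hL2 : 2 * ‖lam‖ ≤ T') :
    ∀ t ≥ T', ‖SF χ lam φ t‖ ≤ Real.exp (eM ‖lam‖ M δ t) ∧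
      ‖fW χ χ1 lam φ Φ t‖ ≤ GW χ lam t * (kM ‖lam‖ M δ t * Real.exp (eM ‖lam‖ M δ t)) ∧
      ‖SF χ lam φ t - 1‖ ≤ Real.exp (eM ‖lam‖ M δ t) - 1 := by
  have hT1 := hb.T1
  have hδ := hb.dpos
  have hM := hb.Mnn
  set L := ‖lam‖ with hL
  have hL0 : 0 ≤ L := norm_nonneg _
  have hTt : ∀ t ≥ T', T ≤ t := fun t ht => hT.trans ht
  have hpos : ∀ t ≥ T', 0 < t := fun t ht => by linarith [hTt t ht]
  have hSd : ∀ t ≥ T', HasDerivAt (SF χ lam φ)
      (Complex.exp (2 * (lam * (Real.sqrt t : ℂ))) * fW χ χ1 lam φ Φ t / (χ t : ℂ) ^ 2) t :=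
    fun t ht => hasDerivAt_S hb hd (hTt t ht)
  have hEd : ∀ t ≥ T', HasDerivAt (fun t => Real.exp (eM L M δ t))
      (Real.exp (eM L M δ t) * (-kM L M δ t)) t :=
    fun t ht => (hasDerivAt_eM hδ (hpos t ht)).exp
  have hE1 : ∀ t ≥ T', 1 ≤ Real.exp (eM L M δ t) := fun t ht =>
    Real.one_le_exp (eM_nonneg hL0 hM hδ (hpos t ht))
  have hEanti := anti_of_deriv hEd (fun t ht => by
    have := kM_nonneg (δ := δ) hL0 hM (hpos t ht)
    have := Real.exp_pos (eM L M δ t)
    nlinarith)
  -- boundedness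
  set F : ℝ → ℝ := fun t => ‖SF χ lam φ t‖ / Real.exp (eM L M δ t) with hF
  have hbdd : ∃ K, ∀ t ≥ T', F t ≤ K := by
    have h1 : ∀ᶠ t in atTop, ‖SF χ lam φ t‖ < 2 := hl.norm.eventually_lt_const (by simp)
    obtain ⟨N, hN⟩ := h1.exists_forall_of_atTop
    have hcont : ContinuousOn (SF χ lam φ) (Icc T' N) := fun t ht =>
      (hSd t ht.1).continuousAt.continuousWithinAt
    obtain ⟨K, hK⟩ := isCompact_Icc.exists_bound_of_continuousOn hcont
    refine ⟨max K 2, fun t ht => ?_⟩
    have h3 : ‖SF χ lam φ t‖ ≤ max K 2 := by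
      by_cases h : t ≤ N
      · exact (hK t ⟨ht, h⟩).trans (le_max_left _ _)
      · exact (hN t (by linarith)).le.trans (le_max_right _ _)
    simp only [hF]
    rw [div_le_iff₀ (Real.exp_pos _)]
    have h4 := hE1 t ht
    have h5 : 0 ≤ max K 2 := le_trans (by norm_num) (le_max_right _ _)
    nlinarith
  have hBA : BddAbove (F '' Ici T') := by
    obtain ⟨K, hK⟩ := hbdd
    exact ⟨K, by rintro _ ⟨t, ht, rfl⟩; exact hK t ht⟩
  set A := sSup (F '' Ici T') with hA
  have hFA : ∀ t ≥ T', F t ≤ A := fun t ht => le_csSup hBA ⟨t, ht, rfl⟩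
  have hF0 : ∀ t, 0 ≤ F t := fun t => by simp only [hF]; positivity
  have hA0 : 0 ≤ A := (hF0 T').trans (hFA T' le_rfl)
  have hSA : ∀ t ≥ T', ‖SF χ lam φ t‖ ≤ A * Real.exp (eM L M δ t) := by
    intro t ht
    have := hFA t ht
    simp only [hF] at this
    rwa [div_le_iff₀ (Real.exp_pos _)] at this
  have hGpos : ∀ t ≥ T', 0 < GW χ lam t := fun t ht => by
    have := hb.pos t (hTt t ht)
    simp only [GW]; positivity
  -- first comparison
  have hcmp1 : ∀ t ≥ T', ‖fW χ χ1 lam φ Φ t‖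
      ≤ A * (GW χ lam t * (kM L M δ t * Real.exp (eM L M δ t))) := by
    have hbder : ∀ t ≥ T', HasDerivAt
        (fun t => A * (GW χ lam t * (kM L M δ t * Real.exp (eM L M δ t))))
        (A * (-((2 * (-(χ1 t / χ t)) + lam.re / Real.sqrt t) * GW χ lam t)
            * (kM L M δ t * Real.exp (eM L M δ t))
          + GW χ lam t * (-kM' L M δ t * Real.exp (eM L M δ t)
            + kM L M δ t * (Real.exp (eM L M δ t) * (-kM L M δ t))))) t := by
      intro t ht
      exact ((hasDerivAt_GW hb (hTt t ht)).mul ((hasDerivAt_kM (hpos t ht)).mul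
        (hEd t ht))).const_mul A
    have hbl : Tendsto (fun t => A * (GW χ lam t * (kM L M δ t * Real.exp (eM L M δ t)))) atTop
        (𝓝 0) := by
      have h1 := (tendsto_GW (lam := lam) hb).const_mul (A * ((L ^ 2 + L * (M + 1)) * Real.exp (eM L M δ T')))
      rw [mul_zero] at h1
      refine tendsto_of_tendsto_of_tendsto_of_le_of_le' tendsto_const_nhds h1 ?_ ?_
      · filter_upwards [eventually_ge_atTop T'] with t ht
        have h2 := kM_nonneg (δ := δ) hL0 hM (hpos t ht)
        have h3 := hGpos t ht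
        have h4 := Real.exp_pos (eM L M δ t)
        positivity
      · filter_upwards [eventually_ge_atTop T'] with t ht
        have h2 := kM_nonneg (δ := δ) hL0 hM (hpos t ht)
        have h3 := (hGpos t ht).le
        have h5 := hEanti T' t le_rfl ht
        have h6 := kM_le (L := L) (M := M) hL0 hM hδ (t := t) (by linarith [hTt t ht])
        have h7 : kM L M δ t * Real.exp (eM L M δ t)
            ≤ (L ^ 2 + L * (M + 1)) * Real.exp (eM L M δ T') :=
          mul_le_mul h6 h5 (Real.exp_pos _).le (h2.trans h6)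
        calc A * (GW χ lam t * (kM L M δ t * Real.exp (eM L M δ t)))
            ≤ A * (GW χ lam t * ((L ^ 2 + L * (M + 1)) * Real.exp (eM L M δ T'))) := by
              gcongr
          _ = _ := by ring
    have h := cmpInf (f := fW χ χ1 lam φ Φ)
      (f' := fun t => (-(Complex.exp (-(lam * (Real.sqrt t : ℂ))) * ((χ t : ℂ) * φ t)
        * qF χ χ1 lam t))) (l := 0) (bl := 0)
      (fun t ht => hasDerivAt_fW hb hd (hTt t ht)) hbder
      (fun t ht => by
        have hx := hb.pos t (hTt t ht)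
        have ht0 := hpos t ht
        have hs0 : 0 < Real.sqrt t := Real.sqrt_pos.2 ht0
        rw [norm_fW'_eq hx.ne']
        have hq := qF_bound (lam := lam) hb (hTt t ht)
        rw [← hL] at hq
        have hS := hSA t ht
        have hk := kM_nonneg (δ := δ) hL0 hM ht0
        have hk' := kM'_nonneg hL0 hM hδ ht0
        have hG := (hGpos t ht).le
        have hE := (Real.exp_pos (eM L M δ t)).le
        have hp := hb.plow t (hTt t ht)
        -- drift lower bound
        have hdrift : Real.sqrt t ≤ 2 * (-(χ1 t / χ t)) + lam.re / Real.sqrt t := by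
          have h1 : -(L / Real.sqrt t) ≤ lam.re / Real.sqrt t := by
            rw [← neg_div]
            apply div_le_div_of_nonneg_right _ hs0.le
            have := (abs_le.1 (Complex.abs_re_le_norm lam)).1
            exact this
          have h2 : L / Real.sqrt t ≤ Real.sqrt t / 2 := by
            rw [div_le_iff₀ hs0]
            have : Real.sqrt t * Real.sqrt t = t := Real.mul_self_sqrt ht0.le
            nlinarith
          linarith
        have step1 : GW χ lam t * ‖qF χ χ1 lam t‖ * ‖SF χ lam φ t‖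
            ≤ GW χ lam t * (Real.sqrt t * kM L M δ t) * (A * Real.exp (eM L M δ t)) := by
          apply mul_le_mul _ hS (norm_nonneg _) (by positivity)
          exact mul_le_mul_of_nonneg_left hq hG
        refine step1.trans ?_
        have step2 : GW χ lam t * (Real.sqrt t * kM L M δ t) * (A * Real.exp (eM L M δ t))
            ≤ A * ((2 * (-(χ1 t / χ t)) + lam.re / Real.sqrt t) * (GW χ lam t
              * (kM L M δ t * Real.exp (eM L M δ t)))) := by
          have : GW χ lam t * (Real.sqrt t * kM L M δ t) * (A * Real.exp (eM L M δ t))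
            = A * (Real.sqrt t * (GW χ lam t
              * (kM L M δ t * Real.exp (eM L M δ t)))) := by ring
          rw [this]
          apply mul_le_mul_of_nonneg_left _ hA0
          apply mul_le_mul_of_nonneg_right hdrift (by positivity)
        refine step2.trans ?_
        have h8 : 0 ≤ A * (GW χ lam t * (kM' L M δ t * Real.exp (eM L M δ t)
            + kM L M δ t * (Real.exp (eM L M δ t) * kM L M δ t))) := by positivity
        linarith)
      (tendsto_fW hb hd hl) hbl
    intro t ht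
    simpa using h t ht
  -- second comparison
  have hcmp2 : ∀ t ≥ T', ‖SF χ lam φ t - 1‖ ≤ A * Real.exp (eM L M δ t) - A := by
    have hbl : Tendsto (fun t => A * Real.exp (eM L M δ t)) atTop (𝓝 A) := by
      have h1 := (Real.continuous_exp.tendsto 0).comp (tendsto_eM (L := L) (M := M) hδ)
      have h2 := h1.const_mul A
      simpa [Function.comp_def] using h2
    refine cmpInf (f := SF χ lam φ) hSd (b' := fun t => A * (Real.exp (eM L M δ t) * (-kM L M δ t)))
      (fun t ht => (hEd t ht).const_mul A) (fun t ht => ?_) hl hbl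
    have hx := hb.pos t (hTt t ht)
    rw [norm_S'_eq hx.ne', div_le_iff₀ (hGpos t ht)]
    refine (hcmp1 t ht).trans (le_of_eq ?_)
    ring
  -- A ≤ 1
  have hA1 : A ≤ 1 := by
    by_contra hcon
    push Not at hcon
    set E0 := Real.exp (eM L M δ T') with hE0
    have hE0pos : 0 < E0 := Real.exp_pos _
    have h1 : ∀ t ≥ T', F t ≤ A - (A - 1) / E0 := by
      intro t ht
      have h2 := hcmp2 t ht
      have h3 : ‖SF χ lam φ t‖ ≤ 1 + (A * Real.exp (eM L M δ t) - A) := by
        have := norm_add_le (1:ℂ) (SF χ lam φ t - 1)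
        simp only [add_sub_cancel, norm_one] at this
        linarith
      have hEp := Real.exp_pos (eM L M δ t)
      simp only [hF]
      rw [div_le_iff₀ hEp]
      have h4 : Real.exp (eM L M δ t) ≤ E0 := hEanti T' t le_rfl ht
      have h5 : (A - 1) / E0 * Real.exp (eM L M δ t) ≤ A - 1 := by
        rw [div_mul_eq_mul_div, div_le_iff₀ hE0pos]
        exact mul_le_mul_of_nonneg_left h4 (by linarith)
      nlinarith
    have h2 : A ≤ A - (A - 1) / E0 := by
      refine csSup_le (nonempty_Ici.image F) ?_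
      rintro _ ⟨t, ht, rfl⟩
      exact h1 t ht
    have h3 : 0 < (A - 1) / E0 := div_pos (by linarith) hE0pos
    linarith
  intro t ht
  have hE := (Real.exp_pos (eM L M δ t)).le
  refine ⟨(hSA t ht).trans ?_, (hcmp1 t ht).trans ?_, (hcmp2 t ht).trans ?_⟩
  · nlinarith
  · have h2 := kM_nonneg (δ := δ) hL0 hM (hpos t ht)
    have h3 := (hGpos t ht).le
    have h4 : 0 ≤ GW χ lam t * (kM L M δ t * Real.exp (eM L M δ t)) := by positivity
    nlinarith
  · have h5 := hE1 t ht
    nlinarith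

end

end Pool.Agent.Helper22.SAi
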