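import Pool.Agent.Helper22.SAi.Defs

/-!
Smoothing of a path which has small oscillation on windows of length `1/√t`.
-/

namespace Pool.Agent.Helper22.SAi

open Filter Topology Set MeasureTheory

/-- The path is continuous and its oscillation on windows of length `1/√t` decays like `t^(-δ)`. -/
structure PathReg (B : ℝ → ℝ) (C δ : ℝ) : Prop where
  cont : Continuous B
  dpos : 0 < δ
  dle : δ ≤ 1 / 2
  Cnn : 0 ≤ C
  osc : ∀ t : ℝ, 1 ≤ t → ∀ s ∈ Icc t (t + (Real.sqrt t)⁻¹), |B s - B t| ≤ C * t ^ (-δ)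

theorem PathReg.smooth {B : ℝ → ℝ} {C δ : ℝ} (h : PathReg B C δ) :
    ∃ Bh Bh' : ℝ → ℝ, ∀ t : ℝ, 1 ≤ t → HasDerivAt Bh (Bh' t) t ∧ |B t - Bh t| ≤ C * t ^ (-δ) ∧
      |Bh' t| ≤ 2 * C * (Real.sqrt t * t ^ (-δ)) := by
  set A : ℝ → ℝ := fun x => ∫ u in (0:ℝ)..x, B u with hA
  have hAd : ∀ x, HasDerivAt A (B x) x := fun x =>
    intervalIntegral.integral_hasDerivAt_right (h.cont.intervalIntegrable _ _)
      (h.cont.stronglyMeasurableAtFilter _ _) h.cont.continuousAt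
  refine ⟨fun t => Real.sqrt t * (A (t + (Real.sqrt t)⁻¹) - A t),
    fun t => 1 / (2 * Real.sqrt t) * (A (t + (Real.sqrt t)⁻¹) - A t)
      + Real.sqrt t * (B (t + (Real.sqrt t)⁻¹) * (1 + -(1 / (2 * Real.sqrt t)) / (Real.sqrt t) ^ 2)
        - B t), ?_⟩
  intro t ht
  have ht0 : 0 < t := by linarith
  set s := Real.sqrt t with hs
  have hs1 : 1 ≤ s := by
    rw [hs]; exact Real.one_le_sqrt.2 ht
  have hs0 : 0 < s := by linarith
  have hs2 : s ^ 2 = t := Real.sq_sqrt ht0.le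
  have htd : 0 ≤ t ^ (-δ) := Real.rpow_nonneg ht0.le _
  have hCt : 0 ≤ C * t ^ (-δ) := mul_nonneg h.Cnn htd
  have hI : |s * (A (t + s⁻¹) - A t) - B t| ≤ C * t ^ (-δ) := by
    have e1 : A (t + s⁻¹) - A t = ∫ u in t..(t + s⁻¹), B u := by
      rw [hA]
      exact intervalIntegral.integral_interval_sub_left (h.cont.intervalIntegrable _ _)
        (h.cont.intervalIntegrable _ _)
    have e2 : s * (A (t + s⁻¹) - A t) - B t = s * ∫ u in t..(t + s⁻¹), (B u - B t) := by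
      rw [intervalIntegral.integral_sub (h.cont.intervalIntegrable _ _)
        (continuous_const.intervalIntegrable _ _), ← e1]
      simp only [intervalIntegral.integral_const, smul_eq_mul]
      field_simp
      ring
    rw [e2, abs_mul, abs_of_pos hs0]
    have e3 : ‖∫ u in t..(t + s⁻¹), (B u - B t)‖ ≤ (C * t ^ (-δ)) * |t + s⁻¹ - t| := by
      apply intervalIntegral.norm_integral_le_of_norm_le_const
      intro x hx
      rw [uIoc_of_le (by linarith [inv_pos.2 hs0])] at hx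
      exact h.osc t ht x ⟨hx.1.le, hx.2⟩
    rw [Real.norm_eq_abs] at e3
    have e4 : |t + s⁻¹ - t| = s⁻¹ := by
      rw [add_sub_cancel_left, abs_of_pos (inv_pos.2 hs0)]
    rw [e4] at e3
    calc s * |∫ u in t..(t + s⁻¹), (B u - B t)| ≤ s * (C * t ^ (-δ) * s⁻¹) :=
          mul_le_mul_of_nonneg_left e3 hs0.le
      _ = C * t ^ (-δ) := by field_simp
  have hE : |B (t + s⁻¹) - B t| ≤ C * t ^ (-δ) :=
    h.osc t ht _ ⟨by linarith [inv_pos.2 hs0], le_rfl⟩
  refine ⟨?_, ?_, ?_⟩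
  · have d1 : HasDerivAt Real.sqrt (1 / (2 * s)) t := Real.hasDerivAt_sqrt ht0.ne'
    have d2 : HasDerivAt (fun t => t + (Real.sqrt t)⁻¹) (1 + -(1 / (2 * s)) / s ^ 2) t :=
      (hasDerivAt_id t).add (d1.inv hs0.ne')
    have d3 : HasDerivAt (fun t => A (t + (Real.sqrt t)⁻¹))
        (B (t + s⁻¹) * (1 + -(1 / (2 * s)) / s ^ 2)) t :=
      HasDerivAt.comp (h₂ := A) (h := fun t => t + (Real.sqrt t)⁻¹) t (hAd (t + s⁻¹)) d2
    exact d1.mul (d3.sub (hAd t))
  · rw [abs_sub_comm]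
    exact hI
  · have e5 : 1 / (2 * s) * (A (t + s⁻¹) - A t)
      + s * (B (t + s⁻¹) * (1 + -(1 / (2 * s)) / s ^ 2) - B t)
      = s * (B (t + s⁻¹) - B t) + 1 / (2 * s ^ 2) * ((s * (A (t + s⁻¹) - A t) - B t)
        - (B (t + s⁻¹) - B t)) := by
      field_simp
      ring
    change |1 / (2 * s) * (A (t + s⁻¹) - A t)
      + s * (B (t + s⁻¹) * (1 + -(1 / (2 * s)) / s ^ 2) - B t)| ≤ _
    rw [e5]
    have h1 : |s * (B (t + s⁻¹) - B t)| ≤ s * (C * t ^ (-δ)) := by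
      rw [abs_mul, abs_of_pos hs0]
      exact mul_le_mul_of_nonneg_left hE hs0.le
    have h2 : |1 / (2 * s ^ 2) * ((s * (A (t + s⁻¹) - A t) - B t)
        - (B (t + s⁻¹) - B t))| ≤ s * (C * t ^ (-δ)) := by
      rw [abs_mul]
      have h3 : |(s * (A (t + s⁻¹) - A t) - B t) - (B (t + s⁻¹) - B t)| ≤ 2 * (C * t ^ (-δ)) := by
        refine (abs_sub _ _).trans ?_
        linarith
      have h4 : |1 / (2 * s ^ 2)| ≤ 1 / 2 := by
        rw [abs_of_pos (by positivity)]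
        apply one_div_le_one_div_of_le (by norm_num)
        nlinarith
      calc |1 / (2 * s ^ 2)| * |(s * (A (t + s⁻¹) - A t) - B t) - (B (t + s⁻¹) - B t)|
          ≤ 1 / 2 * (2 * (C * t ^ (-δ))) := mul_le_mul h4 h3 (abs_nonneg _) (by norm_num)
        _ = 1 * (C * t ^ (-δ)) := by ring
        _ ≤ s * (C * t ^ (-δ)) := mul_le_mul_of_nonneg_right hs1 hCt
    refine (abs_add_le _ _).trans ?_
    calc _ ≤ s * (C * t ^ (-δ)) + s * (C * t ^ (-δ)) := add_le_add h1 h2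
      _ = 2 * C * (s * t ^ (-δ)) := by ring

end Pool.Agent.Helper22.SAi
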