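import Pool.Agent.Helper22.SAi.SMain

/-!
Upper bound `‖φ_lam(t₀)‖ ≤ exp(C |lam|^(3/2))`.
-/

namespace Pool.Agent.Helper22.SAi

open Filter Topology Set MeasureTheory

theorem le_exp_self' (x : ℝ) : x ≤ Real.exp x := by linarith [Real.add_one_le_exp x]

/-- transfer on a compact interval -/
theorem transfer {B : ℝ → ℝ} (hB : Continuous B) (a b : ℝ) (hab : a ≤ b) :
    ∃ K : ℝ, 0 ≤ K ∧ ∀ (lam : ℂ) (φ Φ : ℝ → ℂ), DSol B lam φ Φ →
      ‖φ a‖ + ‖Φ a‖ ≤ Real.exp (K * (1 + ‖lam‖)) * (‖φ b‖ + ‖Φ b‖) := by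
  obtain ⟨β0, hβ0⟩ := (isCompact_Icc (a := a) (b := b)).exists_bound_of_continuousOn hB.continuousOn
  set β := |β0| with hβ
  have hβn : 0 ≤ β := abs_nonneg _
  have hBβ : ∀ t ∈ Icc a b, ‖(B t : ℂ)‖ ≤ β := by
    intro t ht
    rw [Complex.norm_real]
    exact (hβ0 t ht).trans (le_abs_self _)
  set τ := max |a| |b| with hτ
  have hτn : 0 ≤ τ := (abs_nonneg a).trans (le_max_left _ _)
  have htτ : ∀ t ∈ Icc a b, ‖(t : ℂ)‖ ≤ τ := by
    intro t ht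
    rw [Complex.norm_real, Real.norm_eq_abs]
    exact abs_le_max_abs_abs ht.1 ht.2
  refine ⟨(2 + β) * (1 + β) + ((1 + β) + τ + β * (1 + β) + 1) * (b - a), by
    have : 0 ≤ b - a := by linarith
    positivity, fun lam φ Φ hd => ?_⟩
  set L := ‖lam‖ with hL
  have hL0 : 0 ≤ L := norm_nonneg _
  set f : ℝ → ℂ × ℂ := fun t => (φ t, Φ t - (B t : ℂ) * φ t) with hf
  set f' : ℝ → ℂ × ℂ := fun t => (Φ t, ((t : ℂ) + lam) * φ t - (B t : ℂ) * Φ t) with hf'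
  have hfd : ∀ t ∈ Icc a b, HasDerivAt f (f' t) t := fun t _ => (hd.d1 t).prodMk (hd.d2 t)
  have hΦ : ∀ t ∈ Icc a b, ‖Φ t‖ ≤ (1 + β) * ‖f t‖ := by
    intro t ht
    have e : Φ t = (Φ t - (B t : ℂ) * φ t) + (B t : ℂ) * φ t := by ring
    rw [e]
    have h1 : ‖(Φ t - (B t : ℂ) * φ t)‖ ≤ ‖f t‖ := norm_snd_le (f t)
    have h2 : ‖φ t‖ ≤ ‖f t‖ := norm_fst_le (f t)
    have h3 := hBβ t ht
    calc ‖(Φ t - (B t : ℂ) * φ t) + (B t : ℂ) * φ t‖ ≤ ‖(Φ t - (B t : ℂ) * φ t)‖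
        + ‖(B t : ℂ)‖ * ‖φ t‖ := by
          refine (norm_add_le _ _).trans ?_
          rw [norm_mul]
      _ ≤ ‖f t‖ + β * ‖f t‖ := by gcongr
      _ = (1 + β) * ‖f t‖ := by ring
  set K1 := (1 + β) + (τ + L) + β * (1 + β) with hK1
  have hle : ∀ t ∈ Icc a b, ‖f' t‖ ≤ K1 * ‖f t‖ := by
    intro t ht
    have h1 := hΦ t ht
    have h2 : ‖φ t‖ ≤ ‖f t‖ := norm_fst_le (f t)
    have h3 := hBβ t ht
    have h4 := htτ t ht
    have hfn : 0 ≤ ‖f t‖ := norm_nonneg _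
    rw [Prod.norm_def]
    apply max_le
    · refine h1.trans ?_
      apply mul_le_mul_of_nonneg_right _ hfn
      rw [hK1]
      have : 0 ≤ β * (1 + β) := by positivity
      linarith
    · calc ‖((t : ℂ) + lam) * φ t - (B t : ℂ) * Φ t‖
          ≤ ‖((t : ℂ) + lam)‖ * ‖φ t‖ + ‖(B t : ℂ)‖ * ‖Φ t‖ := by
            refine (norm_sub_le _ _).trans ?_
            rw [norm_mul, norm_mul]
        _ ≤ (τ + L) * ‖f t‖ + β * ((1 + β) * ‖f t‖) := by
            gcongr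
            exact (norm_add_le _ _).trans (by linarith)
        _ ≤ K1 * ‖f t‖ := by
            rw [hK1]
            nlinarith [mul_nonneg hβn hfn]
  have hg := gronwall_back hfd hle a ⟨le_rfl, hab⟩
  have h1 : ‖f b‖ ≤ (1 + β) * (‖φ b‖ + ‖Φ b‖) := by
    have h3 := hBβ b ⟨hab, le_rfl⟩
    have hφn := norm_nonneg (φ b)
    have hΦn := norm_nonneg (Φ b)
    rw [Prod.norm_def]
    apply max_le
    · change ‖φ b‖ ≤ _
      nlinarith
    · change ‖Φ b - (B b : ℂ) * φ b‖ ≤ _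
      refine (norm_sub_le _ _).trans ?_
      rw [norm_mul]
      nlinarith [mul_le_mul_of_nonneg_right h3 hφn]
  have h2 : ‖φ a‖ + ‖Φ a‖ ≤ (2 + β) * ‖f a‖ := by
    have h3 := hΦ a ⟨le_rfl, hab⟩
    have h4 : ‖φ a‖ ≤ ‖f a‖ := norm_fst_le (f a)
    linarith
  have h5 : (2 + β) * (1 + β) ≤ Real.exp ((2 + β) * (1 + β)) := le_exp_self' _
  have hS : 0 ≤ ‖φ b‖ + ‖Φ b‖ := by positivity
  calc ‖φ a‖ + ‖Φ a‖ ≤ (2 + β) * ‖f a‖ := h2
    _ ≤ (2 + β) * (‖f b‖ * Real.exp (K1 * (b - a))) := by gcongr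
    _ ≤ (2 + β) * (((1 + β) * (‖φ b‖ + ‖Φ b‖)) * Real.exp (K1 * (b - a))) := by gcongr
    _ = ((2 + β) * (1 + β)) * Real.exp (K1 * (b - a)) * (‖φ b‖ + ‖Φ b‖) := by ring
    _ ≤ Real.exp ((2 + β) * (1 + β)) * Real.exp (K1 * (b - a)) * (‖φ b‖ + ‖Φ b‖) := by gcongr
    _ = Real.exp ((2 + β) * (1 + β) + K1 * (b - a)) * (‖φ b‖ + ‖Φ b‖) := by rw [Real.exp_add]
    _ ≤ _ := by
        apply mul_le_mul_of_nonneg_right _ hS
        apply Real.exp_le_exp.2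
        have hba : 0 ≤ b - a := by linarith
        have h6 : 0 ≤ (2 + β) * (1 + β) * L := by positivity
        have h7 : K1 ≤ ((1 + β) + τ + β * (1 + β) + 1) * (1 + L) := by
          rw [hK1]
          have : 0 ≤ ((1 + β) + τ + β * (1 + β)) * L := by positivity
          nlinarith
        have h8 := mul_le_mul_of_nonneg_right h7 hba
        nlinarith

section

variable {B χ χ1 : ℝ → ℝ} {M δ T : ℝ}

/-- bound of `R` and `R'` for `t ≥ T'`. -/
theorem R_bound (hb : Base B χ χ1 M δ T) {lam : ℂ} {φ Φ : ℝ → ℂ} (hd : DSol B lam φ Φ)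
    (hl : Tendsto (SF χ lam φ) atTop (𝓝 1)) {T' : ℝ} (hT : T ≤ T') (hL2 : 2 * ‖lam‖ ≤ T') :
    ‖φ T' / (χ T' : ℂ)‖ ≤ Real.exp (‖lam‖ * Real.sqrt T') * Real.exp (eM ‖lam‖ M δ T') ∧
    ‖Wr χ χ1 φ Φ T' / ((χ T' ^ 2 : ℝ) : ℂ)‖ ≤ Real.exp (‖lam‖ * Real.sqrt T') *
      ((kM ‖lam‖ M δ T' + ‖lam‖) * Real.exp (eM ‖lam‖ M δ T')) := by
  obtain ⟨h1, h2, -⟩ := S_main hb hd hl hT hL2 T' le_rfl
  have hT1 := hb.T1
  set L := ‖lam‖ with hL
  have hL0 : 0 ≤ L := norm_nonneg _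
  have ht0 : 0 < T' := by linarith
  have hs0 : 0 < Real.sqrt T' := Real.sqrt_pos.2 ht0
  have hs1 : 1 ≤ Real.sqrt T' := Real.one_le_sqrt.2 (by linarith)
  have hx := hb.pos T' hT
  have hxc : (χ T' : ℂ) ≠ 0 := by exact_mod_cast hx.ne'
  have hsc : (Real.sqrt T' : ℂ) ≠ 0 := by exact_mod_cast hs0.ne'
  have hre : |lam.re * Real.sqrt T'| ≤ L * Real.sqrt T' := by
    rw [abs_mul, abs_of_pos hs0]
    exact mul_le_mul_of_nonneg_right (Complex.abs_re_le_norm _) hs0.le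
  have hre' : (lam * (Real.sqrt T' : ℂ)).re = lam.re * Real.sqrt T' := by simp
  have hR : ‖φ T' / (χ T' : ℂ)‖ ≤ Real.exp (L * Real.sqrt T') * Real.exp (eM L M δ T') := by
    have e : φ T' / (χ T' : ℂ) = Complex.exp (-(lam * (Real.sqrt T' : ℂ))) * SF χ lam φ T' := by
      simp only [SF]
      rw [mul_comm (φ T' / (χ T' : ℂ)), ← mul_assoc, ← Complex.exp_add]
      simp
    rw [e, norm_mul, Complex.norm_exp, Complex.neg_re, hre']
    apply mul_le_mul _ h1 (norm_nonneg _) (Real.exp_pos _).le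
    apply Real.exp_le_exp.2
    linarith [(abs_le.1 hre).1]
  refine ⟨hR, ?_⟩
  have hE := Real.exp_pos (eM L M δ T')
  have e : Wr χ χ1 φ Φ T' / ((χ T' ^ 2 : ℝ) : ℂ)
      = Complex.exp (lam * (Real.sqrt T' : ℂ)) * fW χ χ1 lam φ Φ T' / ((χ T' ^ 2 : ℝ) : ℂ)
        - lam / (2 * (Real.sqrt T' : ℂ)) * (φ T' / (χ T' : ℂ)) := by
    simp only [fW]
    rw [← mul_assoc, ← Complex.exp_add]
    simp only [add_neg_cancel, Complex.exp_zero, one_mul]
    push_cast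
    field_simp
    ring
  rw [e]
  have h3 : ‖Complex.exp (lam * (Real.sqrt T' : ℂ)) * fW χ χ1 lam φ Φ T' / ((χ T' ^ 2 : ℝ) : ℂ)‖
      ≤ Real.exp (L * Real.sqrt T') * (kM L M δ T' * Real.exp (eM L M δ T')) := by
    rw [norm_div, norm_mul, Complex.norm_exp, hre', Complex.norm_real, Real.norm_eq_abs,
      abs_of_pos (by positivity), div_le_iff₀ (by positivity)]
    have hk := kM_nonneg (L := L) (δ := δ) hL0 hb.Mnn ht0
    calc Real.exp (lam.re * Real.sqrt T') * ‖fW χ χ1 lam φ Φ T'‖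
        ≤ Real.exp (lam.re * Real.sqrt T') * (GW χ lam T' * (kM L M δ T' * Real.exp (eM L M δ T'))) := by
          gcongr
      _ = (Real.exp (lam.re * Real.sqrt T') * Real.exp (-(2 * lam.re * Real.sqrt T')))
          * (kM L M δ T' * Real.exp (eM L M δ T')) * χ T' ^ 2 := by
          simp only [GW]; ring
      _ ≤ Real.exp (L * Real.sqrt T') * (kM L M δ T' * Real.exp (eM L M δ T')) * χ T' ^ 2 := by
          rw [← Real.exp_add]
          have : lam.re * Real.sqrt T' + -(2 * lam.re * Real.sqrt T') ≤ L * Real.sqrt T' := by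
            linarith [(abs_le.1 hre).1]
          have := Real.exp_le_exp.2 this
          gcongr
  have h4 : ‖lam / (2 * (Real.sqrt T' : ℂ)) * (φ T' / (χ T' : ℂ))‖
      ≤ L * (Real.exp (L * Real.sqrt T') * Real.exp (eM L M δ T')) := by
    rw [norm_mul]
    apply mul_le_mul _ hR (norm_nonneg _) hL0
    rw [norm_div, norm_mul, Complex.norm_real, Real.norm_eq_abs, abs_of_pos hs0]
    simp only [Complex.norm_ofNat]
    rw [div_le_iff₀ (by positivity)]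
    nlinarith
  refine (norm_sub_le _ _).trans ?_
  calc _ ≤ Real.exp (L * Real.sqrt T') * (kM L M δ T' * Real.exp (eM L M δ T'))
        + L * (Real.exp (L * Real.sqrt T') * Real.exp (eM L M δ T')) := add_le_add h3 h4
    _ = _ := by ring

theorem upper_T (hb : Base B χ χ1 M δ T) :
    ∃ C : ℝ, ∀ (lam : ℂ) (φ Φ : ℝ → ℂ), 1 ≤ ‖lam‖ → DSol B lam φ Φ →
      Tendsto (SF χ lam φ) atTop (𝓝 1) →
      ‖φ T‖ + ‖Φ T‖ ≤ Real.exp (C * (‖lam‖ * Real.sqrt ‖lam‖)) := by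
  have hT1 := hb.T1
  have hM := hb.Mnn
  have hδ := hb.dpos
  have hxT := hb.pos T le_rfl
  set C1 := Real.sqrt (2 * T) + (1/2 + (M + 1) / δ) + (M + 3) + 2 with hC1
  set C2 := C1 + 2 * T * (1 + 4 * Real.sqrt (2 * T)) with hC2
  set C3 := C2 + (2 * χ T + |χ1 T|) + 1 with hC3
  refine ⟨C3, fun lam φ Φ hL1 hd hl => ?_⟩
  set L := ‖lam‖ with hL
  have hL0 : 0 < L := by linarith
  have hsL1 : 1 ≤ Real.sqrt L := Real.one_le_sqrt.2 hL1
  have hsL2 : Real.sqrt L * Real.sqrt L = L := Real.mul_self_sqrt hL0.le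
  set X := L * Real.sqrt L with hX
  have hLX : L ≤ X := by rw [hX]; nlinarith
  have hsLX : Real.sqrt L ≤ X := by rw [hX]; nlinarith
  have hX1 : 1 ≤ X := hL1.trans hLX
  set T' := 2 * T * L with hT'
  have hTT' : T ≤ T' := by rw [hT']; nlinarith
  have hLT' : 2 * L ≤ T' := by rw [hT']; nlinarith
  have hT'0 : 0 < T' := by linarith
  obtain ⟨b1, b2⟩ := R_bound hb hd hl hTT' hLT'
  rw [← hL] at b1 b2
  -- exponents
  have hsT' : Real.sqrt T' = Real.sqrt (2 * T) * Real.sqrt L := by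
    rw [hT', Real.sqrt_mul (by linarith)]
  have e1 : L * Real.sqrt T' = Real.sqrt (2 * T) * X := by rw [hsT', hX]; ring
  have e2 : eM L M δ T' ≤ (1/2 + (M + 1) / δ) * X := by
    simp only [eM]
    have h1 : L ^ 2 / 2 * T' ^ (-(1/2) : ℝ) ≤ 1/2 * X := by
      rw [Real.rpow_neg hT'0.le, ← Real.sqrt_eq_rpow]
      have h2 : Real.sqrt L ≤ Real.sqrt T' := Real.sqrt_le_sqrt (by linarith)
      have h3 : (Real.sqrt T')⁻¹ ≤ (Real.sqrt L)⁻¹ := inv_anti₀ (by linarith) h2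
      calc L ^ 2 / 2 * (Real.sqrt T')⁻¹ ≤ L ^ 2 / 2 * (Real.sqrt L)⁻¹ := by gcongr
        _ = 1/2 * X := by
          rw [hX]
          field_simp
          nlinarith
    have h4 : L * (M + 1) / δ * T' ^ (-δ) ≤ (M + 1) / δ * X := by
      have h5 : T' ^ (-δ) ≤ 1 := rpow_neg_le_one (by linarith) hδ.le
      calc L * (M + 1) / δ * T' ^ (-δ) ≤ L * (M + 1) / δ * 1 := by gcongr
        _ = (M + 1) / δ * L := by ring
        _ ≤ (M + 1) / δ * X := by gcongr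
    linarith
  have e3 : kM L M δ T' + L ≤ Real.exp ((M + 3 + 2) * X) := by
    have h1 := kM_le (L := L) (M := M) hL0.le hM hδ (t := T') (by linarith)
    have h2 : L ≤ Real.exp X := hLX.trans (le_exp_self' X)
    have h3 : M + 3 ≤ Real.exp ((M + 3) * X) := by
      refine le_trans ?_ (le_exp_self' _)
      nlinarith
    have h4 : Real.exp ((M + 3 + 2) * X) = Real.exp ((M + 3) * X) * (Real.exp X * Real.exp X) := by
      rw [← Real.exp_add, ← Real.exp_add]; congr 1; ring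
    rw [h4]
    have h5 : L * L ≤ Real.exp X * Real.exp X := by gcongr
    calc kM L M δ T' + L ≤ L ^ 2 + L * (M + 1) + L := by linarith
      _ ≤ (M + 3) * (L * L) := by
        have h6 : L ≤ L * L := by nlinarith
        have h7 : M * L ≤ M * (L * L) := mul_le_mul_of_nonneg_left h6 hM
        nlinarith [h6, h7]
      _ ≤ _ := by gcongr
  have b1' : ‖φ T' / (χ T' : ℂ)‖ ≤ Real.exp ((Real.sqrt (2 * T) + (1/2 + (M + 1) / δ)) * X) := by
    refine b1.trans ?_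
    rw [← Real.exp_add, e1]
    apply Real.exp_le_exp.2
    linarith
  have hk := kM_nonneg (L := L) (δ := δ) hL0.le hM hT'0
  have b2' : ‖Wr χ χ1 φ Φ T' / ((χ T' ^ 2 : ℝ) : ℂ)‖ ≤ Real.exp (C1 * X) := by
    refine b2.trans ?_
    calc Real.exp (L * Real.sqrt T') * ((kM L M δ T' + L) * Real.exp (eM L M δ T'))
        ≤ Real.exp (Real.sqrt (2 * T) * X) * (Real.exp ((M + 3 + 2) * X) *
          Real.exp ((1/2 + (M + 1) / δ) * X)) := by
          rw [e1]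
          gcongr
      _ = Real.exp (C1 * X) := by
          rw [← Real.exp_add, ← Real.exp_add, hC1]; congr 1; ring
  -- Gronwall on [T, T']
  set f : ℝ → ℂ × ℂ := fun t => ((Real.sqrt L : ℂ) * (φ t / (χ t : ℂ)),
    Wr χ χ1 φ Φ t / ((χ t ^ 2 : ℝ) : ℂ)) with hf
  set f' : ℝ → ℂ × ℂ := fun t => ((Real.sqrt L : ℂ) * (Wr χ χ1 φ Φ t / ((χ t ^ 2 : ℝ) : ℂ)),
    lam * (φ t / (χ t : ℂ)) + ((2 * (-(χ1 t / χ t)) : ℝ) : ℂ)
      * (Wr χ χ1 φ Φ t / ((χ t ^ 2 : ℝ) : ℂ))) with hf'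
  have hfd : ∀ t ∈ Icc T T', HasDerivAt f (f' t) t := by
    intro t ht
    have hx := hb.pos t ht.1
    have hxc : (χ t : ℂ) ≠ 0 := by exact_mod_cast hx.ne'
    refine ((hasDerivAt_R hb.rsol hd hx.ne').const_mul _).prodMk ?_
    have d1 : HasDerivAt (fun s => ((χ s ^ 2 : ℝ) : ℂ))
        ((-(2 * (-(χ1 t / χ t)) * χ t ^ 2) : ℝ) : ℂ) t := (hb.rsol.hasDerivAt_sq hx.ne').ofReal_comp
    have hx2 : ((χ t ^ 2 : ℝ) : ℂ) ≠ 0 := by
      push_cast
      exact pow_ne_zero 2 hxc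
    refine ((hasDerivAt_Wr hb.rsol hd t).div d1 hx2).congr_deriv ?_
    push_cast
    field_simp
    ring
  have hle : ∀ t ∈ Icc T T', ‖f' t‖ ≤ (Real.sqrt L + 4 * Real.sqrt T') * ‖f t‖ := by
    intro t ht
    have h1 : ‖(Real.sqrt L : ℂ) * (φ t / (χ t : ℂ))‖ ≤ ‖f t‖ := norm_fst_le (f t)
    have h2 : ‖Wr χ χ1 φ Φ t / ((χ t ^ 2 : ℝ) : ℂ)‖ ≤ ‖f t‖ := norm_snd_le (f t)
    have hfn : 0 ≤ ‖f t‖ := norm_nonneg _
    have hsL0 : 0 ≤ Real.sqrt L := Real.sqrt_nonneg _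
    have hnsL : ‖(Real.sqrt L : ℂ)‖ = Real.sqrt L := by
      rw [Complex.norm_real, Real.norm_eq_abs, abs_of_nonneg hsL0]
    have hsT0 : 0 ≤ Real.sqrt T' := Real.sqrt_nonneg _
    rw [norm_mul, hnsL] at h1
    rw [Prod.norm_def]
    apply max_le
    · change ‖(Real.sqrt L : ℂ) * (Wr χ χ1 φ Φ t / ((χ t ^ 2 : ℝ) : ℂ))‖ ≤ _
      rw [norm_mul, hnsL]
      calc Real.sqrt L * ‖Wr χ χ1 φ Φ t / ((χ t ^ 2 : ℝ) : ℂ)‖ ≤ Real.sqrt L * ‖f t‖ := by gcongr
        _ ≤ _ := by nlinarith [mul_nonneg hsT0 hfn]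
    · refine (norm_add_le _ _).trans ?_
      have h3 : ‖lam * (φ t / (χ t : ℂ))‖ ≤ Real.sqrt L * ‖f t‖ := by
        rw [norm_mul, ← hL]
        calc L * ‖φ t / (χ t : ℂ)‖ = Real.sqrt L * (Real.sqrt L * ‖φ t / (χ t : ℂ)‖) := by
              rw [← mul_assoc, hsL2]
          _ ≤ Real.sqrt L * ‖f t‖ := by gcongr
      have h4 : ‖((2 * (-(χ1 t / χ t)) : ℝ) : ℂ) * (Wr χ χ1 φ Φ t / ((χ t ^ 2 : ℝ) : ℂ))‖
          ≤ 4 * Real.sqrt T' * ‖f t‖ := by
        rw [norm_mul, Complex.norm_real, Real.norm_eq_abs]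
        have hp1 := hb.plow t ht.1
        have hp2 := hb.pup t ht.1
        have hst := Real.sqrt_nonneg t
        have hstT : Real.sqrt t ≤ Real.sqrt T' := Real.sqrt_le_sqrt ht.2
        have h5 : |2 * (-(χ1 t / χ t))| ≤ 4 * Real.sqrt T' := by
          rw [abs_of_nonneg (by linarith)]
          linarith
        exact mul_le_mul h5 h2 (norm_nonneg _) (by positivity)
      calc _ ≤ Real.sqrt L * ‖f t‖ + 4 * Real.sqrt T' * ‖f t‖ := add_le_add h3 h4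
        _ = _ := by ring
  have hG := gronwall_back hfd hle T ⟨le_rfl, hTT'⟩
  have hfT' : ‖f T'‖ ≤ Real.exp (C1 * X) := by
    rw [Prod.norm_def]
    apply max_le
    · change ‖(Real.sqrt L : ℂ) * (φ T' / (χ T' : ℂ))‖ ≤ _
      rw [norm_mul, Complex.norm_real, Real.norm_eq_abs, abs_of_nonneg (Real.sqrt_nonneg _)]
      calc Real.sqrt L * ‖φ T' / (χ T' : ℂ)‖
          ≤ Real.exp X * Real.exp ((Real.sqrt (2 * T) + (1/2 + (M + 1) / δ)) * X) := by
            gcongr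
            exact hsLX.trans (le_exp_self' X)
        _ ≤ Real.exp (C1 * X) := by
            rw [← Real.exp_add]
            apply Real.exp_le_exp.2
            rw [hC1]
            nlinarith
    · exact b2'
  have hfT : ‖f T‖ ≤ Real.exp (C2 * X) := by
    refine hG.trans ?_
    have h1 : (Real.sqrt L + 4 * Real.sqrt T') * (T' - T) ≤ 2 * T * (1 + 4 * Real.sqrt (2 * T)) * X := by
      have h2 : T' - T ≤ 2 * T * L := by rw [hT']; linarith
      calc (Real.sqrt L + 4 * Real.sqrt T') * (T' - T)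
          ≤ (Real.sqrt L + 4 * Real.sqrt T') * (2 * T * L) := by
            apply mul_le_mul_of_nonneg_left h2
            positivity
        _ = _ := by rw [hsT', hX]; ring
    calc ‖f T'‖ * Real.exp ((Real.sqrt L + 4 * Real.sqrt T') * (T' - T))
        ≤ Real.exp (C1 * X) * Real.exp (2 * T * (1 + 4 * Real.sqrt (2 * T)) * X) := by
          gcongr
      _ = Real.exp (C2 * X) := by rw [← Real.exp_add, hC2]; congr 1; ring
  -- back to φ, Φ
  have hxc : (χ T : ℂ) ≠ 0 := by exact_mod_cast hxT.ne'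
  have hR : ‖φ T / (χ T : ℂ)‖ ≤ Real.exp (C2 * X) := by
    have h1 : ‖(Real.sqrt L : ℂ) * (φ T / (χ T : ℂ))‖ ≤ ‖f T‖ := norm_fst_le (f T)
    rw [norm_mul, Complex.norm_real, Real.norm_eq_abs, abs_of_nonneg (Real.sqrt_nonneg _)] at h1
    have := norm_nonneg (φ T / (χ T : ℂ))
    nlinarith
  have hR1 : ‖Wr χ χ1 φ Φ T / ((χ T ^ 2 : ℝ) : ℂ)‖ ≤ Real.exp (C2 * X) :=
    (norm_snd_le (f T)).trans hfT
  have hφ : ‖φ T‖ ≤ χ T * Real.exp (C2 * X) := by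
    have e : φ T = (χ T : ℂ) * (φ T / (χ T : ℂ)) := by field_simp
    rw [e, norm_mul, Complex.norm_real, Real.norm_eq_abs, abs_of_pos hxT]
    gcongr
  have hΦ : ‖Φ T‖ ≤ χ T * Real.exp (C2 * X) + |χ1 T| * Real.exp (C2 * X) := by
    have e : Φ T = (χ T : ℂ) * (Wr χ χ1 φ Φ T / ((χ T ^ 2 : ℝ) : ℂ))
        + (χ1 T : ℂ) * (φ T / (χ T : ℂ)) := by
      simp only [Wr]
      push_cast
      field_simp
      ring
    rw [e]
    refine (norm_add_le _ _).trans ?_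
    rw [norm_mul, norm_mul, Complex.norm_real, Complex.norm_real, Real.norm_eq_abs,
      Real.norm_eq_abs, abs_of_pos hxT]
    gcongr
  have h0 : 0 ≤ 2 * χ T + |χ1 T| := by positivity
  calc ‖φ T‖ + ‖Φ T‖ ≤ (2 * χ T + |χ1 T|) * Real.exp (C2 * X) := by linarith
    _ ≤ Real.exp ((2 * χ T + |χ1 T|) * X) * Real.exp (C2 * X) := by
        gcongr
        refine le_trans ?_ (le_exp_self' _)
        nlinarith
    _ ≤ Real.exp (C3 * X) := by
        rw [← Real.exp_add]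
        apply Real.exp_le_exp.2
        rw [hC3]
        nlinarith

theorem upper (hb : Base B χ χ1 M δ T) (t0 : ℝ) (ht0 : t0 ≤ T) :
    ∃ C : ℝ, 0 < C ∧ ∀ (lam : ℂ) (φ Φ : ℝ → ℂ), 1 ≤ ‖lam‖ → DSol B lam φ Φ →
      Tendsto (SF χ lam φ) atTop (𝓝 1) →
      ‖φ t0‖ ≤ Real.exp (C * (‖lam‖ * Real.sqrt ‖lam‖)) := by
  obtain ⟨C, hC⟩ := upper_T hb
  obtain ⟨K, hK0, hK⟩ := transfer hb.cont t0 T ht0
  refine ⟨2 * K + |C| + 1, by positivity, fun lam φ Φ hL1 hd hl => ?_⟩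
  have h1 := hC lam φ Φ hL1 hd hl
  have h2 := hK lam φ Φ hd
  set L := ‖lam‖ with hL
  have hsL1 : 1 ≤ Real.sqrt L := Real.one_le_sqrt.2 hL1
  set X := L * Real.sqrt L with hX
  have hLX : L ≤ X := by rw [hX]; nlinarith
  have h3 := norm_nonneg (Φ t0)
  calc ‖φ t0‖ ≤ ‖φ t0‖ + ‖Φ t0‖ := by linarith
    _ ≤ Real.exp (K * (1 + L)) * (‖φ T‖ + ‖Φ T‖) := h2
    _ ≤ Real.exp (K * (1 + L)) * Real.exp (C * X) := by gcongr
    _ ≤ _ := by
        rw [← Real.exp_add]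
        apply Real.exp_le_exp.2
        have h4 : C * X ≤ |C| * X := mul_le_mul_of_nonneg_right (le_abs_self C) (by linarith)
        have h5 : K * (1 + L) ≤ K * (2 * X) := mul_le_mul_of_nonneg_left (by linarith) hK0
        nlinarith

end

end Pool.Agent.Helper22.SAi
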